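import Pool.Agent.AUK.FJL.St2
import Pool.Agent.Lib_helper44.Wh.ArtinK1

/-!
# FJL, ART: Artin induction for functionals on `K_1(ℤ[C])` (helper62)
-/

set_option autoImplicit false
set_option linter.unusedSectionVars false

open Matrix Pool.Agent.WhK Pool.Agent.Lib25 CategoryTheory Pool.Agent.FJA

noncomputable section

namespace Pool.Agent.FJL

/-- stabilisation is the block sum with the unit matrix -/
theorem art_stab {R : Type} [Ring R] (m k : ℕ) (h : m ≤ m + k) (X : GLn R m) :
    stabGL R m (m + k) h X = bsumHom R m k (X, 1) := by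
  apply Units.ext
  change stabMat R m (m + k) X.val = bsum X.val (1 : Matrix (Fin k) (Fin k) R)
  unfold bsum
  rw [← Matrix.submatrix_id_id (stabMat R m (m + k) X.val)]
  have h1 : (stabMat R m (m + k) X.val).submatrix finSumFinEquiv finSumFinEquiv =
      Matrix.fromBlocks X.val 0 0 1 := by
    ext i j
    rcases i with i | i <;> rcases j with j | j
    · simp [stabMat]
    · have h2 : (Fin.castAdd k i : Fin (m + k)) ≠ Fin.natAdd m j := by
        intro h3
        have h4 := congrArg Fin.val h3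
        simp only [Fin.val_castAdd, Fin.val_natAdd] at h4
        have := i.2
        omega
      simp [stabMat, h2]
    · have h2 : (Fin.natAdd m i : Fin (m + k)) ≠ Fin.castAdd k j := by
        intro h3
        have h4 := congrArg Fin.val h3
        simp only [Fin.val_castAdd, Fin.val_natAdd] at h4
        have := j.2
        omega
      simp [stabMat, h2]
    · simp [stabMat, Matrix.one_apply]
  rw [← h1]
  ext i j
  simp

/-- the functional on `K₁` -/
theorem art_lift {R : Type} [Ring R] (F : ∀ r : ℕ, GLn R r → ℚ) (hF : FJB.IsK1 F) :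
    ∃ l : K1 R →+ ℚ, ∀ (r : ℕ) (X : GLn R r), l (K1.mk r X) = F r X := by
  have h1 : ∀ k : ℕ, F k 1 = 0 := by
    intro k
    have h := hF.1 k 1 1
    rw [mul_one] at h
    linarith
  let φ : FreeAbelianGroup (MatPair R) →+ ℚ := FreeAbelianGroup.lift fun p => F p.n p.X
  have hφ : ∀ (n : ℕ) (X : GLn R n), φ (K1.gen n X) = F n X := fun n X =>
    FreeAbelianGroup.lift_apply_of _ _
  have hker : AddSubgroup.closure (K1.relMul R ∪ K1.relStab R) ≤ φ.ker := by
    rw [AddSubgroup.closure_le]
    rintro x (⟨n, X, Y, rfl⟩ | ⟨m, n, hmn, X, rfl⟩)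
    · rw [SetLike.mem_coe, AddMonoidHom.mem_ker, K1.relMulElt, map_sub, map_sub, hφ, hφ, hφ,
        hF.1]
      ring
    · obtain ⟨k, rfl⟩ := Nat.exists_eq_add_of_le hmn
      rw [SetLike.mem_coe, AddMonoidHom.mem_ker, K1.relStabElt, map_sub, hφ, hφ, art_stab,
        hF.2, h1]
      ring
  exact ⟨QuotientAddGroup.lift _ φ hker, fun r X => hφ r X⟩

/-- FJL_ART. -/
theorem t_ART : S_ART := by
  intro C _ _ F hF hC r X
  obtain ⟨l, hl⟩ := art_lift F hF
  have : Fintype C := Fintype.ofFinite C
  have hz : cycUnits C ≤ l.ker := by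
    unfold cycUnits
    rw [AddSubgroup.closure_le]
    rintro y ⟨C0, hC0, u, rfl⟩
    rw [SetLike.mem_coe, AddMonoidHom.mem_ker]
    have h2 : K1.ofUnit (Units.map (zmap C0.subtype).toMonoidHom u) = K1.mk 1
        (FJB.unit1 (Units.map (gr C0.subtype : MonoidAlgebra ℤ C0 →* MonoidAlgebra ℤ C) u)) := by
      unfold K1.ofUnit
      congr 1
    rw [h2, hl]
    exact hC C0 hC0 u
  obtain ⟨N, hN, hx⟩ := artin_K1 (K1.mk r X)
  have h3 : l (N • K1.mk r X) = 0 := hz hx
  rw [map_nsmul, hl, nsmul_eq_mul] at h3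
  have hN0 : (N : ℚ) ≠ 0 := by exact_mod_cast hN.ne'
  exact (mul_eq_zero.1 h3).resolve_left hN0

end Pool.Agent.FJL
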