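import Pool.Agent.AUK.FJL.P_AFA

/-!
# FJL_BFB: the family attached to `B`
-/

set_option autoImplicit false
set_option linter.unusedSectionVars false

open Matrix Pool.Agent.WhK Pool.Agent.Lib25 CategoryTheory Pool.Agent.FJA

noncomputable section

namespace Pool.Agent.FJL

namespace BFB

variable {G : Type} [Group G] {m : ℕ}

/-- The functions of the finite subgroups. -/
theorem exists_b (B : ∀ (H : Subgroup G) (r : ℕ), OD.GLr (MonoidAlgebra ℤ H) r →
    OD.Coh m (Dual.CG H)) (H : Subgroup G) :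
    ∃ b : ∀ r : ℕ, GLn (MonoidAlgebra ℤ H) r → (HQ m (Dual.CG H) →ₗ[ℚ] ℚ),
      ∀ (r : ℕ) (X : GLn (MonoidAlgebra ℤ H) r), b r X = B H r X := ⟨fun r X => B H r X, fun _ _ => rfl⟩

end BFB

/-- Composition of the homomorphisms of the general linear groups. -/
theorem glm_gr_comp {C H K : Type} [Group C] [Group H] [Group K] (α : C →* H) (β : H →* K)
    (r : ℕ) (X : GLn (MonoidAlgebra ℤ C) r) :
    glm (gr β) r (glm (gr α) r X) = glm (gr (β.comp α)) r X := by
  apply Units.ext
  change (X.val.map (gr α)).map (gr β) = X.val.map (gr (β.comp α))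
  rw [Matrix.map_map]
  congr 1
  rw [gr_comp]
  rfl

theorem t_BFB : S_BFB := by
  intro m G _ B hB
  choose b hb using BFB.exists_b B
  -- compatibility with the conjugations
  have hcnj : ∀ (H H' : Subgroup G) (g : G) (φ : H →* H') (u : Dual.CG H' →* Dual.CG H),
      Finite H → Finite H' → Dual.Cnj g φ u → ∀ (r : ℕ) (X : GLn (MonoidAlgebra ℤ H) r)
        (c : HQ m (Dual.CG H')), b H' r (glm (gr φ) r X) c = b H r X (HQ.map m u c) := by
    intro H H' g φ u hH hH' hc r X c
    rw [hb, hb]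
    exact congrArg (fun f : OD.Coh m (Dual.CG H') => f.ev c)
      (hB.2 H H' g φ u hH hH' hc r X)
  let D : FamB m G := fun C P _ _ φ j H r X =>
    b φ.range r (glm (gr φ.rangeRestrict) r X) ∘ₗ HQ.map m (jh φ j H)
  have hD : ∀ (C P : Type) [Group C] [Group P] (φ : C →* G) (j : P →* G)
      (H : ∀ z c, Commute (j z) (φ c)) (r : ℕ) (X : GLn (MonoidAlgebra ℤ C) r) (c : HQ m P),
      D C P φ j H r X c =
        b φ.range r (glm (gr φ.rangeRestrict) r X) (HQ.map m (jh φ j H) c) :=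
    fun C P _ _ φ j H r X c => rfl
  -- the general lemma
  have key : ∀ (C P : Type) [Group C] [Group P] [Finite C] (φ : C →* G) (j : P →* G)
      (H : ∀ z c, Commute (j z) (φ c)) (K : Subgroup G), Finite K → ∀ (ψ : C →* K)
      (u : P →* Dual.CG K) (g : G), (∀ c, (ψ c : G) = g * φ c * g⁻¹) →
      (∀ z, j z = g⁻¹ * u z * g) → ∀ (r : ℕ) (X : GLn (MonoidAlgebra ℤ C) r) (c : HQ m P),
      D C P φ j H r X c = b K r (glm (gr ψ) r X) (HQ.map m u c) := by
    intro C P _ _ _ φ j H K hK ψ u g h1 h2 r X c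
    obtain ⟨φ1, u1, h3, h4, h5⟩ := exists_cnj φ j H K ψ u g h1 h2
    rw [hD, h5, HQ.map_comp, ← hcnj φ.range K g φ1 u1 (finite_range' φ) hK h3, glm_gr_comp, ← h4]
  refine ⟨D, ⟨?_, ?_, ?_, ?_, ?_⟩, ?_⟩
  · intro C P _ _ _ φ j H r X Y
    apply LinearMap.ext
    intro c
    rw [LinearMap.add_apply, hD, hD, hD, map_mul, hb, hb, hb]
    exact congrArg (fun f : OD.Coh m (Dual.CG φ.range) => f.ev (HQ.map m (jh φ j H) c))
      ((hB.1 φ.range (finite_range' φ)).1 r _ _)
  · intro C P _ _ _ φ j H p q X Y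
    apply LinearMap.ext
    intro c
    rw [LinearMap.add_apply, hD, hD, hD, FJB.WHX.glm_bsum, hb, hb, hb]
    exact congrArg (fun f : OD.Coh m (Dual.CG φ.range) => f.ev (HQ.map m (jh φ j H) c))
      ((hB.1 φ.range (finite_range' φ)).2 p q (glm (gr φ.rangeRestrict) p X)
        (glm (gr φ.rangeRestrict) q Y) (bsumHom (MonoidAlgebra ℤ φ.range) p q
          (glm (gr φ.rangeRestrict) p X, glm (gr φ.rangeRestrict) q Y))
        (by unfold OD.Blk OD.GLr.mat; rfl))
  · intro C P Q _ _ _ _ φ j H f j' H' hj r X c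
    have h1 : jh φ j' H' = (jh φ j H).comp f := by
      ext z
      exact hj z
    rw [hD, hD, h1, HQ.map_comp]
  · intro C C' P _ _ _ _ _ φ j H α φ' H' hφ r X c
    rw [key C' P φ' j H' φ.range (finite_range' φ) (φ.rangeRestrict.comp α) (jh φ j H) 1
      (fun c => by rw [hφ, one_mul, inv_one, mul_one]; rfl)
      (fun z => by rw [jh_coe, inv_one, one_mul, mul_one]) r X c, hD, glm_gr_comp]
  · intro C P _ _ _ φ φ' j j' H H' g hφ hj r X c
    rw [key C P φ j H φ'.range (finite_range' φ') φ'.rangeRestrict (jh φ' j' H') g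
      (fun c => hφ c) (fun z => by rw [jh_coe, hj]; group) r X c, hD]
  · intro K hK C P _ _ _ φ j H ψ u h1 h2 r X c
    rw [key C P φ j H K hK ψ u 1 (fun c => by rw [h1, one_mul, inv_one, mul_one])
      (fun z => by rw [h2, inv_one, one_mul, mul_one]) r X c, hb]
    rfl

end Pool.Agent.FJL
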