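import Pool.Agent.AUK.FJL.Defs

/-!
# FJL, block 1 (the part `t = -1`): statements with proofs

File names: `Pool/Agent/FJL/P_X.lean`, theorem `t_X : S_X` (hypotheses as in the doc strings), namespace
`Pool.Agent.FJL`; imports `Pool.Agent.FJL.St1` (and what is named in the doc string).
Conventions: `Km φ` is the map on `K_{-1}` of integral group rings (`KM.Kg`), `kap β N p` the universal class over
`C_N`, `pG n φ j H x c` the product.  `FJA.pw N w = KM.pwr N w` and `gen N = KM.gn N` by definition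
(`rfl`), `Tw N w = Km (pw N w)`, `uRel = KM.uR`.
-/

set_option autoImplicit false
set_option linter.unusedSectionVars false

open Matrix Pool.Agent.WhK Pool.Agent.Lib25 CategoryTheory Pool.Agent.FJA

noncomputable section

namespace Pool.Agent.FJL

/-- FJL_BOX (120 lines; no hypotheses; import `Pool.Agent.FJB.Final4`).  The interface.

PROOF.  `(FJB.s_all9).2` gives `ε` and for every `G` maps `A, B, T` (types `SrcN n G`, `SrcO n G`, `Kb n _`, which are
`Src n G`, `Src1 m G` for `n = m + 1`, `KB n _` by definition: use `show`/`change`; `choose`).  `A G n := A n`,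
`B G m := B (m + 1)`.  `hA`: `IsAsm ε (A n)` is `IsAssembly` by definition (unfold; `symN p h c = sym p h c` and
`Kb.mk = KB.mk` are `rfl`).  `hB` from `IsAsm1`.
`extS`: `n = m + 1 ≤ 2` or `PBd G`.  Let `T = T (m + 1)`, and
`Ψ : SrcZ n G × SrcN n G × SrcO n G →ₗ ℚ`, `Ψ (a, x, y) = lam' a + La x + Lb y`, where `lam'` is `lam` on the quotient
by `inG n G` (`Submodule.liftQ`).  If `T w = 0` then (last clause of `S_ALL9`) `w.1 = 0`, `w.2.1 ∈ UndN n G`
(`= UN n G` by definition), `w.2.2 ∈ UndO n G` (`= Und1 m G`), so `Ψ w = 0`.  Hence there is `Φ` with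
`Φ (T w) = Ψ w` for all `w` (`FJA.exists_fun` (Avg.lean) with `J` the whole space, `a = T`, `b = Ψ`).
`T (mk a, x, y) = tauN n G a + A x + B y`, and `tauN n G 0 = 0` (linear: `FJA.tau`), so
`Φ (tau a) = Ψ (mk a, 0, 0) = lam a`, `Φ (A x) = La x`, `Φ (B y) = Lb y`.  `ext0`: the same with `T 0`
(`SrcO 0 G = PUnit`, `Lb = 0`). -/
def S_BOX : Prop := Nonempty Box

/-- FJL_LZ0 (200 lines; no hypotheses).  The functional on the source of `C × ℤ` attached to an admissible
function on `C`.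

PROOF.  Write `χ h = (MonoidHom.snd C (Multiplicative ℤ)).comp (Cen h).subtype`.  Let
`La0 : (Sym 0 (C × ℤ) →₀ ℚ) →ₗ ℚ` be `Finsupp.linearCombination ℚ (fun s => if Adm s.p s.h then L s.p s.h.1 *
dg (χ s.h) s.c else 0)`; it vanishes on `Rel 0 _`:
* invalid: `0`; add, smul: linearity of `dg`.
* conj: `adm_iff_conj`; `L p (x * h * x⁻¹).1 = L p h.1` (`AdmM.conj`); `dg_map` and
  `(χ (x h x⁻¹)).comp (cHom x _) = χ h` (`snd (x z x⁻¹) = snd z`, `Multiplicative ℤ` is commutative).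
* frob: `h ∈ zpowers h'`, `h' ∈ zpowers h` so `Adm p h'` (same order) and `zpowers h.1 = zpowers h'.1`,
  `h.1 ^ p ^ j = h'.1 ^ p ^ k`: `AdmM.frob`; `dg_map` as before (`1 * z * 1⁻¹ = z`).
* sum: for `p ∈ (orderOf h).primeFactors` and `a` coprime to `orderOf h`: `orderOf (h ^ a) = orderOf h`, so
  `Adm p (h ^ a)`; all the `dg` values are `dg (χ h) c`; the sum is
  `(∑ p, ∑ a, L p (h.1 ^ a)) * dg (χ h) c`.  As `h` has finite order, `h.2 = 1` (`ℤ` is torsion free) and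
  `orderOf h = orderOf h.1`; `AdmM.sum` for `h.1`.
`La` is the map induced on `Src 0 _ = (Sym →₀ ℚ) ⧸ span Rel` (`Submodule.liftQ`, as at the end of `exists_A` in
FJA/Asm.lean).  On `UN`: span induction; for `Und 1 (Cen h) c` the value is `L .. * dg (χ h) c = 0`
(`dg_und`) or `0` (not `Adm`, `if_neg`). -/
def S_LZ0 : Prop := ∀ (C : Type) [Group C] (L : ℕ → C → ℚ), KM.AdmM L →
  ∃ La : Src 0 (C × Multiplicative ℤ) →ₗ[ℚ] ℚ,
    (∀ (p : ℕ) (h : C × Multiplicative ℤ) (c : HQ 1 (Cen h)), FJA.Adm p h →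
      La (sym p h c) = L p h.1 * dg ((MonoidHom.snd C (Multiplicative ℤ)).comp (Cen h).subtype) c) ∧
    ∀ x ∈ UN 0 (C × Multiplicative ℤ), La x = 0

/-- The functionals `F ∘ lz` realise the admissible functions on cyclic groups. -/
def Dt0 (β : Box) : Prop := ∀ (N : ℕ) [NeZero N] (L : ℕ → Cyc N → ℚ), KM.AdmM L →
  ∃ F : KB 0 (MonoidAlgebra ℤ (Cyc N × Multiplicative ℤ)) →ₗ[ℚ] ℚ,
    ∀ M : ℕ, 1 < M → ∀ p : ℕ, p.Prime → p ∣ M → ∀ φ : Cyc M →* Cyc N, Function.Injective φ →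
      F (lz (Cyc N) (Km φ (kap β M p))) = L p (φ (gen M))

/-- FJL_DT0 (100 lines; hypothesis `S_LZ0`).

PROOF.  `La` from `S_LZ0` for `C = Cyc N`; `β.ext0 (Cyc N × ℤ) 0 La` gives `Φ` with `Φ (A x) = La x`; `F = Φ`.
Let `φ' = (MonoidHom.inl ..).comp φ` (injective), `h = φ' (gen M) = (φ (gen M), 1)`,
`f : Multiplicative ℤ →* Cen h`, `z ↦ ((1, z), _)`.  By `pG_map` (backwards), `pG_comp` and `Box.A_sym`:
`lz (Km φ κ) = pG 0 inl inr (Km φ κ) cZ = pG 0 φ' inr κ cZ = pG 0 φ' (Cen h).subtype κ (HQ.map 1 f cZ)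
= β.A _ 0 (sym p h (HQ.map 1 f cZ))`, and `La` of it is
`L p (φ (gen M)) * dg (snd ∘ subtype) (HQ.map 1 f cZ) = L p (φ (gen M)) * dg (MonoidHom.id _) cZ` (`dg_map`), and
`dg id cZ = 1` (`dg_c1`). -/
def S_DT0 : Prop := ∀ β : Box, Dt0 β

/-- Functionals on `K_{-1}(ℤ[C_N])` which vanish on the induced universal classes are zero. -/
def TA (β : Box) : Prop := ∀ (N : ℕ) [NeZero N] (l : KNegOne (MonoidAlgebra ℤ (Cyc N)) →+ ℚ),
  (∀ M : ℕ, 1 < M → ∀ p : ℕ, p.Prime → p ∣ M → ∀ φ : Cyc M →* Cyc N, Function.Injective φ →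
    l (Km φ (kap β M p)) = 0) → l = 0

/-- Every functional on `K_{-1}(ℤ[C_N])` is of the form `F ∘ lz`. -/
def TB (β : Box) : Prop := ∀ (N : ℕ) [NeZero N] (l : KNegOne (MonoidAlgebra ℤ (Cyc N)) →+ ℚ),
  ∃ F : KB 0 (MonoidAlgebra ℤ (Cyc N × Multiplicative ℤ)) →ₗ[ℚ] ℚ, ∀ x, l x = F (lz (Cyc N) x)

/-- FJL_TCZ (230 lines; hypotheses `∀ β, Dt0 β`, `KM.S_UB`, `KM.S_TLA`; COPY of KM/P_TCY.lean).

PROOF.  Copy `t_TCY` (Pool/Agent/KM/P_TCY.lean; its lemmas `exists_emb`, `form`, `finrank_form`, `pwr_gn`,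
`pwr_inj` are in the namespace `Pool.Agent.KM.TCY`, import `Pool.Agent.KM.P_TCY`) with `ω = 1`,
`κ M p = kap β M p`, and the following change.  `V = (KNegOne ℤ[C_N] →+ ℚ)`; let
`𝓕 ≤ V` be the range of the linear map `F ↦ F ∘ lz` from `(KB 0 _ →ₗ ℚ)` to `V`.  `Ψ : V → ∏..` as there; for
`f` in the source `𝓛` of `J`, `S_TLA` gives `L` and `Dt0 β` gives `F` with `Ψ (F ∘ lz) = J f`.  So
`range J ≤ range (Ψ restricted to 𝓕)`, hence `finrank V ≤ finrank (range J) ≤ finrank (range (Ψ|𝓕)) ≤ finrank 𝓕`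
(`S_UB` for the first inequality, as in `t_TCY`; `V` is finite dimensional).  So `𝓕 = ⊤`
(`Submodule.eq_top_of_finrank_eq`), which is `TB`; and `finrank V ≤ finrank (range Ψ)`, so `ker Ψ = ⊥`, which is
`TA`. -/
def S_TCZ : Prop := ∀ β : Box, Dt0 β → TA β ∧ TB β

/-- The values of the functionals on the Galois conjugates of the universal classes. -/
def IV (β : Box) : Prop := ∀ (N : ℕ) [NeZero N] (l : KNegOne (MonoidAlgebra ℤ (Cyc N)) →+ ℚ),
  (∀ p : ℕ, p.Prime → p ∣ N → ∀ w : (ZMod N)ˣ, uRel N p w 1 →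
    l (Tw N w (kap β N p)) = l (kap β N p)) ∧
  ∑ q ∈ N.primeFactors, ∑ w : (ZMod N)ˣ, l (Tw N w (kap β N q)) = 0

/-- FJL_INV (200 lines; no hypotheses).

PROOF.  Let `G = Cyc N × Multiplicative ℤ`, `ι = MonoidHom.inl`, `h = ι (gen N)`; `l x = F (lz x)` by `TB`.
(1) For an injective `φ : Cyc N →* G`, `h' = φ (gen N)` and a homomorphism `f' : Multiplicative ℤ →* Cen h'` with
`(f' z : G) = (1, z)`: `pG 0 φ inr _ (kap β N p) cZ = β.A G 0 (sym p h' (HQ.map 1 f' cZ))` for `p` prime, `p ∣ N`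
(`pG_comp`, `Box.A_sym`; `φ` commutes with `inr`).
(2) `l (Tw N w κ) = F (pG 0 ι inr (Km (pw N w) κ) cZ) = F (pG 0 (ι.comp (pw N w)) inr κ cZ)` (`pG_map`), and
`(ι.comp (pw N w)) (gen N) = h ^ (w : ZMod N).val` (`pw_gen`), so with (1) and the homomorphism
`f_w : z ↦ (1, z)` to `Cen (h ^ w.val)`:
`l (Tw N w κ(N,p)) = F (A (sym p (h ^ w.val) (HQ.map 1 f_w cZ)))`.
(3) `HQ.map 1 f_w cZ = HQ.map 1 (cHom 1 (cHom_pow h _)) (HQ.map 1 f_1 cZ)`.  So the first claim is the relation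
`Rel.frob` in `Src 0 G` (for `h`, `h' = h ^ w.val`: `h ^ p ^ j = h' ^ p ^ k` from `uRel N p w 1`, compare
`exists_A` in FJA/Asm.lean, which does the converse translation), and the second claim is the relation
`Rel.sum h (HQ.map 1 f_1 cZ)` (translate `∑ a ∈ range N, coprime` into the sum over the units as in `exists_A`,
case `sum`).  (`sym` of a relation is zero: `Submodule.mkQ`, `Submodule.subset_span`.)  For `N = 1` there is no
prime factor. -/
def S_INV : Prop := ∀ β : Box, TB β → IV β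

/-- Finite groups: functionals on `K_{-1}(ℤ[C])` which vanish on the induced universal classes are zero. -/
def GN (β : Box) : Prop := ∀ (C : Type) [Group C] [Finite C]
  (l : KNegOne (MonoidAlgebra ℤ C) →+ ℚ),
  (∀ M : ℕ, 1 < M → ∀ p : ℕ, p.Prime → p ∣ M → ∀ φ : Cyc M →* C, Function.Injective φ →
    l (Km φ (kap β M p)) = 0) → l = 0

/-- FJL_GEN (40 lines; hypothesis `KM.StA_FIC.{0}`; COPY of `t_TFI` in KM/P_TFI.lean). -/
def S_GEN : Prop := ∀ β : Box, TA β → GN β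

/-- FJL_LMN (230 lines; no hypotheses; ADAPTATION of `exists_V`, `exists_A` in FJA/Asm.lean).  The functional on
the source with symbols attached to a functional on the literal source.

PROOF.  Take the proof of `exists_A` with the target `ℚ` in place of `KB n _` and `E C P φ j H x c` in place of
`prodG hPRI hBD n φ j H x c`; `prodG_comp`, `prodG_map`, `prodG_conj` are replaced by `IsFA.comp`, `IsFA.map`,
`IsFA.conj` (the groups `Cyc N`, `N = orderOf h > 0`, are finite), `prodG_congr` by `subst`.  The hypotheses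
`hfrob`, `hsum` are used only in the form `E .. (Tw N w (κ N p)) c = E .. (κ N p) c` and
`∑ q, ∑ w, E .. (Tw N w (κ N q)) c = 0`, which is `IV β` for the additive functional
`l x = E (Cyc N) (Cen h) φ (Cen h).subtype H x c`.
`UN`: span induction; `x = sym p h c` with `c` undetected: if `Adm p h`, `N = orderOf h > 1`, `h = φ (gen N)` with
`φ` injective (`exists_cyc`; injective as in `t_ALLz`, FinE.lean), the value is `E .. κ c = 0` by `DetA`; if not,
`V p h = 0`. -/
def S_LMN : Prop := ∀ β : Box, IV β → ∀ (n : ℕ) (G : Type) [Group G] (E : FamA n G), IsFA E →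
  DetA E → ∃ La : Src n G →ₗ[ℚ] ℚ,
    (∀ (N p : ℕ) (φ : Cyc N →* G) (c : HQ (n + 1) (Cen (φ (gen N)))), 0 < N → p.Prime → p ∣ N →
      Function.Injective φ →
      La (sym p (φ (gen N)) c) =
        E (Cyc N) (Cen (φ (gen N))) φ (Cen (φ (gen N))).subtype (commute_cyc φ) (kap β N p) c) ∧
    ∀ x ∈ UN n G, La x = 0

/-- FJL_FVN (80 lines; no hypotheses).  Two functionals on the literal source which agree on the universal classes
of the cyclic subgroups agree.

PROOF.  Fix `C, P, φ, j, H, c` and let `l x = E1 C P φ j H x c - E2 C P φ j H x c` (additive).  For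
`ψ : Cyc M →* C` injective, `M > 1`, `p ∣ M`: with `φ' = φ.comp ψ` (injective) and the homomorphism
`f : P →* Cen (φ' (gen M))`, `(f z : G) = j z` (`j z` commutes with `φ c`), `IsFA.map` (backwards) and `IsFA.comp`:
`E C P φ j H (Km ψ κ) c = E (Cyc M) P φ' j _ κ c
= E (Cyc M) (Cen (φ' (gen M))) φ' subtype _ κ (HQ.map (n + 1) f c)` for `E = E1, E2`; so `l (Km ψ κ) = 0`, and
`l = 0` by `GN β`. -/
def S_FVN : Prop := ∀ β : Box, GN β → ∀ (n : ℕ) (G : Type) [Group G] (E1 E2 : FamA n G),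
  IsFA E1 → IsFA E2 →
  (∀ (N p : ℕ) (φ : Cyc N →* G) (c : HQ (n + 1) (Cen (φ (gen N)))), 0 < N → p.Prime → p ∣ N →
    Function.Injective φ →
    E1 (Cyc N) (Cen (φ (gen N))) φ (Cen (φ (gen N))).subtype (commute_cyc φ) (kap β N p) c =
      E2 (Cyc N) (Cen (φ (gen N))) φ (Cen (φ (gen N))).subtype (commute_cyc φ) (kap β N p) c) →
  ∀ (C P : Type) [Group C] [Group P] [Finite C] (φ : C →* G) (j : P →* G)
    (H : ∀ z c, Commute (j z) (φ c)), Function.Injective φ →
    ∀ (x : KNegOne (MonoidAlgebra ℤ C)) (c : HQ (n + 1) P),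
      E1 C P φ j H x c = E2 C P φ j H x c

end Pool.Agent.FJL
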