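import Pool.Agent.AUK.FJL.St1

/-!
# FJL, module DT0: the functionals `F ∘ lz` realise the admissible functions on cyclic groups
-/

set_option autoImplicit false
set_option linter.unusedSectionVars false

open Matrix Pool.Agent.WhK Pool.Agent.Lib25 CategoryTheory Pool.Agent.FJA

noncomputable section

namespace Pool.Agent.FJL

theorem t_DT0 (hLZ : S_LZ0) : S_DT0 := by
  intro β N _ L hadm
  obtain ⟨La, h1, h2⟩ := hLZ (Cyc N) L hadm
  obtain ⟨F, -, hF⟩ := β.ext0 (Cyc N × Multiplicative ℤ) 0 La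
    (fun a _ => LinearMap.zero_apply a) h2
  refine ⟨F, ?_⟩
  intro M hM p hp hpM φ hφ
  have hM0 : 0 < M := by omega
  let φ' : Cyc M →* Cyc N × Multiplicative ℤ :=
    (MonoidHom.inl (Cyc N) (Multiplicative ℤ)).comp φ
  have hφ' : Function.Injective φ' := by
    intro a b hab
    exact hφ (congrArg Prod.fst hab)
  have hmem : ∀ z : Multiplicative ℤ,
      MonoidHom.inr (Cyc N) (Multiplicative ℤ) z ∈ Cen (φ' (gen M)) := by
    intro z
    rw [Subgroup.mem_centralizer_singleton_iff]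
    exact commZ (Cyc N) z (φ (gen M))
  let f : Multiplicative ℤ →* Cen (φ' (gen M)) :=
    (MonoidHom.inr (Cyc N) (Multiplicative ℤ)).codRestrict _ hmem
  have H' : ∀ (z : Multiplicative ℤ) (c : Cyc M),
      Commute (MonoidHom.inr (Cyc N) (Multiplicative ℤ) z) (φ' c) :=
    fun z c => commZ (Cyc N) z (φ c)
  have e1 : lz (Cyc N) (Km φ (kap β M p)) =
      β.A (Cyc N × Multiplicative ℤ) 0 (sym p (φ' (gen M)) (HQ.map 1 f cZ)) := by
    have e2 : lz (Cyc N) (Km φ (kap β M p)) =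
        pG 0 φ' (MonoidHom.inr (Cyc N) (Multiplicative ℤ)) H' (kap β M p) cZ :=
      (pG_map 0 (MonoidHom.inl (Cyc N) (Multiplicative ℤ))
        (MonoidHom.inr (Cyc N) (Multiplicative ℤ)) (commZ (Cyc N)) φ φ' H' rfl
        (kap β M p) cZ).symm
    rw [e2, pG_comp 0 φ' (Cen (φ' (gen M))).subtype (commute_cyc φ') f
      (MonoidHom.inr (Cyc N) (Multiplicative ℤ)) H' (fun z => rfl) (kap β M p) cZ]
    exact (β.A_sym 0 M p φ' (HQ.map 1 f cZ) hM0 hp hpM hφ').symm
  rw [e1, hF]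
  have hord : orderOf (φ' (gen M)) = M := orderOf_cyc hM0 φ' hφ'
  have hv : FJA.Adm p (φ' (gen M)) := ⟨hp, by rw [← orderOf_pos_iff, hord]; exact hM0,
    by rw [hord]; exact hpM⟩
  rw [h1 p _ _ hv, dg_map]
  have e3 : ((MonoidHom.snd (Cyc N) (Multiplicative ℤ)).comp
      (Cen (φ' (gen M))).subtype).comp f = MonoidHom.id (Multiplicative ℤ) := by
    ext
    rfl
  rw [e3]
  unfold cZ
  rw [dg_c1]
  have e4 : ((Multiplicative.toAdd (MonoidHom.id (Multiplicative ℤ) tZ) : ℤ) : ℚ) = 1 := by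
    unfold tZ
    simp
  rw [e4, mul_one]
  rfl

end Pool.Agent.FJL
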