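import Pool.Agent.AUK.FJL.St4

/-!
# The part `t = 0` of the extension
-/

set_option autoImplicit false
set_option linter.unusedSectionVars false

open Matrix Pool.Agent.WhK Pool.Agent.Lib25 CategoryTheory Pool.Agent.FJA

noncomputable section

namespace Pool.Agent.FJL

namespace EX0

variable {G : Type} [Group G]

theorem gl1_tt : gl1 (mon (G := G)) ((1 : G), Multiplicative.ofAdd (1 : ℤ)) =
    (Dual.tr G 1 : GLn (LaurentPolynomial (MonoidAlgebra ℤ G)) 1) := by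
  apply Units.ext
  change (Matrix.diagonal fun _ => mon ((1 : G), Multiplicative.ofAdd (1 : ℤ))) =
    Matrix.scalar (Fin 1) (LaurentPolynomial.T 1)
  rw [Matrix.scalar_apply]
  rfl

theorem gl1_gr (g : G) : gl1 (mon (G := G)) (g, (1 : Multiplicative ℤ)) =
    (Dual.gr G 1 g : GLn (LaurentPolynomial (MonoidAlgebra ℤ G)) 1) := by
  apply Units.ext
  change (Matrix.diagonal fun _ => mon (g, (1 : Multiplicative ℤ))) =
    Matrix.scalar (Fin 1) (LaurentPolynomial.C (MonoidAlgebra.of ℤ G g))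
  rw [Matrix.scalar_apply]
  rfl

end EX0

theorem t_EX0 : S_EX0 := by
  intro n G _ f lam hz Φ hΦ x c hx
  obtain ⟨z, hz1, hz2⟩ := hx
  obtain ⟨z', h1, h2⟩ := hz z
  obtain ⟨y, h3, h4⟩ := Hk.map_cl (k := ℚ) (gl1 (mon (G := G))) z'
  refine ⟨cl ℚ (n + 1) _ y, ⟨y, ?_, rfl⟩, ?_⟩
  · change ch ℚ (n + 1) _ y = _
    rw [h4, h1, AS1.map_insL, EX0.gl1_tt]
    have h5 : IC.map ℚ n (gl1 (mon (G := G)))
        (IC.map ℚ n (MonoidHom.inl G (Multiplicative ℤ)) (ch ℚ n G z)) =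
        x.mapDomain fun a i => Dual.gr G 1 (a i) := by
      have h6 : ch ℚ n G z = x := hz1
      rw [h6]
      unfold IC.map
      rw [Finsupp.lmapDomain_apply, Finsupp.lmapDomain_apply, ← Finsupp.mapDomain_comp]
      exact congrArg (fun F => Finsupp.mapDomain F x) (funext fun a => funext fun i =>
        EX0.gl1_gr (a i))
    rw [h5]
    rfl
  · have h7 : (FF Φ 1).ev (cl ℚ (n + 1) _ y) = Φ (tau n G (cl ℚ (n + 1) _ z')) := by
      change Φ (KB.mk n (MonoidAlgebra ℤ G) 1 (cl ℚ (n + 1) _ y)) =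
        Φ (KB.mk n (MonoidAlgebra ℤ G) 1 (HQ.map (n + 1) (gl1 mon) (cl ℚ (n + 1) _ z')))
      rw [HQ_map_eq, h3]
    rw [h7, hΦ, h2]
    have h8 : cl ℚ n G z = c := hz2
    rw [h8]

end Pool.Agent.FJL
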