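import Pool.Agent.AUK.FJL.St4

/-!
# FJL_EXA: the part `t = -1` of the dual form
-/

set_option autoImplicit false
set_option linter.unusedSectionVars false

open Matrix Pool.Agent.WhK Pool.Agent.Lib25 CategoryTheory Pool.Agent.FJA

noncomputable section

namespace Pool.Agent.FJL

theorem lm_id {C : Type} [Group C] (x : LaurentPolynomial (MonoidAlgebra ℤ C)) :
    Dual.lm (MonoidHom.id C) x = x := by
  have h0 : ∀ a : MonoidAlgebra ℤ C, gr (MonoidHom.id C) a = a := by
    intro a
    induction a using MonoidAlgebra.induction_on with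
    | of c => rw [gr_of]; rfl
    | add x y hx hy => rw [map_add, hx, hy]
    | smul r x hx => rw [map_zsmul, hx]
  change mapL (gr (MonoidHom.id C)) x = x
  induction x using AddMonoidAlgebra.induction_linear with
  | zero => rw [map_zero]
  | add f g hf hg => rw [map_add, hf, hg]
  | single n a => rw [mapL_single, h0]

theorem commute_CG {G : Type} [Group G] (H : Subgroup G) (z : Dual.CG H) (c : H) :
    Commute ((Dual.CG H).subtype z) (H.subtype c) :=
  (Subgroup.mem_centralizer_iff.1 z.2 (c : G) c.2).symm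

theorem t_EXA : S_EXA := by
  intro n G _ A E hE lam Φ hΦ H r e hH he
  let ε : IdemMat (LaurentPolynomial (MonoidAlgebra ℤ H)) := ⟨r, e, he⟩
  let s : Dual.CG H →* GLn (LaurentPolynomial (MonoidAlgebra ℤ G)) r :=
    rhoG (mapL (gr H.subtype)) (cu ((MonoidAlgebra.of ℤ G).comp (Dual.CG H).subtype))
      (comm_cu (comm_of (commute_CG H))) ε
  refine ⟨s, fun z => ?_, ?_⟩
  · have h1 : (s z).val = rhoMat (e.map (mapL (gr H.subtype)))
        (cu ((MonoidAlgebra.of ℤ G).comp (Dual.CG H).subtype) z) := rhoG_val _ _ _ ε z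
    refine Eq.trans h1 ?_
    unfold rhoMat
    congr 1
    ext i j
    have h2 : (Dual.gr G r (z : G)).mat =
        Matrix.diagonal fun _ => LaurentPolynomial.C (MonoidAlgebra.of ℤ G (z : G)) := rfl
    rw [h2, Matrix.diagonal_mul, Matrix.smul_apply, smul_eq_mul]
    rfl
  · apply LinearMap.ext
    intro c
    have h1 := hΦ.2 H (Dual.CG H) H.subtype (Dual.CG H).subtype (commute_CG H)
      H.subtype_injective (KNegOne.of ε) c
    have h2 := hE H hH H (Dual.CG H) H.subtype (Dual.CG H).subtype (commute_CG H)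
      (MonoidHom.id H) (MonoidHom.id (Dual.CG H)) (fun _ => rfl) (fun _ => rfl) ε c
    rw [pG_of, h2, HQ_map_eq (n + 1) (MonoidHom.id (Dual.CG H)), Hk.map_id] at h1
    have h3 : ε.mat.map (Dual.lm (MonoidHom.id H)) = e := by
      ext1 i j
      exact lm_id _
    rw [h3] at h1
    exact h1

end Pool.Agent.FJL
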