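import Pool.Agent.AUK.FJL.St2
import Pool.Agent.AUK.FJL.St4

/-!
# EXB: the part `t = 1` of the dual form
-/

set_option autoImplicit false

open Matrix Pool.Agent.WhK Pool.Agent.Lib25 CategoryTheory Pool.Agent.FJA

noncomputable section

namespace Pool.Agent.FJL

namespace EXB

theorem tI_tr (G : Type) [Group G] (r : ℕ) :
    (FJB.WHX.tI (MonoidAlgebra ℤ G) r : GLn (LaurentPolynomial (MonoidAlgebra ℤ G)) r) =
      Dual.tr G r := by
  apply Units.ext
  rfl

theorem scG_gr (G : Type) [Group G] (r : ℕ) (g : G) :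
    (scG G r g : GLn (LaurentPolynomial (MonoidAlgebra ℤ G)) r) = Dual.gr G r g := by
  apply Units.ext
  rfl

theorem glm_eq {H G : Type} [Group H] [Group G] (φ : H →* G) (r : ℕ)
    (X : GLn (MonoidAlgebra ℤ H) r) :
    (glm ((cst (MonoidAlgebra ℤ G)).comp (gr φ)) r X :
      GLn (LaurentPolynomial (MonoidAlgebra ℤ G)) r) =
      OD.GLr.map (Dual.lm φ) r (OD.GLr.map LaurentPolynomial.C r X) := by
  apply Units.ext
  refine Matrix.ext fun i j => ?_
  change cst (MonoidAlgebra ℤ G) (gr φ (X.val i j)) =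
    mapL (gr φ) (AddMonoidAlgebra.single 0 (X.val i j))
  rw [mapL_single, cst_apply]

theorem glm_id {R : Type} [Ring R] (r : ℕ) (X : GLn R r) : glm (RingHom.id R) r X = X := by
  apply Units.ext
  rfl

theorem gr_id (H : Type) [Group H] : gr (MonoidHom.id H) = RingHom.id (MonoidAlgebra ℤ H) := by
  apply RingHom.ext
  intro x
  induction x using MonoidAlgebra.induction_linear with
  | zero => rw [map_zero, map_zero]
  | add a b ha hb => rw [map_add, ha, hb, map_add]
  | single g a => exact MonoidAlgebra.mapDomain_single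

theorem map_id {P : Type} [Group P] (m : ℕ) (c : HQ m P) : HQ.map m (MonoidHom.id P) c = c := by
  rw [HQ_map_eq]
  exact Hk.map_id m c

end EXB

theorem t_EXB (hQEX : S_QEX) : S_EXB := by
  intro m G _ B D hD Φ hΦ H r X x c hH hc
  obtain ⟨z, rfl, rfl⟩ := hc
  have hcomm : ∀ (z : Dual.CG H) (c : H), Commute ((Dual.CG H).subtype z) (H.subtype c) :=
    fun z c => ((Subgroup.mem_centralizer_iff.1 z.2) c.1 c.2).symm
  obtain ⟨Q, hQ⟩ := hQEX H (Dual.CG H) G H.subtype (Dual.CG H).subtype hcomm m r X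
  obtain ⟨z', h1, h2⟩ := hQ z
  refine ⟨cl ℚ (m + 2) _ z', ⟨z', ?_, rfl⟩, ?_⟩
  · refine h1.trans ?_
    unfold chQ
    rw [EXB.tI_tr, EXB.glm_eq]
    have h3 : (fun z => scG G r ((Dual.CG H).subtype z)) =
        fun z : Dual.CG H => (Dual.gr G r (z : G) : GLn (LaurentPolynomial (MonoidAlgebra ℤ G)) r) :=
      funext fun z => EXB.scG_gr G r _
    rw [h3]
    rfl
  · change Φ (KB.mk (m + 1) _ r (cl ℚ (m + 2) _ z')) = _
    rw [← h2, hΦ H (Dual.CG H) H.subtype (Dual.CG H).subtype hcomm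
      (Subgroup.subtype_injective H) r X Q hQ,
      hD H hH H (Dual.CG H) _ _ hcomm (MonoidHom.id H) (MonoidHom.id _) (fun _ => rfl)
        (fun _ => rfl), EXB.gr_id, EXB.glm_id, EXB.map_id]
    rfl

end Pool.Agent.FJL
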