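import Pool.Agent.AUK.FJL.St2

/-!
# FJL, module FVB: the values of the functional on the part `t = 1`
-/

set_option autoImplicit false
set_option linter.unusedSectionVars false

open Matrix Pool.Agent.WhK Pool.Agent.Lib25 CategoryTheory Pool.Agent.FJA

noncomputable section

namespace Pool.Agent.FJL

namespace FVB

theorem glm_unit1 {R S : Type} [Ring R] [Ring S] (f : R →+* S) (v : Rˣ) :
    glm f 1 (FJB.unit1 v) = FJB.unit1 (Units.map (f : R →* S) v) := by
  apply Units.ext
  change (Matrix.diagonal fun _ => (v : R)).map f = Matrix.diagonal fun _ => f (v : R)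
  rw [Matrix.diagonal_map (map_zero _)]

end FVB

open FVB in
theorem t_FVB (hQEX : S_QEX) (hQMU : S_QMU) (hQBL : S_QBL) (hQNT : S_QNT) (hQUN : S_QUN)
    (hART : S_ART) : S_FVB := by
  intro m G _ D hD B hB Φ Lb hLb hΦ
  intro C P _ _ _ φ j H hφ r X Q hQ c
  choose q hq using fun (r : ℕ) (X : GLn (MonoidAlgebra ℤ C) r) => hQEX C P G φ j H m r X
  have hQq : Q = q r X := hQ.uniq (hq r X)
  rw [hQq]
  let F : ∀ r : ℕ, GLn (MonoidAlgebra ℤ C) r → ℚ := fun r X => Φ (q r X c) - D C P φ j H r X c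
  have hF : FJB.IsK1 F := by
    constructor
    · intro r X Y
      change Φ (q r (X * Y) c) - D C P φ j H r (X * Y) c = (Φ (q r X c) - D C P φ j H r X c) +
        (Φ (q r Y c) - D C P φ j H r Y c)
      rw [hQMU C P G φ j H m r X Y _ _ _ (hq r X) (hq r Y) (hq r (X * Y)), hD.mul,
        LinearMap.add_apply, LinearMap.add_apply, map_add]
      ring
    · intro a b X Y
      change Φ (q (a + b) (bsumHom (MonoidAlgebra ℤ C) a b (X, Y)) c) -
        D C P φ j H (a + b) (bsumHom (MonoidAlgebra ℤ C) a b (X, Y)) c =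
        (Φ (q a X c) - D C P φ j H a X c) + (Φ (q b Y c) - D C P φ j H b Y c)
      rw [hQBL C P G φ j H m a b X Y _ _ _ (hq a X) (hq b Y) (hq (a + b) _), hD.blk,
        LinearMap.add_apply, LinearMap.add_apply, map_add]
      ring
  have h0 : ∀ (r : ℕ) (X : GLn (MonoidAlgebra ℤ C) r), F r X = 0 := by
    refine hART C F hF (fun C0 hC0 v => ?_)
    obtain ⟨a, ha⟩ := hC0.exists_generator
    let h : G := φ (a : C)
    have hfin : IsOfFinOrder h := φ.isOfFinOrder (isOfFinOrder_of_finite (a : C))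
    have hmem : ∀ x : C0, (φ.comp C0.subtype) x ∈ Subgroup.zpowers h := by
      intro x
      obtain ⟨k, hk⟩ := ha x
      refine ⟨k, ?_⟩
      change φ (a : C) ^ k = φ (x : C)
      rw [← map_zpow, ← hk]
      rfl
    let γ : C0 →* Subgroup.zpowers h := (φ.comp C0.subtype).codRestrict _ hmem
    have hγ : φ.comp C0.subtype = (Subgroup.zpowers h).subtype.comp γ := by
      ext x
      rfl
    have hP : ∀ z : P, j z ∈ Cen h := by
      intro z
      rw [Subgroup.mem_centralizer_singleton_iff]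
      exact H z (a : C)
    let f : P →* Cen h := j.codRestrict _ hP
    have Hh : ∀ (z : Cen h) (c : Subgroup.zpowers h),
        Commute ((Cen h).subtype z) ((Subgroup.zpowers h).subtype c) := by
      rintro z ⟨_, k, rfl⟩
      exact Commute.zpow_right (Subgroup.mem_centralizer_singleton_iff.1 z.2) k
    have H1 : ∀ z c, Commute (j z) ((φ.comp C0.subtype) c) := fun z c => H z (c : C)
    have H2 : ∀ z c, Commute (j z) ((Subgroup.zpowers h).subtype c) := fun z c => Hh (f z) c
    have hfz : Finite (Subgroup.zpowers h) := (finite_zpowers.2 hfin).to_subtype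
    let v' : (MonoidAlgebra ℤ (Subgroup.zpowers h))ˣ :=
      Units.map (gr γ : MonoidAlgebra ℤ C0 →* MonoidAlgebra ℤ (Subgroup.zpowers h)) v
    obtain ⟨Qh, hQh⟩ := hQEX (Subgroup.zpowers h) (Cen h) G (Subgroup.zpowers h).subtype
      (Cen h).subtype Hh m 1 (FJB.unit1 v')
    rw [← glm_unit1 (gr C0.subtype) v]
    have k1 : IsQ m (φ.comp C0.subtype) j 1 (FJB.unit1 v)
        (q 1 (glm (gr C0.subtype) 1 (FJB.unit1 v))) :=
      ((hQNT C P G φ j m 1).2.1 C0 C0.subtype (FJB.unit1 v) _).2 (hq 1 _)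
    rw [hγ] at k1
    have k2 := ((hQNT (Subgroup.zpowers h) P G (Subgroup.zpowers h).subtype j m 1).2.1 C0 γ
      (FJB.unit1 v) _).1 k1
    rw [glm_unit1 (gr γ) v] at k2
    have k3 := (hQNT (Subgroup.zpowers h) (Cen h) G (Subgroup.zpowers h).subtype
      (Cen h).subtype m 1).1 P f j (FJB.unit1 v') Qh _ (fun z => rfl) hQh k2 c
    have k4 := hQUN G m B hB h hfin v' Qh hQh (HQ.map m f c)
    have k5 : Φ (q 1 (glm (gr C0.subtype) 1 (FJB.unit1 v)) c) =
        D (Subgroup.zpowers h) (Cen h) (Subgroup.zpowers h).subtype (Cen h).subtype Hh 1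
          (FJB.unit1 v') (HQ.map m f c) := by
      rw [k3, k4, hΦ, hLb h v' Hh _ hfin]
    have k6 : D C P φ j H 1 (glm (gr C0.subtype) 1 (FJB.unit1 v)) c =
        D (Subgroup.zpowers h) (Cen h) (Subgroup.zpowers h).subtype (Cen h).subtype Hh 1
          (FJB.unit1 v') (HQ.map m f c) := by
      rw [← hD.map C C0 P φ j H C0.subtype (φ.comp C0.subtype) H1 rfl 1 (FJB.unit1 v) c,
        hD.map (Subgroup.zpowers h) C0 P (Subgroup.zpowers h).subtype j H2 γ
          (φ.comp C0.subtype) H1 hγ 1 (FJB.unit1 v) c, glm_unit1 (gr γ) v]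
      exact hD.comp (Subgroup.zpowers h) (Cen h) P (Subgroup.zpowers h).subtype (Cen h).subtype
        Hh f j H2 (fun z => rfl) 1 (FJB.unit1 v') c
    change Φ (q 1 (glm (gr C0.subtype) 1 (FJB.unit1 v)) c) -
      D C P φ j H 1 (glm (gr C0.subtype) 1 (FJB.unit1 v)) c = 0
    rw [k5, k6, sub_self]
  exact sub_eq_zero.1 (h0 r X)

end Pool.Agent.FJL
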