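import Pool.Agent.AUK.FJL.St1

/-!
# FJL, module FVN: functionals on the literal source are determined by the universal classes
-/

set_option autoImplicit false
set_option linter.unusedSectionVars false

open Matrix Pool.Agent.WhK Pool.Agent.Lib25 CategoryTheory Pool.Agent.FJA

noncomputable section

namespace Pool.Agent.FJL

theorem FVN_red {β : Box} {n : ℕ} {G : Type} [Group G] {E : FamA n G} (hE : IsFA E) {C P : Type}
    [Group C] [Group P] [Finite C] (φ : C →* G) (j : P →* G) (H : ∀ z c, Commute (j z) (φ c))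
    (M p : ℕ) (hM : 0 < M) (ψ : Cyc M →* C) (f : P →* Cen ((φ.comp ψ) (gen M)))
    (hf : ∀ z, j z = (Cen ((φ.comp ψ) (gen M))).subtype (f z)) (c : HQ (n + 1) P) :
    E C P φ j H (Km ψ (kap β M p)) c =
      E (Cyc M) (Cen ((φ.comp ψ) (gen M))) (φ.comp ψ) (Cen ((φ.comp ψ) (gen M))).subtype
        (commute_cyc (φ.comp ψ)) (kap β M p) (HQ.map (n + 1) f c) := by
  have : NeZero M := ⟨hM.ne'⟩
  have : Finite (Cyc M) := inferInstanceAs (Finite (Multiplicative (ZMod M)))
  have H' : ∀ z c, Commute (j z) ((φ.comp ψ) c) := fun z c => H z (ψ c)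
  rw [← hE.map C (Cyc M) P φ j H ψ (φ.comp ψ) H' rfl (kap β M p) c]
  exact hE.comp (Cyc M) (Cen ((φ.comp ψ) (gen M))) P (φ.comp ψ) _ (commute_cyc (φ.comp ψ)) f j H'
    hf (kap β M p) c

theorem t_FVN : S_FVN := by
  intro β hGN n G _ E1 E2 hE1 hE2 hu C P _ _ _ φ j H hφ x c
  let l : KNegOne (MonoidAlgebra ℤ C) →+ ℚ :=
    { toFun := fun x => E1 C P φ j H x c - E2 C P φ j H x c
      map_zero' := by rw [map_zero, map_zero, LinearMap.zero_apply, sub_self]
      map_add' := fun x y => by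
        rw [map_add, map_add, LinearMap.add_apply, LinearMap.add_apply]
        ring }
  have hl : l = 0 := by
    apply hGN C l
    intro M hM p hp hpM ψ hψ
    have hM0 : 0 < M := by omega
    have hmem : ∀ z : P, j z ∈ Cen ((φ.comp ψ) (gen M)) := by
      intro z
      rw [Subgroup.mem_centralizer_singleton_iff]
      exact H z (ψ (gen M))
    let f : P →* Cen ((φ.comp ψ) (gen M)) := j.codRestrict _ hmem
    change E1 C P φ j H (Km ψ (kap β M p)) c - E2 C P φ j H (Km ψ (kap β M p)) c = 0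
    rw [FVN_red hE1 φ j H M p hM0 ψ f (fun z => rfl) c,
      FVN_red hE2 φ j H M p hM0 ψ f (fun z => rfl) c,
      hu M p (φ.comp ψ) _ hM0 hp hpM (hφ.comp hψ), sub_self]
  have h1 : l x = 0 := by rw [hl, AddMonoidHom.zero_apply]
  exact sub_eq_zero.1 h1

end Pool.Agent.FJL
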