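import Pool.Agent.AUK.FJL.St2

/-!
# FJL_LMB: the functional on `Src1 m G` attached to a family of functionals
-/

set_option autoImplicit false
set_option linter.unusedSectionVars false

open Matrix Pool.Agent.WhK Pool.Agent.Lib25 CategoryTheory Pool.Agent.FJA

noncomputable section

namespace Pool.Agent.FJL

namespace LMB

section Um

variable {C C' G : Type} [Group C] [Group C'] [Group G]

/-- The map of the groups of units. -/
def um (φ : C →* G) : (MonoidAlgebra ℤ C)ˣ →* (MonoidAlgebra ℤ G)ˣ :=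
  Units.map (gr φ : MonoidAlgebra ℤ C →* MonoidAlgebra ℤ G)

theorem um_inj {φ : C →* G} (hφ : Function.Injective φ) : Function.Injective (um φ) := by
  intro u v h
  apply Units.ext
  have h1 : gr φ u.val = gr φ v.val := congrArg Units.val h
  exact MonoidAlgebra.mapDomain_injective hφ h1

theorem um_um (φ : C →* G) (α : C' →* C) (u : (MonoidAlgebra ℤ C')ˣ) :
    um φ (um α u) = um (φ.comp α) u := by
  apply Units.ext
  change gr φ (gr α u.val) = gr (φ.comp α) u.val
  rw [gr_comp]
  rfl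

theorem unit1_um (α : C' →* C) (v : (MonoidAlgebra ℤ C')ˣ) :
    FJB.unit1 (um α v) = glm (gr α) 1 (FJB.unit1 v) := by
  apply Units.ext
  change (Matrix.diagonal fun _ => gr α v.val) =
    (Matrix.diagonal fun _ => v.val).map (gr α)
  rw [Matrix.diagonal_map (map_zero _)]

end Um

variable {m : ℕ} {G : Type} [Group G]

theorem cenz (h : G) : ∀ (z : Cen h) (c : Subgroup.zpowers h),
    Commute ((Cen h).subtype z) ((Subgroup.zpowers h).subtype c) :=
  fun z c => AS1.cen_zpow z.2 c.2

/-- The functional attached to a unit of `ℤ[⟨h⟩]`. -/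
def V (D : FamB m G) (h : G) (v : (MonoidAlgebra ℤ (Subgroup.zpowers h))ˣ) :
    HQ m (Cen h) →ₗ[ℚ] ℚ :=
  D (Subgroup.zpowers h) (Cen h) (Subgroup.zpowers h).subtype (Cen h).subtype (cenz h) 1
    (FJB.unit1 v)

theorem V_mul {D : FamB m G} (hD : IsFB D) (h : G) [Finite (Subgroup.zpowers h)]
    (v w : (MonoidAlgebra ℤ (Subgroup.zpowers h))ˣ) : V D h (v * w) = V D h v + V D h w := by
  unfold V
  rw [map_mul]
  exact hD.mul _ _ _ _ _ _ _ _

theorem V_trans {D : FamB m G} (hD : IsFB D) {h h' x : G} [Finite (Subgroup.zpowers h)]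
    [Finite (Subgroup.zpowers h')] (α : Subgroup.zpowers h' →* Subgroup.zpowers h)
    (hα : ∀ a, (α a : G) = x⁻¹ * a * x) (κ : Cen h →* Cen h')
    (hκ : ∀ z, (κ z : G) = x * z * x⁻¹) (v : (MonoidAlgebra ℤ (Subgroup.zpowers h'))ˣ)
    (c : HQ m (Cen h)) : V D h' v (HQ.map m κ c) = V D h (um α v) c := by
  have H1 : ∀ (z : Cen h) (c : Subgroup.zpowers h'),
      Commute (((Cen h').subtype.comp κ) z) ((Subgroup.zpowers h').subtype c) :=
    fun z c => cenz h' (κ z) c
  have H2 : ∀ (z : Cen h) (c : Subgroup.zpowers h'),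
      Commute ((Cen h).subtype z) (((Subgroup.zpowers h).subtype.comp α) c) :=
    fun z c => cenz h z (α c)
  have e1 := hD.comp (Subgroup.zpowers h') (Cen h') (Cen h) (Subgroup.zpowers h').subtype
    (Cen h').subtype (cenz h') κ ((Cen h').subtype.comp κ) H1 (fun _ => rfl) 1 (FJB.unit1 v) c
  have e2 := hD.map (Subgroup.zpowers h) (Subgroup.zpowers h') (Cen h)
    (Subgroup.zpowers h).subtype (Cen h).subtype (cenz h) α
    ((Subgroup.zpowers h).subtype.comp α) H2 rfl 1 (FJB.unit1 v) c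
  have e3 := hD.conj (Subgroup.zpowers h') (Cen h) ((Subgroup.zpowers h).subtype.comp α)
    (Subgroup.zpowers h').subtype (Cen h).subtype ((Cen h').subtype.comp κ) H2 H1 x
    (fun c => by
      change (c : G) = x * (α c : G) * x⁻¹
      rw [hα]
      group)
    (fun z => hκ z) 1 (FJB.unit1 v) c
  unfold V
  rw [unit1_um, ← e2, ← e1]
  exact e3

theorem exU {h : G} {u : (MonoidAlgebra ℤ G)ˣ} (hu : Adm1 h u) :
    ∃ v, um (Subgroup.zpowers h).subtype v = u := hu.2

theorem adm {h : G} (hf : IsOfFinOrder h) (v : (MonoidAlgebra ℤ (Subgroup.zpowers h))ˣ) :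
    Adm1 h (um (Subgroup.zpowers h).subtype v) := ⟨hf, ⟨v, rfl⟩⟩

open Classical in
/-- The functional attached to a unit of `ℤ[G]`. -/
def W (D : FamB m G) (h : G) (u : (MonoidAlgebra ℤ G)ˣ) : HQ m (Cen h) →ₗ[ℚ] ℚ :=
  if hu : Adm1 h u then V D h (Classical.choose (exU hu)) else 0

theorem W_um (D : FamB m G) {h : G} (hf : IsOfFinOrder h)
    (v : (MonoidAlgebra ℤ (Subgroup.zpowers h))ˣ) :
    W D h (um (Subgroup.zpowers h).subtype v) = V D h v := by
  unfold W
  rw [dif_pos (adm hf v)]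
  have h1 := Classical.choose_spec (exU (adm hf v))
  rw [um_inj (Subgroup.subtype_injective _) h1]

theorem W_not (D : FamB m G) {h : G} {u : (MonoidAlgebra ℤ G)ˣ} (hu : ¬ Adm1 h u) :
    W D h u = 0 := by
  unfold W
  rw [dif_neg hu]

theorem W_mul {D : FamB m G} (hD : IsFB D) {h : G} {u v : (MonoidAlgebra ℤ G)ˣ} (hu : Adm1 h u)
    (hv : Adm1 h v) : W D h (u * v) = W D h u + W D h v := by
  have : Finite (Subgroup.zpowers h) := finite_zpowers.2 hu.1
  obtain ⟨u, rfl⟩ := exU hu
  obtain ⟨v, rfl⟩ := exU hv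
  rw [← map_mul, W_um D hu.1, W_um D hu.1, W_um D hu.1, V_mul hD]

theorem conj_gr {h h' x : G} (α : Subgroup.zpowers h' →* Subgroup.zpowers h)
    (hα : ∀ a, (α a : G) = x⁻¹ * a * x) (v : (MonoidAlgebra ℤ (Subgroup.zpowers h'))ˣ) :
    um (Subgroup.zpowers h).subtype (um α v) =
      gU G x⁻¹ * um (Subgroup.zpowers h').subtype v * gU G x := by
  apply Units.ext
  change gr (Subgroup.zpowers h).subtype (gr α v.val) =
    MonoidAlgebra.of ℤ G x⁻¹ * gr (Subgroup.zpowers h').subtype v.val * MonoidAlgebra.of ℤ G x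
  have key : ∀ w : MonoidAlgebra ℤ (Subgroup.zpowers h'),
      gr (Subgroup.zpowers h).subtype (gr α w) =
      MonoidAlgebra.of ℤ G x⁻¹ * gr (Subgroup.zpowers h').subtype w * MonoidAlgebra.of ℤ G x := by
    intro w
    induction w using MonoidAlgebra.induction_on with
    | of c =>
      rw [gr_of, gr_of, gr_of, ← map_mul, ← map_mul]
      exact congrArg (MonoidAlgebra.of ℤ G) (hα c)
    | add a b ha hb => rw [map_add, map_add, map_add, mul_add, add_mul, ha, hb]
    | smul r a ha => rw [map_zsmul, map_zsmul, map_zsmul, mul_smul_comm, smul_mul_assoc, ha]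
  exact key v.val

theorem W_trans {D : FamB m G} (hD : IsFB D) {h h' x : G} (hf : IsOfFinOrder h)
    (hz : ∀ a ∈ Subgroup.zpowers h', x⁻¹ * a * x ∈ Subgroup.zpowers h) (κ : Cen h →* Cen h')
    (hκ : ∀ z, (κ z : G) = x * z * x⁻¹) {u : (MonoidAlgebra ℤ G)ˣ} (hu : Adm1 h' u)
    (c : HQ m (Cen h)) :
    W D h' u (HQ.map m κ c) = W D h (gU G x⁻¹ * u * gU G x) c := by
  have : Finite (Subgroup.zpowers h) := finite_zpowers.2 hf
  have : Finite (Subgroup.zpowers h') := finite_zpowers.2 hu.1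
  let α : Subgroup.zpowers h' →* Subgroup.zpowers h :=
    { toFun := fun a => ⟨x⁻¹ * a * x, hz a a.2⟩
      map_one' := by
        apply Subtype.ext
        simp
      map_mul' := fun a b => by
        apply Subtype.ext
        simp [mul_assoc] }
  have hα : ∀ a, (α a : G) = x⁻¹ * a * x := fun a => rfl
  obtain ⟨v, rfl⟩ := exU hu
  rw [← conj_gr α hα v, W_um D hu.1, W_um D hf, V_trans hD α hα κ hκ]

/-- A generator of a cyclic group. -/
theorem exists_inj {h : G} (hf : IsOfFinOrder h) (h1 : h ≠ 1) :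
    ∃ (N : ℕ) (φ : Cyc N →* G), 1 < N ∧ Function.Injective φ ∧ φ (gen N) = h := by
  have hpos : 0 < orderOf h := orderOf_pos_iff.2 hf
  have hNe : NeZero (orderOf h) := ⟨hpos.ne'⟩
  obtain ⟨φ, hφ⟩ := exists_cyc (N := orderOf h) h (pow_orderOf_eq_one h)
  refine ⟨orderOf h, φ, ?_, ?_, hφ⟩
  · have h2 : orderOf h ≠ 1 := fun h => h1 (orderOf_eq_one_iff.1 h)
    omega
  · intro a b hab
    have h1 : φ (a * b⁻¹) = 1 := by rw [map_mul, map_inv, hab, mul_inv_cancel]
    have h2 := cyc_eq_pow (a * b⁻¹)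
    rw [h2, map_pow, hφ] at h1
    have h3 := orderOf_dvd_of_pow_eq_one h1
    have h4 := Nat.eq_zero_of_dvd_of_lt h3 (ZMod.val_lt _)
    rw [h4, pow_zero] at h2
    exact mul_inv_eq_one.1 h2

/-- Undetected classes. -/
theorem V_und {D : FamB m G} (hD : IsFB D) (hdet : DetB D) {h : G} (hf : IsOfFinOrder h)
    (h1 : h ≠ 1) (v : (MonoidAlgebra ℤ (Subgroup.zpowers h))ˣ) (c : HQ m (Cen h))
    (hc : Und m (Cen h) c) : V D h v c = 0 := by
  obtain ⟨N, φ, hN, hinj, rfl⟩ := exists_inj hf h1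
  have hNe : NeZero N := ⟨by omega⟩
  have hfin : Finite (Subgroup.zpowers (φ (gen N))) := finite_zpowers.2 hf
  have hmem : ∀ a, φ a ∈ Subgroup.zpowers (φ (gen N)) := fun a => by
    rw [cyc_eq_pow a, map_pow]
    exact Subgroup.pow_mem _ (Subgroup.mem_zpowers _) _
  let α : Cyc N →* Subgroup.zpowers (φ (gen N)) := φ.codRestrict _ hmem
  have hbij : Function.Bijective α := by
    refine ⟨fun a b hab => hinj (congrArg Subtype.val hab), ?_⟩
    rintro ⟨_, k, rfl⟩
    refine ⟨gen N ^ k, Subtype.ext ?_⟩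
    change φ (gen N ^ k) = φ (gen N) ^ k
    rw [map_zpow]
  let e : Cyc N ≃* Subgroup.zpowers (φ (gen N)) := MulEquiv.ofBijective α hbij
  have hv : um α (um e.symm.toMonoidHom v) = v := by
    rw [um_um]
    have h2 : α.comp e.symm.toMonoidHom = MonoidHom.id _ := by
      apply MonoidHom.ext
      intro y
      exact e.apply_symm_apply y
    rw [h2]
    apply Units.ext
    change gr (MonoidHom.id _) v.val = v.val
    generalize v.val = w
    induction w using MonoidAlgebra.induction_on with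
    | of c => rw [gr_of]; rfl
    | add a b ha hb => rw [map_add, ha, hb]
    | smul r a ha => rw [map_zsmul, ha]
  have : Finite (Cyc N) := Finite.of_equiv _ e.symm.toEquiv
  have e2 := hD.map (Subgroup.zpowers (φ (gen N))) (Cyc N) (Cen (φ (gen N)))
    (Subgroup.zpowers (φ (gen N))).subtype (Cen (φ (gen N))).subtype (cenz (φ (gen N))) α φ
    (commute_cyc φ) rfl 1 (FJB.unit1 (um e.symm.toMonoidHom v)) c
  rw [← unit1_um, hv, hdet N hN φ hinj 1 _ c hc] at e2
  exact e2.symm

end LMB

open LMB in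
theorem t_LMB : S_LMB := by
  classical
  intro m G _ D hD hdet
  let A0 : (Sym1 m G →₀ ℚ) →ₗ[ℚ] ℚ :=
    Finsupp.linearCombination ℚ (fun s => W D s.h s.u s.c)
  have hA0 : ∀ (h : G) (c : HQ m (Cen h)) (u : (MonoidAlgebra ℤ G)ˣ),
      A0 (sg1 h c u) = W D h u c := by
    intro h c u
    unfold sg1
    exact (Finsupp.linearCombination_single ℚ _ _).trans (one_smul _ _)
  have hrel : ∀ x, Rel1 m G x → A0 x = 0 := by
    intro x hx
    cases hx with
    | invalid h c u hv => rw [hA0, W_not D hv, LinearMap.zero_apply]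
    | add h c c' u => rw [map_sub, map_sub, hA0, hA0, hA0, map_add]; ring
    | smul h q c u => rw [map_sub, map_smul, hA0, hA0, map_smul, sub_self]
    | mul h c u v hu hv =>
      rw [map_sub, map_sub, hA0, hA0, hA0, W_mul hD hu hv, LinearMap.add_apply]
      ring
    | conj h x c u =>
      rw [map_sub, hA0, hA0, sub_eq_zero]
      by_cases hv : Adm1 h u
      swap
      · rw [W_not D hv, W_not D (fun H => hv ((AS1.adm1_conj_iff x).1 H))]
        rfl
      · have hz : ∀ a ∈ Subgroup.zpowers (x * h * x⁻¹), x⁻¹ * a * x ∈ Subgroup.zpowers h := by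
          rintro _ ⟨k, rfl⟩
          refine ⟨k, ?_⟩
          change h ^ k = x⁻¹ * (x * h * x⁻¹) ^ k * x
          rw [conj_zpow]
          group
        rw [W_trans hD hv.1 hz (cHom x (cHom_conj x h)) (fun z => rfl)
          ((AS1.adm1_conj_iff x).2 hv) c]
        congr 1
        have h3 : gU G x⁻¹ * (gU G x * u * (gU G x)⁻¹) * gU G x = u := by
          rw [map_inv]
          group
        rw [h3]
    | res h h' hh c u hf hv =>
      rw [map_sub, hA0, hA0, sub_eq_zero]
      have hz : ∀ a ∈ Subgroup.zpowers h', (1 : G)⁻¹ * a * 1 ∈ Subgroup.zpowers h := by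
        intro a ha
        rw [inv_one, one_mul, mul_one]
        exact (Subgroup.zpowers_le.2 hh) ha
      rw [W_trans hD hf hz (cHom 1 (cHom_pow h hh)) (fun z => rfl) hv c]
      rw [inv_one, map_one, one_mul, mul_one]
  have hle : RelT m G ≤ LinearMap.ker A0 := by
    unfold RelT
    rw [Submodule.span_le]
    intro x hx
    exact hrel x hx
  let Lb : Src1 m G →ₗ[ℚ] ℚ := (RelT m G).liftQ A0 hle
  have hLb : ∀ (h : G) (c : HQ m (Cen h)) (u : (MonoidAlgebra ℤ G)ˣ),
      Lb (sym1 h c u) = W D h u c := fun h c u => hA0 h c u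
  refine ⟨Lb, ?_, ?_⟩
  · intro h v H c hf
    rw [hLb]
    exact LinearMap.congr_fun (W_um D hf v) c
  · intro y hy
    induction hy using Submodule.span_induction with
    | mem y h =>
      obtain ⟨h, c, u, hf, h1, hc, rfl⟩ := h
      rw [hLb]
      by_cases hu : Adm1 h u
      · obtain ⟨v, rfl⟩ := exU hu
        rw [W_um D hf, V_und hD hdet hf h1 v c hc]
      · rw [W_not D hu, LinearMap.zero_apply]
    | zero => rw [map_zero]
    | add x y _ _ hx hy => rw [map_add, hx, hy, add_zero]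
    | smul a x _ hx => rw [map_smul, hx, smul_zero]

end Pool.Agent.FJL
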