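import Pool.Agent.AUK.FJL.St1

/-!
# FJL, module LZ0: the functional on the source of `C × ℤ` attached to an admissible function
-/

set_option autoImplicit false
set_option linter.unusedSectionVars false

open Matrix Pool.Agent.WhK Pool.Agent.Lib25 CategoryTheory Pool.Agent.FJA

noncomputable section

namespace Pool.Agent.FJL

namespace LZ0

variable {C : Type} [Group C]

/-- the homomorphism to `ℤ` -/
abbrev chi (h : C × Multiplicative ℤ) : Cen h →* Multiplicative ℤ :=
  (MonoidHom.snd C (Multiplicative ℤ)).comp (Cen h).subtype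

theorem snd_one {h : C × Multiplicative ℤ} (hh : IsOfFinOrder h) : h.2 = 1 := by
  have h1 : IsOfFinOrder h.2 := by
    have := (MonoidHom.snd C (Multiplicative ℤ)).isOfFinOrder hh
    exact this
  exact (isOfFinOrder_iff_eq_one _).1 h1

theorem orderOf_fst {h : C × Multiplicative ℤ} (hh : IsOfFinOrder h) :
    orderOf h = orderOf h.1 := by
  rw [Prod.orderOf, snd_one hh, orderOf_one, Nat.lcm_one_right]

theorem chi_conj (x h : C × Multiplicative ℤ) :
    (chi (x * h * x⁻¹)).comp (cHom x (cHom_conj x h)) = chi h := by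
  ext z
  change (x * (z : C × Multiplicative ℤ) * x⁻¹).2 = (z : C × Multiplicative ℤ).2
  rw [Prod.snd_mul, Prod.snd_mul, Prod.snd_inv, mul_comm x.2, mul_assoc, mul_inv_cancel, mul_one]

theorem chi_pow (h : C × Multiplicative ℤ) {h' : C × Multiplicative ℤ}
    (hh : h' ∈ Subgroup.zpowers h) : (chi h').comp (cHom 1 (cHom_pow h hh)) = chi h := by
  ext z
  change ((1 : C × Multiplicative ℤ) * (z : C × Multiplicative ℤ) * 1⁻¹).2 =
    (z : C × Multiplicative ℤ).2
  rw [one_mul, inv_one, mul_one]

end LZ0

open LZ0 in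
theorem t_LZ0 : S_LZ0 := by
  classical
  intro C _ L hL
  let A0 : (Sym 0 (C × Multiplicative ℤ) →₀ ℚ) →ₗ[ℚ] ℚ :=
    Finsupp.linearCombination ℚ (fun s => if Adm s.p s.h then L s.p s.h.1 * dg (chi s.h) s.c else 0)
  have hA0 : ∀ (p : ℕ) (h : C × Multiplicative ℤ) (c : HQ (0 + 1) (Cen h)),
      A0 (sg p h c) = if Adm p h then L p h.1 * dg (chi h) c else 0 := by
    intro p h c
    unfold sg
    exact (Finsupp.linearCombination_single ℚ _ _).trans (one_smul _ _)
  have hrel : ∀ x, Rel 0 (C × Multiplicative ℤ) x → A0 x = 0 := by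
    intro x hx
    cases hx with
    | invalid p h c hv => rw [hA0, if_neg hv]
    | add p h c c' =>
      rw [map_sub, map_sub, hA0, hA0, hA0]
      by_cases hv : Adm p h
      · rw [if_pos hv, if_pos hv, if_pos hv, map_add]
        ring
      · rw [if_neg hv, if_neg hv, if_neg hv]
        ring
    | smul p h q c =>
      rw [map_sub, map_smul, hA0, hA0]
      by_cases hv : Adm p h
      · rw [if_pos hv, if_pos hv, map_smul, smul_eq_mul, smul_eq_mul]
        ring
      · rw [if_neg hv, if_neg hv, smul_zero, sub_zero]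
    | conj p h x c =>
      rw [map_sub, hA0, hA0, sub_eq_zero]
      by_cases hv : Adm p h
      · rw [if_pos hv, if_pos ((adm_iff_conj x).2 hv), dg_map, chi_conj]
        congr 1
        change L p (x.1 * h.1 * x.1⁻¹) = _
        exact hL.conj p h.1 x.1
      · rw [if_neg hv, if_neg (fun H => hv ((adm_iff_conj x).1 H))]
    | frob p h h' hh j k c hv hz hpw =>
      have hzz : Subgroup.zpowers h = Subgroup.zpowers h' := by
        apply le_antisymm
        · rwa [Subgroup.zpowers_le]
        · rwa [Subgroup.zpowers_le]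
      have hpos : 0 < orderOf h := orderOf_pos_iff.2 hv.2.1
      have hord' : orderOf h' = orderOf h := by
        rw [← Nat.card_zpowers, ← hzz, Nat.card_zpowers]
      have hv' : Adm p h' := ⟨hv.1, by rw [← orderOf_pos_iff, hord']; exact hpos,
        by rw [hord']; exact hv.2.2⟩
      rw [map_sub, hA0, hA0, sub_eq_zero, if_pos hv, if_pos hv', dg_map, chi_pow h hh]
      congr 1
      refine (hL.frob p h.1 h'.1 j k ?_ ?_).symm
      · have h1 := congrArg (Subgroup.map (MonoidHom.fst C (Multiplicative ℤ))) hzz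
        rw [MonoidHom.map_zpowers, MonoidHom.map_zpowers] at h1
        exact h1
      · exact congrArg Prod.fst hpw
    | sum h c hfin =>
      rw [map_sum]
      have h1 : ∀ p ∈ (orderOf h).primeFactors,
          A0 (∑ a ∈ (Finset.range (orderOf h)).filter (fun a => a.Coprime (orderOf h)),
            sg p (h ^ a) (HQ.map (0 + 1) (cHom 1 (cHom_pow h (Subgroup.pow_mem _
              (Subgroup.mem_zpowers h) a))) c)) =
          (∑ a ∈ (Finset.range (orderOf h)).filter (fun a => a.Coprime (orderOf h)),
            L p (h.1 ^ a)) * dg (chi h) c := by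
        intro p hp
        rw [map_sum, Finset.sum_mul]
        refine Finset.sum_congr rfl fun a ha => ?_
        rw [Finset.mem_filter] at ha
        have hord : orderOf (h ^ a) = orderOf h := (Nat.Coprime.orderOf_pow ha.2.symm)
        have hv : Adm p (h ^ a) := ⟨Nat.prime_of_mem_primeFactors hp, hfin.pow,
          by rw [hord]; exact Nat.dvd_of_mem_primeFactors hp⟩
        rw [hA0, if_pos hv, dg_map, chi_pow h (Subgroup.pow_mem _ (Subgroup.mem_zpowers h) a)]
        rfl
      rw [Finset.sum_congr rfl h1, ← Finset.sum_mul]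
      have h2 := hL.sum h.1 (orderOf_pos_iff.1 (by
        rw [← orderOf_fst hfin]; exact orderOf_pos_iff.2 hfin))
      rw [← orderOf_fst hfin] at h2
      rw [h2, zero_mul]
  have hle : Submodule.span ℚ {x | Rel 0 (C × Multiplicative ℤ) x} ≤ LinearMap.ker A0 := by
    rw [Submodule.span_le]
    intro x hx
    exact hrel x hx
  let La : Src 0 (C × Multiplicative ℤ) →ₗ[ℚ] ℚ :=
    (Submodule.span ℚ {x | Rel 0 (C × Multiplicative ℤ) x}).liftQ A0 hle
  have hLa : ∀ (p : ℕ) (h : C × Multiplicative ℤ) (c : HQ (0 + 1) (Cen h)),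
      La (sym p h c) = if Adm p h then L p h.1 * dg (chi h) c else 0 := fun p h c => hA0 p h c
  refine ⟨La, ?_, ?_⟩
  · intro p h c hv
    rw [hLa p h c, if_pos hv]
  · intro x hx
    unfold UN at hx
    induction hx using Submodule.span_induction with
    | mem x hx =>
      obtain ⟨p, h, c, hf, h1, hc, rfl⟩ := hx
      rw [hLa p h c]
      by_cases hv : Adm p h
      · rw [if_pos hv, dg_und _ c hc, mul_zero]
      · rw [if_neg hv]
    | zero => rw [map_zero]
    | add a b _ _ ha hb => rw [map_add, ha, hb, add_zero]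
    | smul q a _ ha => rw [map_smul, ha, smul_zero]

end Pool.Agent.FJL
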