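import Pool.Agent.AUK.FJL.St3

set_option autoImplicit false
set_option linter.unusedSectionVars false

open Matrix Pool.Agent.WhK Pool.Agent.Lib25 CategoryTheory Pool.Agent.FJA

noncomputable section

namespace Pool.Agent.FJL

namespace NTP

variable {C G G' P : Type} [Group C] [Group G] [Group G'] [Group P]

theorem mapL_gr_comp (ι : G →* G') (φ : C →* G) (x : LaurentPolynomial (MonoidAlgebra ℤ C)) :
    mapL (gr ι) (mapL (gr φ) x) = mapL (gr (ι.comp φ)) x := by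
  rw [mapL_mapL, gr_comp]

theorem mapL_cu (ι : G →* G') (j : P →* G) (z : P) :
    mapL (gr ι) (cu ((MonoidAlgebra.of ℤ G).comp j) z) =
      cu ((MonoidAlgebra.of ℤ G').comp (ι.comp j)) z := by
  change mapL (gr ι) (AddMonoidAlgebra.single 0 (MonoidAlgebra.of ℤ G (j z))) =
    AddMonoidAlgebra.single 0 (MonoidAlgebra.of ℤ G' (ι (j z)))
  rw [mapL_single, gr_of]

theorem glm_rhoG (ι : G →* G') (φ : C →* G) (j : P →* G)
    (H : ∀ z c, Commute (j z) (φ c)) (H' : ∀ z c, Commute (ι.comp j z) (ι.comp φ c))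
    (e : IdemMat (LaurentPolynomial (MonoidAlgebra ℤ C))) :
    (glm (mapL (gr ι)) e.n).comp
      (rhoG (mapL (gr φ)) (cu ((MonoidAlgebra.of ℤ G).comp j)) (comm_cu (comm_of H)) e) =
      rhoG (mapL (gr (ι.comp φ))) (cu ((MonoidAlgebra.of ℤ G').comp (ι.comp j)))
        (comm_cu (comm_of H')) e := by
  refine MonoidHom.ext fun z => ?_
  apply Units.ext
  change (rhoMat (e.mat.map (mapL (gr φ))) (cu ((MonoidAlgebra.of ℤ G).comp j) z)).map
      (mapL (gr ι)) =
    rhoMat (e.mat.map (mapL (gr (ι.comp φ)))) (cu ((MonoidAlgebra.of ℤ G').comp (ι.comp j)) z)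
  rw [rhoMat_map, mapL_cu]
  congr 1
  ext1 i k
  exact mapL_gr_comp ι φ _

theorem glm_gl1 (ι : G →* G') :
    (glm (mapL (gr ι)) 1).comp (gl1 mon) =
      (gl1 mon).comp (MonoidHom.prodMap ι (MonoidHom.id (Multiplicative ℤ))) := by
  refine MonoidHom.ext fun z => ?_
  apply Units.ext
  change ((Matrix.diagonal fun _ => (mon z : LaurentPolynomial (MonoidAlgebra ℤ G)) :
      Matrix (Fin 1) (Fin 1) (LaurentPolynomial (MonoidAlgebra ℤ G)))).map (mapL (gr ι)) =
    (Matrix.diagonal fun _ => mon (MonoidHom.prodMap ι (MonoidHom.id (Multiplicative ℤ)) z) :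
      Matrix (Fin 1) (Fin 1) (LaurentPolynomial (MonoidAlgebra ℤ G')))
  rw [Matrix.diagonal_map (map_zero _)]
  congr 1
  funext _
  change mapL (gr ι) (AddMonoidAlgebra.single (Multiplicative.toAdd z.2)
      (MonoidAlgebra.of ℤ G z.1)) =
    AddMonoidAlgebra.single (Multiplicative.toAdd z.2) (MonoidAlgebra.of ℤ G' (ι z.1))
  rw [mapL_single, gr_of]

end NTP

theorem t_NTP : S_NTP := by
  intro n G G' _ _ ι M hM
  refine ⟨?_, ?_⟩
  · intro C P _ _ φ j H H' x c
    obtain ⟨e, rfl⟩ := KNegOne.exists_of x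
    rw [pG_of, pG_of, hM, ← HQ.map_comp]
    exact congrArg (fun ρ : P →* GLn (LaurentPolynomial (MonoidAlgebra ℤ G')) e.n =>
      KB.mk n (MonoidAlgebra ℤ G') e.n (HQ.map (n + 1) ρ c)) (NTP.glm_rhoG ι φ j H H' e)
  · intro a
    change M (KB.mk n (MonoidAlgebra ℤ G) 1 (HQ.map (n + 1) (gl1 mon) a)) =
      KB.mk n (MonoidAlgebra ℤ G') 1 (HQ.map (n + 1) (gl1 mon) (HQ.map (n + 1)
        (MonoidHom.prodMap ι (MonoidHom.id (Multiplicative ℤ))) a))
    rw [hM, ← HQ.map_comp, ← HQ.map_comp]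
    exact congrArg (fun ρ : G × Multiplicative ℤ →* GLn (LaurentPolynomial (MonoidAlgebra ℤ G')) 1 =>
      KB.mk n (MonoidAlgebra ℤ G') 1 (HQ.map (n + 1) ρ a)) (NTP.glm_gl1 ι)

end Pool.Agent.FJL
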