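import Pool.Agent.AUK.FJL.P_QEX

/-!
# FJL_QBL: the product is additive on block sums
-/

set_option autoImplicit false

open Matrix Pool.Agent.WhK Pool.Agent.Lib25 CategoryTheory Pool.Agent.FJA

noncomputable section

namespace Pool.Agent.FJL

/-- The map `Q` in terms of the two products. -/
theorem QBL_eq {C P G : Type} [Group C] [Group P] [Group G] {φ : C →* G} {j : P →* G} {m r : ℕ}
    {X : GLn (MonoidAlgebra ℤ C) r} {Q : HQ m P →ₗ[ℚ] KB (m + 1) (MonoidAlgebra ℤ G)}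
    (h : IsQ m φ j r X Q)
    {X1 : Hk ℚ m P →ₗ[ℚ] Hk ℚ (m + 1) (GLn (LaurentPolynomial (MonoidAlgebra ℤ G)) r)}
    {X2 : Hk ℚ (m + 1) (GLn (LaurentPolynomial (MonoidAlgebra ℤ G)) r) →ₗ[ℚ]
      Hk ℚ (m + 2) (GLn (LaurentPolynomial (MonoidAlgebra ℤ G)) r)}
    (h1 : FJB.WHX.IsCr m ((scG G r).comp j) (glm ((cst (MonoidAlgebra ℤ G)).comp (gr φ)) r X) X1)
    (h2 : FJB.WHX.IsCr (m + 1) (MonoidHom.id (GLn (LaurentPolynomial (MonoidAlgebra ℤ G)) r))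
      (FJB.WHX.tI (MonoidAlgebra ℤ G) r) X2) (c : HQ m P) :
    Q c = KB.mk (m + 1) (MonoidAlgebra ℤ G) r (X2 (X1 c)) := by
  have h3 : IsQ m φ j r X (KB.mk (m + 1) _ r ∘ₗ X2 ∘ₗ X1) := by
    intro z
    obtain ⟨z1, h3, h4⟩ := h1 z
    obtain ⟨z', h5, h6⟩ := h2 z1
    refine ⟨z', ?_, ?_⟩
    · rw [h5, h3]
      exact congrArg (insL (m + 1) (FJB.WHX.tI (MonoidAlgebra ℤ G) r)) (IC.map_id (m + 1) _)
    · rw [LinearMap.comp_apply, LinearMap.comp_apply, h4, h6]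
  rw [h.uniq h3]
  rfl

theorem QBL_sc (G : Type) [Group G] (a b : ℕ) (g : G) :
    bsumHom (LaurentPolynomial (MonoidAlgebra ℤ G)) a b (scG G a g, scG G b g) =
      scG G (a + b) g := by
  apply Units.ext
  change bsum (Matrix.diagonal fun _ => elt g) (Matrix.diagonal fun _ => elt g) =
      Matrix.diagonal fun _ => elt g
  unfold bsum
  rw [Matrix.fromBlocks_diagonal, Matrix.submatrix_diagonal_equiv]
  congr 1
  funext i
  change Sum.elim (fun _ => elt g) (fun _ => elt g) (finSumFinEquiv.symm i) = elt g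
  cases finSumFinEquiv.symm i <;> rfl

theorem t_QBL : S_QBL := by
  intro C P G _ _ _ φ j H m a b X Y Q1 Q2 Q3 hQ1 hQ2 hQ3
  let S := LaurentPolynomial (MonoidAlgebra ℤ G)
  let ψ : MonoidAlgebra ℤ C →+* S := (cst (MonoidAlgebra ℤ G)).comp (gr φ)
  obtain ⟨A1, hA1⟩ := FJB.WHX.exists_isCr m ((scG G a).comp j) (glm ψ a X) (QEX_comm φ j H a X)
  obtain ⟨A2, hA2⟩ := FJB.WHX.exists_isCr (m + 1) (MonoidHom.id (GLn S a))
    (FJB.WHX.tI (MonoidAlgebra ℤ G) a) (fun z => FJB.WHX.tI_comm a _)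
  obtain ⟨B1, hB1⟩ := FJB.WHX.exists_isCr m ((scG G b).comp j) (glm ψ b Y) (QEX_comm φ j H b Y)
  obtain ⟨B2, hB2⟩ := FJB.WHX.exists_isCr (m + 1) (MonoidHom.id (GLn S b))
    (FJB.WHX.tI (MonoidAlgebra ℤ G) b) (fun z => FJB.WHX.tI_comm b _)
  obtain ⟨C1, hC1⟩ := FJB.WHX.exists_isCr m ((scG G (a + b)).comp j)
    (glm ψ (a + b) (bsumHom (MonoidAlgebra ℤ C) a b (X, Y)))
    (QEX_comm φ j H (a + b) (bsumHom (MonoidAlgebra ℤ C) a b (X, Y)))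
  obtain ⟨C2, hC2⟩ := FJB.WHX.exists_isCr (m + 1) (MonoidHom.id (GLn S (a + b)))
    (FJB.WHX.tI (MonoidAlgebra ℤ G) (a + b)) (fun z => FJB.WHX.tI_comm (a + b) _)
  obtain ⟨W1, hW1⟩ := FJB.WHX.exists_isCr m (((scG G a).comp j).prod ((scG G b).comp j))
    (glm ψ a X, glm ψ b Y) (fun z => Prod.ext (QEX_comm φ j H a X z) (QEX_comm φ j H b Y z))
  obtain ⟨W2, hW2⟩ := FJB.WHX.exists_isCr (m + 1) (MonoidHom.id (GLn S a × GLn S b))
    (FJB.WHX.tI (MonoidAlgebra ℤ G) a, FJB.WHX.tI (MonoidAlgebra ℤ G) b)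
    (fun z => Prod.ext (FJB.WHX.tI_comm a _) (FJB.WHX.tI_comm b _))
  apply LinearMap.ext
  intro c
  rw [LinearMap.add_apply, QBL_eq hQ1 hA1 hA2 c, QBL_eq hQ2 hB1 hB2 c, QBL_eq hQ3 hC1 hC2 c]
  have e1 := hW1.nat hA1 (MonoidHom.id P) (MonoidHom.fst _ _) (fun z => rfl) rfl c
  have e2 := hW1.nat hB1 (MonoidHom.id P) (MonoidHom.snd _ _) (fun z => rfl) rfl c
  have e3 := hW1.nat hC1 (MonoidHom.id P) (bsumHom S a b) (fun z => QBL_sc G a b (j z))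
    (FJB.WHX.glm_bsum ψ a b (X, Y)).symm c
  rw [Hk.map_id] at e1 e2 e3
  have f1 := hW2.nat hA2 (MonoidHom.fst _ _) (MonoidHom.fst _ _) (fun z => rfl) rfl (W1 c)
  have f2 := hW2.nat hB2 (MonoidHom.snd _ _) (MonoidHom.snd _ _) (fun z => rfl) rfl (W1 c)
  have f3 := hW2.nat hC2 (bsumHom S a b) (bsumHom S a b) (fun z => rfl)
    (FJB.WHX.bsum_tI a b) (W1 c)
  rw [← e1] at f1
  rw [← e2] at f2
  rw [← e3] at f3
  rw [f1, f2, f3]
  exact FJB.WHX.KB_block (m + 1) a b (W2 (W1 c))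

end Pool.Agent.FJL
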