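import Pool.Agent.AUK.FJL.St2

/-!
# FJL_QMU: additivity of the product in the matrix
-/

set_option autoImplicit false

open Matrix Pool.Agent.WhK Pool.Agent.Lib25 CategoryTheory Pool.Agent.FJA

noncomputable section

namespace Pool.Agent.FJL

theorem QMU_comm {C P G : Type} [Group C] [Group P] [Group G] (φ : C →* G) (j : P →* G)
    (H : ∀ z c, Commute (j z) (φ c)) (r : ℕ) (X : GLn (MonoidAlgebra ℤ C) r) (z : P) :
    glm ((cst (MonoidAlgebra ℤ G)).comp (gr φ)) r X * (scG G r).comp j z =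
      (scG G r).comp j z * glm ((cst (MonoidAlgebra ℤ G)).comp (gr φ)) r X := by
  apply Units.ext
  change (X.val.map ((cst (MonoidAlgebra ℤ G)).comp (gr φ))) *
      (Matrix.diagonal fun _ => elt (j z)) =
    (Matrix.diagonal fun _ => elt (j z)) * (X.val.map ((cst (MonoidAlgebra ℤ G)).comp (gr φ)))
  refine Matrix.ext fun a b => ?_
  rw [Matrix.mul_diagonal, Matrix.diagonal_mul]
  exact ((comm_of H z (X.val a b)).map (cst (MonoidAlgebra ℤ G))).eq.symm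

theorem t_QMU : S_QMU := by
  intro C P G _ _ _ φ j H m r X Y Q1 Q2 Q3 hQ1 hQ2 hQ3
  obtain ⟨f, hf⟩ : ∃ f : P →* GLn (LaurentPolynomial (MonoidAlgebra ℤ G)) r,
    f = (scG G r).comp j := ⟨_, rfl⟩
  obtain ⟨F, hF⟩ : ∃ F : GLn (MonoidAlgebra ℤ C) r →*
      GLn (LaurentPolynomial (MonoidAlgebra ℤ G)) r,
    F = glm ((cst (MonoidAlgebra ℤ G)).comp (gr φ)) r := ⟨_, rfl⟩
  have hc : ∀ (X : GLn (MonoidAlgebra ℤ C) r) (z : P), F X * f z = f z * F X := by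
    intro X z
    rw [hF, hf]
    exact QMU_comm φ j H r X z
  obtain ⟨X2, h2⟩ := FJB.WHX.exists_isCr (m + 1)
    (MonoidHom.id (GLn (LaurentPolynomial (MonoidAlgebra ℤ G)) r))
    (FJB.WHX.tI (MonoidAlgebra ℤ G) r) (fun z => FJB.WHX.tI_comm r _)
  -- the values of the products
  have key : ∀ (X : GLn (MonoidAlgebra ℤ C) r) (Q : HQ m P →ₗ[ℚ] KB (m + 1) (MonoidAlgebra ℤ G)),
      IsQ m φ j r X Q → ∀ (z : ZC ℚ m P) (a : ZC ℚ (m + 1) (GLn (LaurentPolynomial (MonoidAlgebra ℤ G)) r)),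
      ch ℚ (m + 1) _ a = insL m (F X) (IC.map ℚ m f (ch ℚ m P z)) →
      Q (cl ℚ m P z) = KB.mk (m + 1) (MonoidAlgebra ℤ G) r (X2 (cl ℚ (m + 1) _ a)) := by
    intro X Q hQ z a ha
    obtain ⟨z', h3, h4⟩ := hQ z
    obtain ⟨w, h5, h6⟩ := h2 a
    rw [h4, h6]
    congr 1
    apply cl_congr
    rw [h3, h5, ha, hF, hf]
    exact congrArg (insL (m + 1) (FJB.WHX.tI (MonoidAlgebra ℤ G) r)) (IC.map_id (m + 1) _).symm
  have ex : ∀ (X : GLn (MonoidAlgebra ℤ C) r) (z : ZC ℚ m P),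
      ∃ a : ZC ℚ (m + 1) (GLn (LaurentPolynomial (MonoidAlgebra ℤ G)) r),
      ch ℚ (m + 1) _ a = insL m (F X) (IC.map ℚ m f (ch ℚ m P z)) := by
    intro X z
    obtain ⟨X1, h1⟩ := FJB.WHX.exists_isCr m f (F X) (hc X)
    obtain ⟨a, h3, _⟩ := h1 z
    exact ⟨a, h3⟩
  apply LinearMap.ext
  intro c
  obtain ⟨z, rfl⟩ := exists_cl (k := ℚ) c
  obtain ⟨a, ha⟩ := ex X z
  obtain ⟨b, hb⟩ := ex Y z
  obtain ⟨d, hd⟩ := ex (X * Y) z
  rw [LinearMap.add_apply, key X Q1 hQ1 z a ha, key Y Q2 hQ2 z b hb, key (X * Y) Q3 hQ3 z d hd]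
  obtain ⟨y, hy⟩ := t_CRA t_TPR (t_CRS t_PRI t_BD) t_BD P _ f (F X) (F Y) (hc X) (hc Y) m z
  have h4 : cl ℚ (m + 1) _ (a + b - d) = 0 := by
    rw [cl_eq_zero_iff]
    refine ⟨y, ?_⟩
    rw [map_sub, map_add, ha, hb, hd, map_mul]
    exact hy
  rw [map_sub, map_add, sub_eq_zero] at h4
  rw [← h4, map_add, map_add]

end Pool.Agent.FJL
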