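import Pool.Agent.AUK.FJL.St2

set_option autoImplicit false
set_option linter.unusedSectionVars false

open Matrix Pool.Agent.WhK Pool.Agent.Lib25 CategoryTheory Pool.Agent.FJA

noncomputable section

namespace Pool.Agent.FJL

namespace QNT

variable {C C' G G' P P' : Type} [Group C] [Group C'] [Group G] [Group G'] [Group P] [Group P']

theorem glm_comp_gr (φ : C →* G) (α : C' →* C) (r : ℕ) (X : GLn (MonoidAlgebra ℤ C') r) :
    glm ((cst (MonoidAlgebra ℤ G)).comp (gr (φ.comp α))) r X =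
      glm ((cst (MonoidAlgebra ℤ G)).comp (gr φ)) r (glm (gr α) r X) := by
  apply Units.ext
  change X.val.map ((cst (MonoidAlgebra ℤ G)).comp (gr (φ.comp α))) =
    (X.val.map (gr α)).map ((cst (MonoidAlgebra ℤ G)).comp (gr φ))
  ext1 i k
  change cst (MonoidAlgebra ℤ G) (gr (φ.comp α) (X.val i k)) =
    cst (MonoidAlgebra ℤ G) (gr φ (gr α (X.val i k)))
  rw [gr_comp]
  rfl

theorem chQ_map (m : ℕ) (φ : C →* G) (j : P →* G) (α : C' →* C) (r : ℕ)
    (X : GLn (MonoidAlgebra ℤ C') r) (x : IC ℚ m P) :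
    chQ m (φ.comp α) j r X x = chQ m φ j r (glm (gr α) r X) x := by
  unfold chQ
  rw [glm_comp_gr]

theorem chQ_comp (m : ℕ) (φ : C →* G) (j : P →* G) (f : P' →* P) (j' : P' →* G)
    (hj : ∀ z, j' z = j (f z)) (r : ℕ) (X : GLn (MonoidAlgebra ℤ C) r) (x : IC ℚ m P') :
    chQ m φ j' r X x = chQ m φ j r X (IC.map ℚ m f x) := by
  unfold chQ
  rw [IC.map_map]
  have h1 : (fun z => scG G r (j' z)) = (fun z => scG G r (j z)) ∘ (f : P' → P) := by
    funext z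
    change scG G r (j' z) = scG G r (j (f z))
    rw [hj]
  rw [h1]

theorem conj_gr (φ φ' : C →* G) (g : G) (hφ : ∀ c, φ' c = g * φ c * g⁻¹) (a : MonoidAlgebra ℤ C) :
    gr φ' a = MonoidAlgebra.of ℤ G g * gr φ a * MonoidAlgebra.of ℤ G g⁻¹ := by
  induction a using MonoidAlgebra.induction_on with
  | of c => rw [gr_of, gr_of, hφ, map_mul, map_mul]
  | add x y hx hy => rw [map_add, map_add, mul_add, add_mul, hx, hy]
  | smul r x hx => rw [map_zsmul, map_zsmul, mul_smul_comm, smul_mul_assoc, hx]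

theorem conj_glm (φ φ' : C →* G) (g : G) (hφ : ∀ c, φ' c = g * φ c * g⁻¹) (r : ℕ)
    (X : GLn (MonoidAlgebra ℤ C) r) :
    (MulAut.conj (scG G r g)).toMonoidHom (glm ((cst (MonoidAlgebra ℤ G)).comp (gr φ)) r X) =
      glm ((cst (MonoidAlgebra ℤ G)).comp (gr φ')) r X := by
  apply Units.ext
  change (Matrix.diagonal fun _ => cst (MonoidAlgebra ℤ G) (MonoidAlgebra.of ℤ G g)) *
      X.val.map ((cst (MonoidAlgebra ℤ G)).comp (gr φ)) *
      (Matrix.diagonal fun _ => cst (MonoidAlgebra ℤ G) (MonoidAlgebra.of ℤ G g⁻¹)) =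
    X.val.map ((cst (MonoidAlgebra ℤ G)).comp (gr φ'))
  ext1 i k
  rw [Matrix.mul_diagonal, Matrix.diagonal_mul]
  change cst (MonoidAlgebra ℤ G) (MonoidAlgebra.of ℤ G g) *
      cst (MonoidAlgebra ℤ G) (gr φ (X.val i k)) *
      cst (MonoidAlgebra ℤ G) (MonoidAlgebra.of ℤ G g⁻¹) =
    cst (MonoidAlgebra ℤ G) (gr φ' (X.val i k))
  rw [← map_mul, ← map_mul, conj_gr φ φ' g hφ]

theorem conj_tI (g : G) (r : ℕ) :
    (MulAut.conj (scG G r g)).toMonoidHom (FJB.WHX.tI (MonoidAlgebra ℤ G) r) =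
      FJB.WHX.tI (MonoidAlgebra ℤ G) r := by
  change scG G r g * FJB.WHX.tI (MonoidAlgebra ℤ G) r * (scG G r g)⁻¹ =
    FJB.WHX.tI (MonoidAlgebra ℤ G) r
  rw [← FJB.WHX.tI_comm, mul_inv_cancel_right]

theorem chQ_conj (m : ℕ) (φ φ' : C →* G) (j j' : P →* G) (g : G)
    (hφ : ∀ c, φ' c = g * φ c * g⁻¹) (hj : ∀ z, j' z = g * j z * g⁻¹) (r : ℕ)
    (X : GLn (MonoidAlgebra ℤ C) r) (x : IC ℚ m P) :
    chQ m φ' j' r X x =
      IC.map ℚ (m + 2) (MulAut.conj (scG G r g)).toMonoidHom (chQ m φ j r X x) := by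
  unfold chQ
  rw [AS1.map_insL, AS1.map_insL, IC.map_map, conj_tI, conj_glm φ φ' g hφ]
  have h1 : (fun z => scG G r (j' z)) =
      ((MulAut.conj (scG G r g)).toMonoidHom :
        GLn (LaurentPolynomial (MonoidAlgebra ℤ G)) r →
        GLn (LaurentPolynomial (MonoidAlgebra ℤ G)) r) ∘ (fun z => scG G r (j z)) := by
    funext z
    change scG G r (j' z) = scG G r g * scG G r (j z) * (scG G r g)⁻¹
    rw [hj, map_mul, map_mul, map_inv]
  rw [h1]

theorem nat_tI (ι : G →* G') (r : ℕ) :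
    glm (mapL (gr ι)) r (FJB.WHX.tI (MonoidAlgebra ℤ G) r) =
      FJB.WHX.tI (MonoidAlgebra ℤ G') r := by
  apply Units.ext
  change (Matrix.diagonal fun _ => (LaurentPolynomial.T 1 :
      LaurentPolynomial (MonoidAlgebra ℤ G))).map (mapL (gr ι)) =
    Matrix.diagonal fun _ => (LaurentPolynomial.T 1 : LaurentPolynomial (MonoidAlgebra ℤ G'))
  rw [Matrix.diagonal_map (map_zero _)]
  congr 1
  funext _
  have h1 := mapL_single (gr ι) 1 (1 : MonoidAlgebra ℤ G)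
  rw [map_one] at h1
  exact h1

theorem nat_scG (ι : G →* G') (r : ℕ) (g : G) :
    glm (mapL (gr ι)) r (scG G r g) = scG G' r (ι g) := by
  apply Units.ext
  change (Matrix.diagonal fun _ => cst (MonoidAlgebra ℤ G) (MonoidAlgebra.of ℤ G g)).map
      (mapL (gr ι)) =
    Matrix.diagonal fun _ => cst (MonoidAlgebra ℤ G') (MonoidAlgebra.of ℤ G' (ι g))
  rw [Matrix.diagonal_map (map_zero _)]
  congr 1
  funext _
  change mapL (gr ι) (AddMonoidAlgebra.single 0 (MonoidAlgebra.of ℤ G g)) =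
    AddMonoidAlgebra.single 0 (MonoidAlgebra.of ℤ G' (ι g))
  rw [mapL_single, gr_of]

theorem nat_glm (ι : G →* G') (φ : C →* G) (r : ℕ) (X : GLn (MonoidAlgebra ℤ C) r) :
    glm (mapL (gr ι)) r (glm ((cst (MonoidAlgebra ℤ G)).comp (gr φ)) r X) =
      glm ((cst (MonoidAlgebra ℤ G')).comp (gr (ι.comp φ))) r X := by
  apply Units.ext
  change (X.val.map ((cst (MonoidAlgebra ℤ G)).comp (gr φ))).map (mapL (gr ι)) =
    X.val.map ((cst (MonoidAlgebra ℤ G')).comp (gr (ι.comp φ)))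
  ext1 i k
  change mapL (gr ι) (AddMonoidAlgebra.single 0 (gr φ (X.val i k))) =
    AddMonoidAlgebra.single 0 (gr (ι.comp φ) (X.val i k))
  rw [mapL_single, gr_comp]
  rfl

theorem chQ_nat (m : ℕ) (φ : C →* G) (j : P →* G) (ι : G →* G') (r : ℕ)
    (X : GLn (MonoidAlgebra ℤ C) r) (x : IC ℚ m P) :
    IC.map ℚ (m + 2) (glm (mapL (gr ι)) r) (chQ m φ j r X x) =
      chQ m (ι.comp φ) (ι.comp j) r X x := by
  unfold chQ
  rw [AS1.map_insL, AS1.map_insL, IC.map_map, nat_tI, nat_glm]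
  have h1 : (fun z => scG G' r (ι.comp j z)) =
      (glm (mapL (gr ι)) r : GLn (LaurentPolynomial (MonoidAlgebra ℤ G)) r →
        GLn (LaurentPolynomial (MonoidAlgebra ℤ G')) r) ∘ (fun z => scG G r (j z)) := by
    funext z
    exact (nat_scG ι r (j z)).symm
  rw [h1]

end QNT

theorem t_QNT : S_QNT := by
  intro C P G _ _ _ φ j m r
  refine ⟨?_, ?_, ?_, ?_⟩
  · intro P' _ f j' X Q Q' hj hQ hQ' c
    obtain ⟨z, rfl⟩ := exists_cl c
    obtain ⟨y, h1, h2⟩ := Hk.map_cl f z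
    obtain ⟨z1, h3, h4⟩ := hQ' z
    obtain ⟨z2, h5, h6⟩ := hQ y
    rw [HQ_map_eq, h1, h4, h6]
    congr 1
    apply cl_congr
    rw [h3, h5, h2, QNT.chQ_comp m φ j f j' hj]
  · intro C' _ α X Q
    unfold IsQ
    simp only [QNT.chQ_map]
  · intro φ' j' g X Q Q' hφ hj hQ hQ'
    apply LinearMap.ext
    intro c
    obtain ⟨z, rfl⟩ := exists_cl c
    obtain ⟨z1, h3, h4⟩ := hQ' z
    obtain ⟨z2, h5, h6⟩ := hQ z
    obtain ⟨y, h7, h8⟩ := Hk.map_cl (k := ℚ) (MulAut.conj (scG G r g)).toMonoidHom z2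
    rw [h4, h6, ← Hk.map_conj t_PRI t_BD (m + 1) (scG G r g) (cl ℚ (m + 2) _ z2)]
    congr 1
    refine Eq.trans ?_ h7.symm
    apply cl_congr
    rw [h3, h8, h5, QNT.chQ_conj m φ φ' j j' g hφ hj]
  · intro G' _ ι X Q M hM hQ z
    obtain ⟨z1, h1, h2⟩ := hQ z
    obtain ⟨y, h3, h4⟩ := Hk.map_cl (k := ℚ) (glm (mapL (gr ι)) r) z1
    refine ⟨y, ?_, ?_⟩
    · rw [h4, h1, QNT.chQ_nat]
    · rw [LinearMap.comp_apply, h2, hM]
      congr 1

end Pool.Agent.FJL
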