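import Pool.Agent.AUK.FJL.St2

/-!
# FJL, QUN: the product with a unit of `ℤ[⟨h⟩]` (helper62)
-/

set_option autoImplicit false
set_option linter.unusedSectionVars false

open Matrix Pool.Agent.WhK Pool.Agent.Lib25 CategoryTheory Pool.Agent.FJA

noncomputable section

namespace Pool.Agent.FJL

theorem qun_sc {G : Type} [Group G] (g : G) : scG G 1 g = uL G (gU G g) := by
  apply Units.ext
  rfl

theorem qun_unit {G : Type} [Group G] (h : G) (v : (MonoidAlgebra ℤ (Subgroup.zpowers h))ˣ) :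
    glm ((cst (MonoidAlgebra ℤ G)).comp (gr (Subgroup.zpowers h).subtype)) 1 (FJB.unit1 v) =
      uL G (Units.map (gr (Subgroup.zpowers h).subtype :
        MonoidAlgebra ℤ (Subgroup.zpowers h) →* MonoidAlgebra ℤ G) v) := by
  apply Units.ext
  change (Matrix.diagonal fun _ => (v : MonoidAlgebra ℤ (Subgroup.zpowers h))).map
      ((cst (MonoidAlgebra ℤ G)).comp (gr (Subgroup.zpowers h).subtype)) =
    Matrix.diagonal fun _ => cst (MonoidAlgebra ℤ G) (gr (Subgroup.zpowers h).subtype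
      (v : MonoidAlgebra ℤ (Subgroup.zpowers h)))
  rw [Matrix.diagonal_map (map_zero _)]
  rfl

/-- FJL_QUN. -/
theorem t_QUN : S_QUN := by
  intro G _ m B hB h hh v Q hQ c
  obtain ⟨z, rfl⟩ := exists_cl (k := ℚ) c
  obtain ⟨z', h1, h2⟩ := hB h (Units.map (gr (Subgroup.zpowers h).subtype :
    MonoidAlgebra ℤ (Subgroup.zpowers h) →* MonoidAlgebra ℤ G) v) z ⟨hh, ⟨v, rfl⟩⟩
  obtain ⟨z'', h3, h4⟩ := hQ z
  have e : ch ℚ (m + 2) _ z'' = ch ℚ (m + 2) _ z' := by
    rw [h3, h1, AS1.chU_eq]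
    unfold chQ
    rw [FJB.WHX.tI_tL, qun_unit]
    rfl
  rw [h4, h2, cl_congr e]

end Pool.Agent.FJL
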