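import Pool.Agent.AUK.FJL.St1
import Pool.Agent.KM.P_TCY

/-!
# FJL_TCZ: cyclic groups
-/

set_option autoImplicit false
set_option linter.unusedSectionVars false

open Matrix Pool.Agent.WhK Pool.Agent.Lib25 CategoryTheory Pool.Agent.FJA

noncomputable section

namespace Pool.Agent.FJL

open KM.TCY in
theorem t_TCZ (hUB : KM.S_UB) (hTLA : KM.S_TLA) : S_TCZ := by
  classical
  intro β hdet
  have main : ∀ (N : ℕ) [NeZero N],
      (∀ l : KNegOne (MonoidAlgebra ℤ (Cyc N)) →+ ℚ,
        (∀ M : ℕ, 1 < M → ∀ p : ℕ, p.Prime → p ∣ M → ∀ φ : Cyc M →* Cyc N,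
          Function.Injective φ → l (Km φ (kap β M p)) = 0) → l = 0) ∧
      (∀ l : KNegOne (MonoidAlgebra ℤ (Cyc N)) →+ ℚ,
        ∃ F : KB 0 (MonoidAlgebra ℤ (Cyc N × Multiplicative ℤ)) →ₗ[ℚ] ℚ,
          ∀ x, l x = F (lz (Cyc N) x)) := by
    intro N _
    choose φ hφ using exists_emb N
    have hne : ∀ d : {d // d ∈ N.divisors.erase 1}, NeZero (d : ℕ) := by
      intro d
      have h1 := (Finset.mem_erase.1 d.2).2
      exact ⟨(Nat.pos_of_mem_divisors h1).ne'⟩
    have hgt : ∀ d : {d // d ∈ N.divisors.erase 1}, 1 < (d : ℕ) := by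
      intro d
      have h1 := (Finset.mem_erase.1 d.2).1
      have h2 := (hne d).ne
      omega
    have hdv : ∀ d : {d // d ∈ N.divisors.erase 1}, (d : ℕ) ∣ N := fun d =>
      (Nat.mem_divisors.1 (Finset.mem_erase.1 d.2).2).1
    have hinj : ∀ (d : {d // d ∈ N.divisors.erase 1}) (u : (ZMod (d : ℕ))ˣ),
        Function.Injective ((φ d).comp (KM.pwr d u)) := by
      intro d u x y hxy
      exact pwr_inj d u (hφ d (hdv d) hxy)
    -- the functionals of the form `F ∘ lz`
    obtain ⟨Θ, hΘ⟩ : ∃ Θ : (KB 0 (MonoidAlgebra ℤ (Cyc N × Multiplicative ℤ)) →ₗ[ℚ] ℚ) →ₗ[ℚ]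
        (KNegOne (MonoidAlgebra ℤ (Cyc N)) →+ ℚ), ∀ F x, Θ F x = F (lz (Cyc N) x) :=
      ⟨{ toFun := fun F => F.toAddMonoidHom.comp (lz (Cyc N))
         map_add' := fun _ _ => rfl
         map_smul' := fun _ _ => rfl }, fun _ _ => rfl⟩
    -- the linear map
    obtain ⟨Ψ, hΨ⟩ : ∃ Ψ : (KNegOne (MonoidAlgebra ℤ (Cyc N)) →+ ℚ) →ₗ[ℚ]
        (∀ d : {d // d ∈ N.divisors.erase 1}, ∀ p : (d : ℕ).primeFactors, (ZMod d)ˣ → ℚ),
        ∀ F d p u, Ψ F d p u = F (Km ((φ d).comp (KM.pwr d u)) (kap β d p)) :=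
      ⟨{ toFun := fun F d p u => F (Km ((φ d).comp (KM.pwr d u)) (kap β d p))
         map_add' := fun _ _ => rfl
         map_smul' := fun _ _ => rfl }, fun _ _ _ _ => rfl⟩
    -- the source
    obtain ⟨J, hJ⟩ : ∃ J : (∀ d : {d // d ∈ N.divisors.erase 1}, LinearMap.ker (form d)) →ₗ[ℚ]
        (∀ d : {d // d ∈ N.divisors.erase 1}, ∀ p : (d : ℕ).primeFactors, (ZMod d)ˣ → ℚ),
        ∀ f d p u, J f d p u = (f d).1 p (Quot.mk _ u) :=
      ⟨{ toFun := fun f d p u => (f d).1 p (Quot.mk _ u)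
         map_add' := fun _ _ => rfl
         map_smul' := fun _ _ => rfl }, fun _ _ _ _ => rfl⟩
    have hJinj : Function.Injective J := by
      intro f g hfg
      funext d
      apply Subtype.ext
      funext p x
      induction x using Quot.ind with
      | mk u =>
        have h1 := congrFun (congrFun (congrFun hfg d) p) u
        rw [hJ, hJ] at h1
        exact h1
    have hle : LinearMap.range J ≤ LinearMap.range (Ψ ∘ₗ Θ) := by
      rintro _ ⟨f, rfl⟩
      obtain ⟨f', hf'⟩ : ∃ f' : ∀ d : ℕ, ℕ → (ZMod d)ˣ → ℚ, f' = fun d p u =>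
          if h : d ∈ N.divisors.erase 1 then
            if h' : p ∈ d.primeFactors then (f ⟨d, h⟩).1 ⟨p, h'⟩ (Quot.mk _ u) else 0 else 0 :=
        ⟨_, rfl⟩
      have hf'' : ∀ (d : {d // d ∈ N.divisors.erase 1}) (p : (d : ℕ).primeFactors)
          (u : (ZMod d)ˣ), f' d p u = (f d).1 p (Quot.mk _ u) := by
        intro d p u
        rw [hf']
        simp only
        rw [dif_pos d.2, dif_pos p.2]
      obtain ⟨L, hL, hval⟩ := hTLA N φ hφ f' (by
        intro d p u z huz
        by_cases h : d ∈ N.divisors.erase 1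
        · by_cases h' : p ∈ d.primeFactors
          · exact (hf'' ⟨d, h⟩ ⟨p, h'⟩ u).trans ((congrArg _ (Quot.sound huz)).trans
              (hf'' ⟨d, h⟩ ⟨p, h'⟩ z).symm)
          · rw [hf']
            simp only
            rw [dif_pos h, dif_pos h, dif_neg h', dif_neg h']
        · rw [hf']
          simp only
          rw [dif_neg h, dif_neg h]) (by
        intro d _ hd1 hdN
        have hd : d ∈ N.divisors.erase 1 :=
          Finset.mem_erase.2 ⟨hd1.ne', Nat.mem_divisors.2 ⟨hdN, NeZero.ne N⟩⟩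
        have h1 := (f ⟨d, hd⟩).2
        rw [LinearMap.mem_ker] at h1
        change ∑ p : d.primeFactors, ∑ u : (ZMod d)ˣ, (f ⟨d, hd⟩).1 p (Quot.mk _ u) = 0 at h1
        rw [← Finset.sum_coe_sort d.primeFactors]
        rw [← h1]
        refine Finset.sum_congr rfl fun p _ => Finset.sum_congr ?_ fun u _ => ?_
        · congr
        · exact hf'' ⟨d, hd⟩ p u)
      obtain ⟨F, hF⟩ := hdet N L hL
      refine ⟨F, ?_⟩
      funext d p u
      rw [LinearMap.comp_apply, hΨ, hΘ, hJ, hF d (hgt d) p (Nat.prime_of_mem_primeFactors p.2)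
        (Nat.dvd_of_mem_primeFactors p.2) _ (hinj d u), MonoidHom.comp_apply, pwr_gn,
        hval d (hgt d) (hdv d) p p.2 u, hf'']
    -- dimensions
    have hUB' := hUB N
    have hfin : Module.Finite ℚ (KNegOne (MonoidAlgebra ℤ (Cyc N)) →+ ℚ) := by
      rw [← Module.rank_lt_aleph0_iff]
      exact hUB'.trans_lt (Cardinal.natCast_lt_aleph0)
    have hdim : Module.finrank ℚ (KNegOne (MonoidAlgebra ℤ (Cyc N)) →+ ℚ) ≤
        ∑ d ∈ N.divisors.erase 1, ((∑ p ∈ d.primeFactors, KM.nU d p) - 1) :=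
      Module.finrank_le_of_rank_le hUB'
    have h1 : ∑ d ∈ N.divisors.erase 1, ((∑ p ∈ d.primeFactors, KM.nU d p) - 1) ≤
        Module.finrank ℚ (LinearMap.range J) := by
      rw [LinearMap.finrank_range_of_inj hJinj, Module.finrank_pi_fintype,
        ← Finset.sum_coe_sort (N.divisors.erase 1)]
      exact Finset.sum_le_sum fun d _ => finrank_form d
    have h2 := Submodule.finrank_mono hle
    have h3 := LinearMap.finrank_range_add_finrank_ker Ψ
    have h4 : Module.finrank ℚ (LinearMap.range (Ψ ∘ₗ Θ)) ≤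
        Module.finrank ℚ (LinearMap.range Ψ) :=
      Submodule.finrank_mono (LinearMap.range_comp_le_range Θ Ψ)
    have h5 : Module.finrank ℚ (LinearMap.range (Ψ ∘ₗ Θ)) ≤
        Module.finrank ℚ (LinearMap.range Θ) := by
      rw [LinearMap.range_comp]
      exact Submodule.finrank_map_le Ψ (LinearMap.range Θ)
    have h6 := Submodule.finrank_le (LinearMap.range Θ)
    refine ⟨fun l hl => ?_, fun l => ?_⟩
    · have h7 : Module.finrank ℚ (LinearMap.ker Ψ) = 0 := by omega
      have h8 : LinearMap.ker Ψ = ⊥ := Submodule.finrank_eq_zero.1 h7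
      have h9 : l ∈ LinearMap.ker Ψ := by
        rw [LinearMap.mem_ker]
        funext d p u
        rw [hΨ]
        exact hl d (hgt d) p (Nat.prime_of_mem_primeFactors p.2)
          (Nat.dvd_of_mem_primeFactors p.2) _ (hinj d u)
      rw [h8] at h9
      exact h9
    · have h7 : LinearMap.range Θ = ⊤ := by
        apply Submodule.eq_top_of_finrank_eq
        omega
      obtain ⟨F, hF⟩ := LinearMap.range_eq_top.1 h7 l
      refine ⟨F, fun x => ?_⟩
      rw [← hF, hΘ]
  exact ⟨fun N _ => (main N).1, fun N _ => (main N).2⟩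

end Pool.Agent.FJL
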