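import Pool.Agent.AUK.FJL.St4

/-!
# UDM: undetected classes are mapped to undetected classes
-/

set_option autoImplicit false
set_option linter.unusedSectionVars false

open Matrix Pool.Agent.WhK Pool.Agent.Lib25 CategoryTheory Pool.Agent.FJA

noncomputable section

namespace Pool.Agent.FJL

theorem t_UDM : S_UDM := by
  intro m P Q _ _ u c hc f hf
  refine hc (f ∘ₗ HQ.map m u) ?_
  intro z hz
  obtain ⟨y, h1, h2⟩ := Hk.map_cl (k := ℚ) (m := m) u z
  have h3 : (f ∘ₗ HQ.map m u) (hcl m P z) = f (hcl m Q y) := congrArg f h1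
  rw [h3]
  refine hf y fun g => ?_
  have h4 : hch m Q y = (hch m P z).mapDomain (fun a => u ∘ a) := h2
  rw [h4]
  choose k hk using hz
  classical
  refine ⟨∑ a ∈ (hch m P z).support, if (fun i => u (a i)) = g then k a else 0, ?_⟩
  rw [Finsupp.mapDomain, Finsupp.sum_apply]
  unfold Finsupp.sum
  push_cast
  refine Finset.sum_congr rfl fun a _ => ?_
  rw [Finsupp.single_apply, hk]
  rfl

end Pool.Agent.FJL
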