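import Pool.Agent.AUK.FJL.St3

/-!
# FJL_UK1: the relations of `KB n ℤ[G]` come from finitely generated subgroups
-/

set_option autoImplicit false
set_option linter.unusedSectionVars false

open Matrix Pool.Agent.WhK Pool.Agent.Lib25 CategoryTheory Pool.Agent.FJA

noncomputable section

namespace Pool.Agent.FJL

namespace UK1

section

variable {R S T : Type} [Ring R] [Ring S] [Ring T]

theorem glm_glm (f : R →+* S) (g : S →+* T) (r : ℕ) :
    (glm g r).comp (glm f r) = glm (g.comp f) r := by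
  apply MonoidHom.ext
  intro X
  apply Units.ext
  change (X.val.map f).map g = X.val.map (g.comp f)
  rw [Matrix.map_map]
  rfl

theorem hglm_hglm (m : ℕ) (f : R →+* S) (g : S →+* T) (v : HGL m R) :
    hglm m g (hglm m f v) = hglm m (g.comp f) v := by
  induction v using DirectSum.induction_on with
  | zero => rw [map_zero, map_zero, map_zero]
  | of r c =>
    change hglm m g (hglm m f (HGL.of m R r c)) = hglm m (g.comp f) (HGL.of m R r c)
    rw [hglm_of, hglm_of, hglm_of, ← HQ.map_comp, glm_glm]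
  | add x y hx hy => rw [map_add, map_add, map_add, hx, hy]

theorem mapL_comp (f : R →+* S) (g : S →+* T) : (mapL g).comp (mapL f) = mapL (g.comp f) := by
  apply RingHom.ext
  intro x
  exact mapL_mapL f g x

theorem glm_bsumHom (f : R →+* S) (a b : ℕ) :
    (glm f (a + b)).comp (bsumHom R a b) =
      (bsumHom S a b).comp (MonoidHom.prodMap (glm f a) (glm f b)) := by
  apply MonoidHom.ext
  intro z
  exact FJB.WHX.glm_bsum f a b z

/-- The generator of the first kind. -/
def g1 (n : ℕ) (R : Type) [Ring R] (a b : ℕ)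
    (c : HQ (n + 1) (GLn (LaurentPolynomial R) a × GLn (LaurentPolynomial R) b)) :
    HGL (n + 1) (LaurentPolynomial R) :=
  HGL.of (n + 1) _ (a + b) (HQ.map (n + 1) (bsumHom (LaurentPolynomial R) a b) c) -
        HGL.of (n + 1) _ a (HQ.map (n + 1) (MonoidHom.fst _ _) c) -
        HGL.of (n + 1) _ b (HQ.map (n + 1) (MonoidHom.snd _ _) c)

/-- The generator of the second kind. -/
def g2 (n : ℕ) (R : Type) [Ring R] (r : ℕ) (c : HQ (n + 1) (GLn (Polynomial R) r)) :
    HGL (n + 1) (LaurentPolynomial R) :=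
  HGL.of (n + 1) _ r (HQ.map (n + 1) (glm (posIncl R) r) c)

/-- The generator of the third kind. -/
def g3 (n : ℕ) (R : Type) [Ring R] (r : ℕ) (c : HQ (n + 1) (GLn (Polynomial R) r)) :
    HGL (n + 1) (LaurentPolynomial R) :=
  HGL.of (n + 1) _ r (HQ.map (n + 1) (glm (negIncl R) r) c)

theorem g1_mem (n a b : ℕ)
    (c : HQ (n + 1) (GLn (LaurentPolynomial R) a × GLn (LaurentPolynomial R) b)) :
    g1 n R a b c ∈ RG n R := Or.inl ⟨a, b, c, rfl⟩

theorem g2_mem (n r : ℕ) (c : HQ (n + 1) (GLn (Polynomial R) r)) :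
    g2 n R r c ∈ RG n R := Or.inr (Or.inl ⟨r, c, rfl⟩)

theorem g3_mem (n r : ℕ) (c : HQ (n + 1) (GLn (Polynomial R) r)) :
    g3 n R r c ∈ RG n R := Or.inr (Or.inr ⟨r, c, rfl⟩)

theorem hglm_g1 (n : ℕ) (f : R →+* S) (a b : ℕ)
    (c : HQ (n + 1) (GLn (LaurentPolynomial R) a × GLn (LaurentPolynomial R) b)) :
    hglm (n + 1) (mapL f) (g1 n R a b c) = g1 n S a b
      (HQ.map (n + 1) (MonoidHom.prodMap (glm (mapL f) a) (glm (mapL f) b)) c) := by
  unfold g1
  rw [map_sub, map_sub, hglm_of, hglm_of, hglm_of, ← HQ.map_comp, ← HQ.map_comp, ← HQ.map_comp,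
    ← HQ.map_comp, ← HQ.map_comp, ← HQ.map_comp, glm_bsumHom]
  rfl

theorem hglm_g2 (n : ℕ) (f : R →+* S) (r : ℕ) (c : HQ (n + 1) (GLn (Polynomial R) r)) :
    hglm (n + 1) (mapL f) (g2 n R r c) = g2 n S r
      (HQ.map (n + 1) (glm (Polynomial.mapRingHom f) r) c) := by
  unfold g2
  rw [hglm_of, ← HQ.map_comp, ← HQ.map_comp, glm_glm, glm_glm, mapL_posIncl]

theorem hglm_g3 (n : ℕ) (f : R →+* S) (r : ℕ) (c : HQ (n + 1) (GLn (Polynomial R) r)) :
    hglm (n + 1) (mapL f) (g3 n R r c) = g3 n S r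
      (HQ.map (n + 1) (glm (Polynomial.mapRingHom f) r) c) := by
  unfold g3
  rw [hglm_of, ← HQ.map_comp, ← HQ.map_comp, glm_glm, glm_glm, mapL_negIncl]

theorem RG_map (n : ℕ) (f : R →+* S) (x : HGL (n + 1) (LaurentPolynomial R)) (hx : x ∈ RG n R) :
    hglm (n + 1) (mapL f) x ∈ RG n S := by
  rcases hx with ⟨a, b, c, rfl⟩ | ⟨r, c, rfl⟩ | ⟨r, c, rfl⟩
  · have h := hglm_g1 n f a b c
    unfold g1 at h
    rw [h]
    exact g1_mem n a b _
  · have h := hglm_g2 n f r c
    unfold g2 at h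
    rw [h]
    exact g2_mem n r _
  · have h := hglm_g3 n f r c
    unfold g3 at h
    rw [h]
    exact g3_mem n r _

/-- `hglm` maps the span of the relations to the span of the relations. -/
theorem span_map (n : ℕ) (f : R →+* S) (x : HGL (n + 1) (LaurentPolynomial R))
    (hx : x ∈ Submodule.span ℚ (RG n R)) :
    hglm (n + 1) (mapL f) x ∈ Submodule.span ℚ (RG n S) := by
  induction hx using Submodule.span_induction with
  | mem x h => exact Submodule.subset_span (RG_map n f x h)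
  | zero => rw [map_zero]; exact Submodule.zero_mem _
  | add x y _ _ hx hy => rw [map_add]; exact Submodule.add_mem _ hx hy
  | smul a x _ hx => rw [map_smul]; exact Submodule.smul_mem _ a hx

end

section

variable {G : Type} [Group G]

/-- The image in a larger subgroup. -/
theorem hglm_incl (m : ℕ) {K K' : Subgroup G} (h : K ≤ K')
    (v : HGL m (LaurentPolynomial (MonoidAlgebra ℤ K))) :
    hglm m (mapL (gr K'.subtype)) (hglm m (mapL (gr (Subgroup.inclusion h))) v) =
      hglm m (mapL (gr K.subtype)) v := by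
  rw [hglm_hglm, mapL_comp, ← gr_comp]
  rfl

end

end UK1

open UK1 in
theorem t_UK1 (hH : S_UHG) (hM : S_UMG) (hR : S_UMR) : S_UK1 := by
  intro G _ n G' hG' v hv
  obtain ⟨⟨hL1, hL2⟩, hP1, hP2⟩ := hR G G' hG'
  induction hv using Submodule.span_induction with
  | mem x h =>
    rcases h with ⟨a, b, c, rfl⟩ | ⟨r, c, rfl⟩ | ⟨r, c, rfl⟩
    · obtain ⟨h1, h2⟩ := (hM (FGS G') (fun K => LaurentPolynomial (MonoidAlgebra ℤ K.1))
        (LaurentPolynomial (MonoidAlgebra ℤ G)) (fun K => mapL (gr K.1.subtype)) hL1 hL2).2 a b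
      obtain ⟨K, c', hc'⟩ := (hH (n + 1) (FGS G')
        (fun K => GLn (LaurentPolynomial (MonoidAlgebra ℤ K.1)) a ×
          GLn (LaurentPolynomial (MonoidAlgebra ℤ K.1)) b)
        (GLn (LaurentPolynomial (MonoidAlgebra ℤ G)) a ×
          GLn (LaurentPolynomial (MonoidAlgebra ℤ G)) b)
        (fun K => MonoidHom.prodMap (glm (mapL (gr K.1.subtype)) a)
          (glm (mapL (gr K.1.subtype)) b)) h1 h2).1 c
      refine ⟨K, g1 n _ a b c', Submodule.subset_span (g1_mem n a b c'), ?_⟩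
      rw [hglm_g1, hc']
      rfl
    · obtain ⟨h1, h2⟩ := (hM (FGS G') (fun K => Polynomial (MonoidAlgebra ℤ K.1))
        (Polynomial (MonoidAlgebra ℤ G)) (fun K => Polynomial.mapRingHom (gr K.1.subtype))
        hP1 hP2).1 r
      obtain ⟨K, c', hc'⟩ := (hH (n + 1) (FGS G')
        (fun K => GLn (Polynomial (MonoidAlgebra ℤ K.1)) r)
        (GLn (Polynomial (MonoidAlgebra ℤ G)) r)
        (fun K => glm (Polynomial.mapRingHom (gr K.1.subtype)) r) h1 h2).1 c
      refine ⟨K, g2 n _ r c', Submodule.subset_span (g2_mem n r c'), ?_⟩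
      rw [hglm_g2, hc']
      rfl
    · obtain ⟨h1, h2⟩ := (hM (FGS G') (fun K => Polynomial (MonoidAlgebra ℤ K.1))
        (Polynomial (MonoidAlgebra ℤ G)) (fun K => Polynomial.mapRingHom (gr K.1.subtype))
        hP1 hP2).1 r
      obtain ⟨K, c', hc'⟩ := (hH (n + 1) (FGS G')
        (fun K => GLn (Polynomial (MonoidAlgebra ℤ K.1)) r)
        (GLn (Polynomial (MonoidAlgebra ℤ G)) r)
        (fun K => glm (Polynomial.mapRingHom (gr K.1.subtype)) r) h1 h2).1 c
      refine ⟨K, g3 n _ r c', Submodule.subset_span (g3_mem n r c'), ?_⟩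
      rw [hglm_g3, hc']
      rfl
  | zero => exact ⟨⟨G', le_refl _, hG'⟩, 0, Submodule.zero_mem _, map_zero _⟩
  | add x y _ _ hx hy =>
    obtain ⟨K1, w1, hw1, h1⟩ := hx
    obtain ⟨K2, w2, hw2, h2⟩ := hy
    refine ⟨⟨K1.1 ⊔ K2.1, le_trans K1.2.1 le_sup_left, K1.2.2.sup K2.2.2⟩,
      hglm (n + 1) (mapL (gr (Subgroup.inclusion (le_sup_left : K1.1 ≤ K1.1 ⊔ K2.1)))) w1 +
      hglm (n + 1) (mapL (gr (Subgroup.inclusion (le_sup_right : K2.1 ≤ K1.1 ⊔ K2.1)))) w2,
      Submodule.add_mem _ (span_map n _ w1 hw1) (span_map n _ w2 hw2), ?_⟩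
    rw [map_add, hglm_incl, hglm_incl, h1, h2]
  | smul a x _ hx =>
    obtain ⟨K, w, hw, h1⟩ := hx
    exact ⟨K, a • w, Submodule.smul_mem _ a hw, by rw [map_smul, h1]⟩

end Pool.Agent.FJL
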