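import Pool.Agent.AUK.FJL.St3

/-!
# FJL_UK2: elements of `HGL` which die in the union die in a finitely generated subgroup
-/

set_option autoImplicit false
set_option linter.unusedSectionVars false

open Matrix Pool.Agent.WhK Pool.Agent.Lib25 CategoryTheory Pool.Agent.FJA

noncomputable section

namespace Pool.Agent.FJL

namespace UK2

section

variable {R S T : Type} [Ring R] [Ring S] [Ring T]

theorem glm_glm (f : R →+* S) (g : S →+* T) (r : ℕ) :
    (glm g r).comp (glm f r) = glm (g.comp f) r := by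
  apply MonoidHom.ext
  intro X
  apply Units.ext
  change (X.val.map f).map g = X.val.map (g.comp f)
  rw [Matrix.map_map]
  rfl

theorem mapL_comp (f : R →+* S) (g : S →+* T) : (mapL g).comp (mapL f) = mapL (g.comp f) := by
  apply RingHom.ext
  intro x
  exact mapL_mapL f g x

theorem of_same {m : ℕ} (s : ℕ) (c : HQ m (GLn R s)) : (HGL.of m R s c) s = c := by
  unfold HGL.of
  exact DirectSum.lof_apply (M := fun r => HQ m (GLn R r)) ℚ s c

theorem of_ne {m : ℕ} {s r : ℕ} (h : ¬ s = r) (c : HQ m (GLn R s)) :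
    (HGL.of m R s c) r = 0 := by
  unfold HGL.of
  rw [DirectSum.lof_eq_of]
  exact DirectSum.of_eq_of_ne (β := fun r => HQ m (GLn R r)) s r c (Ne.symm h)

/-- The components of `hglm`. -/
theorem hglm_apply (m : ℕ) (f : R →+* S) (v : HGL m R) (r : ℕ) :
    (hglm m f v) r = HQ.map m (glm f r) (v r) := by
  induction v using DirectSum.induction_on with
  | zero => rw [map_zero, DirectSum.zero_apply, DirectSum.zero_apply, map_zero]
  | of s c =>
    change (hglm m f (HGL.of m R s c)) r = HQ.map m (glm f r) ((HGL.of m R s c) r)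
    rw [hglm_of]
    by_cases h : s = r
    · subst h
      rw [of_same, of_same]
    · rw [of_ne h, of_ne h, map_zero]
  | add x y hx hy => rw [map_add, DirectSum.add_apply, DirectSum.add_apply, map_add, hx, hy]

end

section

variable {G : Type} [Group G]

/-- The homomorphism of general linear groups for an inclusion of subgroups. -/
def tI {K K' : Subgroup G} (h : K ≤ K') (r : ℕ) :
    GLn (LaurentPolynomial (MonoidAlgebra ℤ K)) r →*
      GLn (LaurentPolynomial (MonoidAlgebra ℤ K')) r :=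
  glm (mapL (gr (Subgroup.inclusion h))) r

theorem tI_comp {K K' K'' : Subgroup G} (h : K ≤ K') (h' : K' ≤ K'') (r : ℕ) :
    (tI h' r).comp (tI h r) = tI (h.trans h') r := by
  unfold tI
  rw [glm_glm, mapL_comp, ← gr_comp]
  rfl

theorem tI_sub {K K' : Subgroup G} (h : K ≤ K') (r : ℕ) :
    (glm (mapL (gr K'.subtype)) r).comp (tI h r) = glm (mapL (gr K.subtype)) r := by
  unfold tI
  rw [glm_glm, mapL_comp, ← gr_comp]
  rfl

theorem die_mono {m : ℕ} {K K' K'' : Subgroup G} (h : K ≤ K') (h' : K' ≤ K'') (r : ℕ)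
    (c : HQ m (GLn (LaurentPolynomial (MonoidAlgebra ℤ K)) r))
    (hc : HQ.map m (tI h r) c = 0) : HQ.map m (tI (h.trans h') r) c = 0 := by
  rw [← tI_comp h h' r, HQ.map_comp, hc, map_zero]

end

end UK2

open UK2 in
theorem t_UK2 (hH : S_UHG) (hM : S_UMG) (hR : S_UMR) : S_UK2 := by
  classical
  intro G _ n G' hG' v hv
  obtain ⟨⟨hL1, hL2⟩, -⟩ := hR G G' hG'
  have key : ∀ r : ℕ, ∃ K : FGS G', HQ.map (n + 1) (tI K.2.1 r) (v r) = 0 := by
    intro r
    obtain ⟨h1, h2⟩ := (hM (FGS G') (fun K => LaurentPolynomial (MonoidAlgebra ℤ K.1))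
        (LaurentPolynomial (MonoidAlgebra ℤ G)) (fun K => mapL (gr K.1.subtype)) hL1 hL2).1 r
    refine (hH (n + 1) (FGS G')
        (fun K => GLn (LaurentPolynomial (MonoidAlgebra ℤ K.1)) r)
        (GLn (LaurentPolynomial (MonoidAlgebra ℤ G)) r)
        (fun K => glm (mapL (gr K.1.subtype)) r) h1 h2).2
      (GLn (LaurentPolynomial (MonoidAlgebra ℤ G')) r) (glm (mapL (gr G'.subtype)) r)
      (fun K => tI K.2.1 r) (fun K x => ?_) (v r) ?_
    · exact congrArg (fun F => F x) (tI_sub K.2.1 r)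
    · rw [← hglm_apply, hv, DirectSum.zero_apply]
  have key2 : ∀ s : Finset ℕ, ∃ K : FGS G', ∀ r ∈ s, HQ.map (n + 1) (tI K.2.1 r) (v r) = 0 := by
    intro s
    induction s using Finset.induction_on with
    | empty => exact ⟨⟨G', le_refl _, hG'⟩, fun r hr => absurd hr (Finset.notMem_empty r)⟩
    | insert a s ha ih =>
      obtain ⟨K1, h1⟩ := ih
      obtain ⟨K2, h2⟩ := key a
      refine ⟨⟨K1.1 ⊔ K2.1, le_trans K1.2.1 le_sup_left, K1.2.2.sup K2.2.2⟩, fun r hr => ?_⟩
      rcases Finset.mem_insert.1 hr with rfl | hr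
      · exact die_mono K2.2.1 (le_sup_right : K2.1 ≤ K1.1 ⊔ K2.1) r (v r) h2
      · exact die_mono K1.2.1 (le_sup_left : K1.1 ≤ K1.1 ⊔ K2.1) r (v r) (h1 r hr)
  obtain ⟨K, hK⟩ := key2 (DFinsupp.support v)
  refine ⟨K.1, K.2.1, K.2.2, DFinsupp.ext fun r => ?_⟩
  refine (hglm_apply (n + 1) (mapL (gr (Subgroup.inclusion K.2.1))) v r).trans ?_
  by_cases hr : r ∈ DFinsupp.support v
  · exact hK r hr
  · have h0 : v r = 0 := DFinsupp.notMem_support_iff.1 hr
    rw [h0, map_zero]
    rfl

end Pool.Agent.FJL
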