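import Pool.Agent.AUK.FJL.St3

/-!
# FJL_UMG: matrices over a directed union of rings
-/

set_option autoImplicit false
set_option linter.unusedSectionVars false

open Matrix Pool.Agent.WhK Pool.Agent.Lib25 CategoryTheory Pool.Agent.FJA

noncomputable section

namespace Pool.Agent.FJL

namespace UMG

variable {R S : Type} [Ring R] [Ring S]

theorem glm_inj (f : R →+* S) (hf : Function.Injective f) (r : ℕ) :
    Function.Injective (glm f r) := by
  intro X Y h
  apply Units.ext
  apply Matrix.map_injective hf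
  exact congrArg Units.val h

/-- A matrix is in the range if its entries and those of the inverse are. -/
theorem lift (f : R →+* S) (hf : Function.Injective f) {r : ℕ} (X : GLn S r)
    (h1 : ∀ i j, X.val i j ∈ f.range) (h2 : ∀ i j, X.inv i j ∈ f.range) :
    X ∈ (glm f r).range := by
  choose Y hY using h1
  choose Z hZ using h2
  have e1 : (Matrix.of Y).map f = X.val := by
    ext i j
    exact hY i j
  have e2 : (Matrix.of Z).map f = X.inv := by
    ext i j
    exact hZ i j
  have e3 : Matrix.of Y * Matrix.of Z = 1 := by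
    apply Matrix.map_injective hf
    change (Matrix.of Y * Matrix.of Z).map f = (1 : Matrix (Fin r) (Fin r) R).map f
    rw [Matrix.map_mul, e1, e2, Matrix.map_one f (map_zero f) (map_one f)]
    exact X.val_inv
  have e4 : Matrix.of Z * Matrix.of Y = 1 := by
    apply Matrix.map_injective hf
    change (Matrix.of Z * Matrix.of Y).map f = (1 : Matrix (Fin r) (Fin r) R).map f
    rw [Matrix.map_mul, e1, e2, Matrix.map_one f (map_zero f) (map_one f)]
    exact X.inv_val
  refine ⟨⟨Matrix.of Y, Matrix.of Z, e3, e4⟩, ?_⟩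
  apply Units.ext
  exact e1

/-- The finite set of all entries. -/
theorem exists_ent {r : ℕ} (A : Finset (GLn S r)) : ∃ B : Finset S, ∀ X ∈ A,
    (∀ i j, X.val i j ∈ B) ∧ ∀ i j, X.inv i j ∈ B := by
  classical
  refine ⟨A.biUnion fun X => (Finset.univ.image fun p : Fin r × Fin r => X.val p.1 p.2) ∪
    (Finset.univ.image fun p : Fin r × Fin r => X.inv p.1 p.2), fun X hX => ⟨fun i j => ?_,
      fun i j => ?_⟩⟩
  · rw [Finset.mem_biUnion]
    exact ⟨X, hX, Finset.mem_union_left _ (Finset.mem_image.2 ⟨(i, j), Finset.mem_univ _, rfl⟩)⟩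
  · rw [Finset.mem_biUnion]
    exact ⟨X, hX, Finset.mem_union_right _ (Finset.mem_image.2 ⟨(i, j), Finset.mem_univ _, rfl⟩)⟩

end UMG

/-- FJL_UMG -/
theorem t_UMG : S_UMG := by
  classical
  intro I Ti _ T _ τ hτ hdir
  refine ⟨fun r => ⟨fun i => UMG.glm_inj (τ i) (hτ i) r, fun A => ?_⟩, fun a b => ⟨fun i => ?_,
    fun A => ?_⟩⟩
  · obtain ⟨B, hB⟩ := UMG.exists_ent A
    obtain ⟨i, hi⟩ := hdir B
    exact ⟨i, fun X hX => UMG.lift (τ i) (hτ i) X (fun j k => hi _ ((hB X hX).1 j k))
      (fun j k => hi _ ((hB X hX).2 j k))⟩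
  · rintro ⟨X, Y⟩ ⟨X', Y'⟩ h
    have h1 : glm (τ i) a X = glm (τ i) a X' := congrArg Prod.fst h
    have h2 : glm (τ i) b Y = glm (τ i) b Y' := congrArg Prod.snd h
    rw [UMG.glm_inj (τ i) (hτ i) a h1, UMG.glm_inj (τ i) (hτ i) b h2]
  · obtain ⟨B, hB⟩ := UMG.exists_ent (A.image Prod.fst)
    obtain ⟨C, hC⟩ := UMG.exists_ent (A.image Prod.snd)
    obtain ⟨i, hi⟩ := hdir (B ∪ C)
    refine ⟨i, fun x hx => ?_⟩
    have hx1 := hB x.1 (Finset.mem_image_of_mem _ hx)
    have hx2 := hC x.2 (Finset.mem_image_of_mem _ hx)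
    obtain ⟨X, hX⟩ := UMG.lift (τ i) (hτ i) x.1
      (fun j k => hi _ (Finset.mem_union_left _ (hx1.1 j k)))
      (fun j k => hi _ (Finset.mem_union_left _ (hx1.2 j k)))
    obtain ⟨Y, hY⟩ := UMG.lift (τ i) (hτ i) x.2
      (fun j k => hi _ (Finset.mem_union_right _ (hx2.1 j k)))
      (fun j k => hi _ (Finset.mem_union_right _ (hx2.2 j k)))
    exact ⟨(X, Y), Prod.ext hX hY⟩

end Pool.Agent.FJL
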