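import Pool.Agent.AUK.FJL.St3

set_option autoImplicit false
set_option linter.unusedSectionVars false

open Matrix Pool.Agent.WhK Pool.Agent.Lib25 CategoryTheory Pool.Agent.FJA

noncomputable section

namespace Pool.Agent.FJL

namespace UMR

theorem gr_inj {C G : Type} [Group C] [Group G] (φ : C →* G) (h : Function.Injective φ) :
    Function.Injective (gr φ) := by
  intro x y hxy
  exact MonoidAlgebra.mapDomain_injective h hxy

/-- every element of the group ring comes from the subgroups containing a finite set -/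
theorem gr_range {G : Type} [Group G] (x : MonoidAlgebra ℤ G) :
    ∃ s : Finset G, ∀ K : Subgroup G, (∀ g ∈ s, g ∈ K) → x ∈ (gr K.subtype).range := by
  classical
  induction x using MonoidAlgebra.induction_on with
  | of g =>
    refine ⟨{g}, fun K hK => ?_⟩
    refine ⟨MonoidAlgebra.of ℤ K ⟨g, hK g (Finset.mem_singleton_self g)⟩, ?_⟩
    rw [gr_of]
    rfl
  | add x y hx hy =>
    obtain ⟨s, hs⟩ := hx
    obtain ⟨t, ht⟩ := hy
    refine ⟨s ∪ t, fun K hK => ?_⟩
    exact add_mem (hs K fun g hg => hK g (Finset.mem_union_left _ hg))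
      (ht K fun g hg => hK g (Finset.mem_union_right _ hg))
  | smul r x hx =>
    obtain ⟨s, hs⟩ := hx
    refine ⟨s, fun K hK => ?_⟩
    exact zsmul_mem (hs K hK) r

theorem mapL_inj {A B : Type} [Ring A] [Ring B] (f : A →+* B) (h : Function.Injective f) :
    Function.Injective (mapL f) := by
  intro x y hxy
  apply KM.lco_ext
  intro n
  apply h
  rw [← KM.lco_mapL, ← KM.lco_mapL, hxy]

theorem mapL_range {G : Type} [Group G] (x : LaurentPolynomial (MonoidAlgebra ℤ G)) :
    ∃ s : Finset G, ∀ K : Subgroup G, (∀ g ∈ s, g ∈ K) → x ∈ (mapL (gr K.subtype)).range := by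
  classical
  induction x using LaurentPolynomial.induction_on' with
  | add x y hx hy =>
    obtain ⟨s, hs⟩ := hx
    obtain ⟨t, ht⟩ := hy
    refine ⟨s ∪ t, fun K hK => ?_⟩
    exact add_mem (hs K fun g hg => hK g (Finset.mem_union_left _ hg))
      (ht K fun g hg => hK g (Finset.mem_union_right _ hg))
  | C_mul_T n a =>
    obtain ⟨s, hs⟩ := gr_range a
    refine ⟨s, fun K hK => ?_⟩
    obtain ⟨b, hb⟩ := hs K hK
    refine ⟨LaurentPolynomial.C b * LaurentPolynomial.T n, ?_⟩
    rw [map_mul]
    have h1 : mapL (gr K.subtype) (LaurentPolynomial.C b) = LaurentPolynomial.C a := by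
      rw [← hb]
      exact mapL_single (gr K.subtype) 0 b
    have h2 : mapL (gr K.subtype) (LaurentPolynomial.T n) = LaurentPolynomial.T n := by
      have h3 := mapL_single (gr K.subtype) n (1 : MonoidAlgebra ℤ K)
      rw [map_one] at h3
      exact h3
    rw [h1, h2]

theorem poly_range {G : Type} [Group G] (x : Polynomial (MonoidAlgebra ℤ G)) :
    ∃ s : Finset G, ∀ K : Subgroup G, (∀ g ∈ s, g ∈ K) →
      x ∈ (Polynomial.mapRingHom (gr K.subtype)).range := by
  classical
  induction x using Polynomial.induction_on' with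
  | add x y hx hy =>
    obtain ⟨s, hs⟩ := hx
    obtain ⟨t, ht⟩ := hy
    refine ⟨s ∪ t, fun K hK => ?_⟩
    exact add_mem (hs K fun g hg => hK g (Finset.mem_union_left _ hg))
      (ht K fun g hg => hK g (Finset.mem_union_right _ hg))
  | monomial n a =>
    obtain ⟨s, hs⟩ := gr_range a
    refine ⟨s, fun K hK => ?_⟩
    obtain ⟨b, hb⟩ := hs K hK
    refine ⟨Polynomial.monomial n b, ?_⟩
    rw [Polynomial.coe_mapRingHom, Polynomial.map_monomial, hb]

/-- finitely many elements -/
theorem fin_range {G X : Type} [Group G] (P : X → Subgroup G → Prop)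
    (h : ∀ x, ∃ s : Finset G, ∀ K : Subgroup G, (∀ g ∈ s, g ∈ K) → P x K) (S : Finset X) :
    ∃ s : Finset G, ∀ K : Subgroup G, (∀ g ∈ s, g ∈ K) → ∀ x ∈ S, P x K := by
  classical
  choose f hf using h
  refine ⟨S.biUnion f, fun K hK x hx => hf x K fun g hg => hK g ?_⟩
  exact Finset.mem_biUnion.2 ⟨x, hx, hg⟩

theorem exists_fgs {G X : Type} [Group G] (G' : Subgroup G) (hG' : G'.FG)
    (P : X → Subgroup G → Prop)
    (h : ∀ x, ∃ s : Finset G, ∀ K : Subgroup G, (∀ g ∈ s, g ∈ K) → P x K) (S : Finset X) :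
    ∃ K : FGS G', ∀ x ∈ S, P x K.1 := by
  obtain ⟨s, hs⟩ := fin_range P h S
  refine ⟨⟨G' ⊔ Subgroup.closure (s : Set G), le_sup_left, ?_⟩, ?_⟩
  · exact hG'.sup ⟨s, rfl⟩
  · refine hs _ fun g hg => ?_
    exact (le_sup_right : Subgroup.closure (s : Set G) ≤ G' ⊔ Subgroup.closure (s : Set G))
      (Subgroup.subset_closure hg)

end UMR

theorem t_UMR : S_UMR := by
  intro G _ G' hG'
  refine ⟨⟨fun K => UMR.mapL_inj _ (UMR.gr_inj _ K.1.subtype_injective), fun S => ?_⟩,
    fun K => ?_, fun S => ?_⟩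
  · exact UMR.exists_fgs G' hG'
      (fun (x : LaurentPolynomial (MonoidAlgebra ℤ G)) K => x ∈ (mapL (gr K.subtype)).range)
      UMR.mapL_range S
  · rw [Polynomial.coe_mapRingHom]
    exact Polynomial.map_injective _ (UMR.gr_inj _ K.1.subtype_injective)
  · exact UMR.exists_fgs G' hG'
      (fun (x : Polynomial (MonoidAlgebra ℤ G)) K =>
        x ∈ (Polynomial.mapRingHom (gr K.subtype)).range)
      UMR.poly_range S

end Pool.Agent.FJL
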