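import Pool.Agent.AUK.FJL.St3

/-!
# UNN: the union theorem for the parts `t = 0` and `t = -1`
-/

set_option autoImplicit false
set_option linter.unusedSectionVars false

open Matrix Pool.Agent.WhK Pool.Agent.Lib25 CategoryTheory Pool.Agent.FJA

noncomputable section

namespace Pool.Agent.FJL

namespace UNN

/-- The conditions of the parts `t = 0` and `t = -1`. -/
def NN {n : ℕ} {G : Type} [Group G] (lam : HQ (n + 1) (G × Multiplicative ℤ) →ₗ[ℚ] ℚ)
    (E : FamA n G) (Γ : Type) [Group Γ] (ι : Γ →* G) : Set (KB n (MonoidAlgebra ℤ Γ) × ℚ) :=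
  {y | (∃ a, y = (tau n Γ a, resL lam ι a)) ∨
    ∃ (C P : Type) (_ : Group C) (_ : Group P) (_ : Finite C) (φ : C →* Γ) (j : P →* Γ)
      (H : ∀ z c, Commute (j z) (φ c)) (x : KNegOne (MonoidAlgebra ℤ C)) (c : HQ (n + 1) P),
      Function.Injective φ ∧ y = (pG n φ j H x c, resA E ι C P φ j H x c)}

theorem fg_range {C G : Type} [Group C] [Group G] [Finite C] (φ : C →* G) : φ.range.FG := by
  have : Finite φ.range := Finite.of_surjective φ.rangeRestrict φ.rangeRestrict_surjective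
  exact (Group.fg_iff_subgroup_fg φ.range).1 inferInstance

theorem fg_map {P G : Type} [Group P] [Group G] {P' : Subgroup P} (h : P'.FG) (j : P →* G) :
    (P'.map j).FG := by
  classical
  obtain ⟨S, rfl⟩ := h
  exact ⟨S.image j, by rw [Finset.coe_image, MonoidHom.map_closure]⟩

end UNN

open UNN in
theorem t_UNN (hUNA : S_UNA) (hNTP : S_NTP) (hUHF : S_UHF) : S_UNN := by
  intro G _ n lam E hE Con ConG hup hfrom hsol
  suffices hs : ∃ Φ : KB n (MonoidAlgebra ℤ G) →ₗ[ℚ] ℚ, ∀ y ∈ ({y | (∃ a, y = (tau n G a, lam a)) ∨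
      ∃ (C P : Type) (_ : Group C) (_ : Group P) (_ : Finite C) (φ : C →* G) (j : P →* G)
        (H : ∀ z c, Commute (j z) (φ c)) (x : KNegOne (MonoidAlgebra ℤ C)) (c : HQ (n + 1) P),
        Function.Injective φ ∧ y = (pG n φ j H x c, E C P φ j H x c)} ∪ ConG :
        Set (KB n (MonoidAlgebra ℤ G) × ℚ)), Φ y.1 = y.2 by
    obtain ⟨Φ, hΦ⟩ := hs
    refine ⟨Φ, ⟨fun a => ?_, ?_⟩, fun y hy => hΦ y (Or.inr hy)⟩
    · exact hΦ (tau n G a, lam a) (Or.inl (Or.inl ⟨a, rfl⟩))
    · intro C P _ _ _ φ j H hφ x c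
      exact hΦ (pG n φ j H x c, E C P φ j H x c)
        (Or.inl (Or.inr ⟨C, P, inferInstance, inferInstance, inferInstance, φ, j, H, x, c, hφ, rfl⟩))
  refine hUNA G n (fun K => NN lam E K K.subtype ∪ Con K) _ ?_ ?_ ?_
  · intro K K' h M hM y hy
    rcases hy with (⟨a, rfl⟩ | ⟨C, P, _, _, _, φ, j, H, x, c, hφ, rfl⟩) | hy
    · left
      left
      refine ⟨HQ.map (n + 1) (MonoidHom.prodMap (Subgroup.inclusion h) (MonoidHom.id _)) a, ?_⟩
      refine Prod.ext ((hNTP n K K' (Subgroup.inclusion h) M hM).2 a) ?_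
      change lam (HQ.map (n + 1) (MonoidHom.prodMap K.subtype (MonoidHom.id _)) a) =
        lam (HQ.map (n + 1) (MonoidHom.prodMap K'.subtype (MonoidHom.id _))
          (HQ.map (n + 1) (MonoidHom.prodMap (Subgroup.inclusion h) (MonoidHom.id _)) a))
      rw [← HQ.map_comp]
      rfl
    · left
      right
      have H' : ∀ z c, Commute ((Subgroup.inclusion h).comp j z)
          ((Subgroup.inclusion h).comp φ c) := fun z c => (H z c).map (Subgroup.inclusion h)
      refine ⟨C, P, inferInstance, inferInstance, inferInstance, (Subgroup.inclusion h).comp φ,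
        (Subgroup.inclusion h).comp j, H', x, c, ?_, ?_⟩
      · exact (Subgroup.inclusion_injective h).comp hφ
      · exact Prod.ext ((hNTP n K K' (Subgroup.inclusion h) M hM).1 C P φ j H H' x c) rfl
    · exact Or.inr (hup K K' h M hM y hy)
  · intro y hy
    rcases hy with (⟨a, rfl⟩ | ⟨C, P, _, _, _, φ, j, H, x, c, hφ, rfl⟩) | hy
    · obtain ⟨P', hP', a', rfl⟩ := hUHF (n + 1) (G × Multiplicative ℤ) a
      let K : Subgroup G := P'.map (MonoidHom.fst G (Multiplicative ℤ))
      let f : P' →* K := ((MonoidHom.fst G (Multiplicative ℤ)).comp P'.subtype).codRestrict K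
        (fun z => ⟨z, z.2, rfl⟩)
      let ψ : P' →* K × Multiplicative ℤ :=
        f.prod ((MonoidHom.snd G (Multiplicative ℤ)).comp P'.subtype)
      have hψ : (MonoidHom.prodMap K.subtype (MonoidHom.id (Multiplicative ℤ))).comp ψ =
          P'.subtype := rfl
      refine ⟨K, fg_map hP' _, tau n K (HQ.map (n + 1) ψ a'), Or.inl (Or.inl
        ⟨HQ.map (n + 1) ψ a', Prod.ext rfl ?_⟩), fun M hM => ?_⟩
      · change lam (HQ.map (n + 1) P'.subtype a') =
          lam (HQ.map (n + 1) (MonoidHom.prodMap K.subtype (MonoidHom.id _))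
            (HQ.map (n + 1) ψ a'))
        rw [← HQ.map_comp, hψ]
      · change M (tau n K (HQ.map (n + 1) ψ a')) = tau n G (HQ.map (n + 1) P'.subtype a')
        rw [(hNTP n K G K.subtype M hM).2, ← HQ.map_comp, hψ]
    · obtain ⟨P', hP', c', rfl⟩ := hUHF (n + 1) P c
      let K : Subgroup G := φ.range ⊔ P'.map j
      let φ' : C →* K := φ.codRestrict K (fun c => (le_sup_left : φ.range ≤ K) ⟨c, rfl⟩)
      let j' : P' →* K := (j.comp P'.subtype).codRestrict K
        (fun z => (le_sup_right : P'.map j ≤ K) ⟨z, z.2, rfl⟩)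
      have H' : ∀ z c, Commute (j' z) (φ' c) := fun z c => Subtype.ext (H z c)
      have H1 : ∀ z c, Commute ((j.comp P'.subtype) z) (φ c) := fun z c => H z c
      refine ⟨K, (fg_range φ).sup (fg_map hP' j), pG n φ' j' H' x c', Or.inl (Or.inr
        ⟨C, P', inferInstance, inferInstance, inferInstance, φ', j', H', x, c', ?_,
          Prod.ext rfl ?_⟩), fun M hM => ?_⟩
      · intro a b hab
        exact hφ (congrArg Subtype.val hab)
      · exact (hE.comp C P P' φ j H P'.subtype (j.comp P'.subtype) H1 (fun z => rfl) x c').symm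
      · refine ((hNTP n K G K.subtype M hM).1 C P' φ' j' H' H1 x c').trans ?_
        exact pG_comp n φ j H P'.subtype (j.comp P'.subtype) H1 (fun z => rfl) x c'
    · obtain ⟨K, h1, v, h2, h3⟩ := hfrom y hy
      exact ⟨K, h1, v, Or.inr h2, h3⟩
  · intro K hK
    obtain ⟨Φ, hΦ, hΦ'⟩ := hsol K hK
    refine ⟨Φ, fun y hy => ?_⟩
    rcases hy with (⟨a, rfl⟩ | ⟨C, P, _, _, _, φ, j, H, x, c, hφ, rfl⟩) | hy
    · exact hΦ.1 a
    · exact hΦ.2 C P φ j H hφ x c
    · exact hΦ' y hy

end Pool.Agent.FJL
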