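import Pool.Agent.AUK.FJL.St2
import Pool.Agent.AUK.FJL.St4

/-!
# FJL_UNO: the union theorem in positive degrees
-/

set_option autoImplicit false
set_option linter.unusedSectionVars false

open Matrix Pool.Agent.WhK Pool.Agent.Lib25 CategoryTheory Pool.Agent.FJA

noncomputable section

namespace Pool.Agent.FJL

namespace UNO

/-- The conditions of the part `t = 1`. -/
inductive CB {m : ℕ} {Γ : Type} [Group Γ] (D : FamB m Γ) :
    KB (m + 1) (MonoidAlgebra ℤ Γ) × ℚ → Prop
  | mk (C P : Type) [Group C] [Group P] [Finite C] (φ : C →* Γ) (j : P →* Γ)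
    (H : ∀ z c, Commute (j z) (φ c)) (hφ : Function.Injective φ) (r : ℕ)
    (X : GLn (MonoidAlgebra ℤ C) r) (Q : HQ m P →ₗ[ℚ] KB (m + 1) (MonoidAlgebra ℤ Γ))
    (hQ : IsQ m φ j r X Q) (c : HQ m P) : CB D (Q c, D C P φ j H r X c)

theorem fg_map {P G : Type} [Group P] [Group G] {P' : Subgroup P} (h : P'.FG) (f : P →* G) :
    (P'.map f).FG := by
  classical
  obtain ⟨S, rfl⟩ := h
  refine ⟨S.image f, ?_⟩
  rw [Finset.coe_image, MonoidHom.map_closure]

end UNO

open UNO in
theorem t_UNO (hN : S_UNN) (hE : S_QEX) (hT : S_QNT) (hF : S_UHF) : S_UNO := by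
  intro G _ m lam E D hEA hD hsol
  suffices key : ∃ Φ : KB (m + 1) (MonoidAlgebra ℤ G) →ₗ[ℚ] ℚ, SolN lam E Φ ∧
      ∀ y ∈ {y | CB D y}, Φ y.1 = y.2 by
    obtain ⟨Φ, h1, h2⟩ := key
    refine ⟨Φ, h1, ?_⟩
    intro C P _ _ _ φ j H hφ r X Q hQ c
    exact h2 _ (CB.mk C P φ j H hφ r X Q hQ c)
  refine hN G (m + 1) lam E hEA (fun K => {y | CB (resB D K.subtype) y}) {y | CB D y} ?_ ?_ ?_
  · intro K K' h M hM y hy
    cases hy with
    | @mk C P _ _ _ φ j H hφ r X Q hQ c =>
      have h1 := (hT C P K φ j m r).2.2.2 K' (Subgroup.inclusion h) X Q M hM hQ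
      exact CB.mk (D := resB D K'.subtype) C P ((Subgroup.inclusion h).comp φ)
        ((Subgroup.inclusion h).comp j) (fun z c => (H z c).map (Subgroup.inclusion h))
        ((Subgroup.inclusion_injective h).comp hφ) r X (M ∘ₗ Q) h1 c
  · intro y hy
    cases hy with
    | @mk C P _ _ _ φ j H hφ r X Q hQ c =>
      obtain ⟨P', hP', c', rfl⟩ := hF m P c
      set K : Subgroup G := φ.range ⊔ P'.map j with hK
      have hKF : K.FG := by
        refine Subgroup.FG.sup ?_ (fg_map hP' j)
        have : Finite φ.range := inferInstance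
        exact (Group.fg_iff_subgroup_fg _).1 (Group.fg_of_finite)
      have hφK : ∀ c, φ c ∈ K := fun c => Subgroup.mem_sup_left ⟨c, rfl⟩
      have hjK : ∀ z : P', (j.comp P'.subtype) z ∈ K := fun z =>
        Subgroup.mem_sup_right ⟨z.1, z.2, rfl⟩
      have H' : ∀ z c, Commute (((j.comp P'.subtype).codRestrict K hjK) z)
          ((φ.codRestrict K hφK) c) := by
        intro z c
        apply Subtype.ext
        exact H z c
      obtain ⟨Q', hQ'⟩ := hE C P' K (φ.codRestrict K hφK) ((j.comp P'.subtype).codRestrict K hjK)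
        H' m r X
      refine ⟨K, hKF, Q' c', ?_, ?_⟩
      · have h1 := CB.mk (D := resB D K.subtype) C P' (φ.codRestrict K hφK)
          ((j.comp P'.subtype).codRestrict K hjK) H'
          (fun a b hab => hφ (congrArg Subtype.val hab)) r X Q' hQ' c'
        have h2 : resB D K.subtype C P' (φ.codRestrict K hφK)
            ((j.comp P'.subtype).codRestrict K hjK) H' r X c' =
            D C P φ j H r X (HQ.map m P'.subtype c') :=
          hD.comp C P P' φ j H P'.subtype (j.comp P'.subtype) _ (fun z => rfl) r X c'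
        rw [h2] at h1
        exact h1
      · intro M hM
        have h1 := (hT C P' K (φ.codRestrict K hφK) ((j.comp P'.subtype).codRestrict K hjK)
          m r).2.2.2 G K.subtype X Q' M hM hQ'
        exact (hT C P G φ j m r).1 P' P'.subtype (j.comp P'.subtype) X Q (M ∘ₗ Q')
          (fun z => rfl) hQ h1 c'
  · intro K hK
    obtain ⟨Φ, h1, h2⟩ := hsol K hK
    refine ⟨Φ, h1, ?_⟩
    intro y hy
    cases hy with
    | @mk C P _ _ _ φ j H hφ r X Q hQ c => exact h2 C P φ j H hφ r X Q hQ c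

end Pool.Agent.FJL
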