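import Pool.Agent.AUK.FJL.Final
import Pool.Agent.AUK.FJL.P_ART
import Pool.Agent.AUK.FJL.P_BFB
import Pool.Agent.AUK.FJL.P_BOX
import Pool.Agent.AUK.FJL.P_DT0
import Pool.Agent.AUK.FJL.P_DTU
import Pool.Agent.AUK.FJL.P_EX0
import Pool.Agent.AUK.FJL.P_EXA
import Pool.Agent.AUK.FJL.P_EXB
import Pool.Agent.AUK.FJL.P_FKN
import Pool.Agent.AUK.FJL.P_FVB
import Pool.Agent.AUK.FJL.P_FVN
import Pool.Agent.AUK.FJL.P_GEN
import Pool.Agent.AUK.FJL.P_INV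
import Pool.Agent.AUK.FJL.P_KNL
import Pool.Agent.AUK.FJL.P_LDA
import Pool.Agent.AUK.FJL.P_LMB
import Pool.Agent.AUK.FJL.P_LMN
import Pool.Agent.AUK.FJL.P_LZ0
import Pool.Agent.AUK.FJL.P_NTP
import Pool.Agent.AUK.FJL.P_QBL
import Pool.Agent.AUK.FJL.P_QMU
import Pool.Agent.AUK.FJL.P_QNT
import Pool.Agent.AUK.FJL.P_QUN
import Pool.Agent.AUK.FJL.P_SOL
import Pool.Agent.AUK.FJL.P_TCZ
import Pool.Agent.AUK.FJL.P_UDM
import Pool.Agent.AUK.FJL.P_UHF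
import Pool.Agent.AUK.FJL.P_UK0
import Pool.Agent.AUK.FJL.P_UK1
import Pool.Agent.AUK.FJL.P_UK2
import Pool.Agent.AUK.FJL.P_UKB
import Pool.Agent.AUK.FJL.P_UMG
import Pool.Agent.AUK.FJL.P_UMR
import Pool.Agent.AUK.FJL.P_UNA
import Pool.Agent.AUK.FJL.P_UNN
import Pool.Agent.AUK.FJL.P_UNO
import Pool.Agent.KM.AllA
import Pool.Agent.KM.AllB
import Pool.Agent.KM.P_TLA

/-!
# FJL: assembly of the modules
-/

set_option autoImplicit false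

noncomputable section

namespace Pool.Agent.FJL

theorem all_UK1 : S_UK1 := t_UK1 t_UHG t_UMG t_UMR

theorem all_UK2 : S_UK2 := t_UK2 t_UHG t_UMG t_UMR

theorem all_UNN : S_UNN :=
  t_UNN (t_UNA (t_KBM t_UK0) (t_UKB t_UK0 all_UK1 all_UK2)) t_NTP t_UHF

theorem all_SOL : S_SOL :=
  t_SOL t_LMN t_FVN t_LMB (t_FVB t_QEX t_QMU t_QBL t_QNT t_QUN t_ART)

/-- The theorem in the dual form. -/
theorem all_MAIN : Dual.Main0 ∧ Dual.MainS :=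
  t_MAIN t_BOX (t_DT0 t_LZ0) (t_TCZ KM.all_UB KM.t_TLA) t_INV (t_GEN KM.all_FIC) all_SOL all_UNN
    (t_UNO all_UNN t_QEX t_QNT t_UHF) (t_AFA t_KNL) t_BFB (t_LDA t_DTU t_UDM) t_FKN t_EX0 t_EXA
    (t_EXB t_QEX)

end Pool.Agent.FJL
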