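import Pool.Agent.AUK.FJB.P_WHX
import Pool.Agent.KM.ZDefs

/-!
# FJL (MP_e40716_gt): the literal source of the assembly map for `t ≤ 1`, definitions

* `Km φ : K_{-1}(ℤ[C]) → K_{-1}(ℤ[G])`, `pG n φ j H : K_{-1}(ℤ[C]) → (H_{n+1}(P) → K_n(ℤ[G]) ⊗ ℚ)`: the product
  for commuting homomorphisms `φ : C → G`, `j : P → G`.
* `Box`: the interface to the theorem FJB (source with symbols).
* `FamA n G`, `IsFA`, `DetA`: linear functionals on the part `t = -1` of the source, written as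
  functionals on triples `(φ : C → G, j : P → G, x ∈ K_{-1}(ℤ[C]), c ∈ H_{n+1}(P))`, `C` finite.
* `FamB m G`, `IsFB`, `DetB`: the same for `t = 1` (`m = n - 1`).
* `chQ`, `IsQ`: the product `H_m(P) × GL_r(ℤ[C]) → K_{m+1}(ℤ[G]) ⊗ ℚ`.
* `IsKm`: the map on `K_n ⊗ ℚ` induced by a ring homomorphism.
-/

set_option autoImplicit false
set_option linter.unusedSectionVars false

open Matrix Pool.Agent.WhK Pool.Agent.Lib25 CategoryTheory Pool.Agent.FJA

noncomputable section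

namespace Pool.Agent.FJL

/-! ## The part `t = -1` -/

section

variable {C C' G G' P Q : Type} [Group C] [Group C'] [Group G] [Group G'] [Group P] [Group Q]

/-- The map `K_{-1}(ℤ[C]) → K_{-1}(ℤ[G])` induced by a homomorphism (the same as `KM.Kg`). -/
abbrev Km (φ : C →* G) : KNegOne (MonoidAlgebra ℤ C) →+ KNegOne (MonoidAlgebra ℤ G) :=
  KNegOne.map (gr φ)

theorem Km_comp (φ : C →* G) (χ : G →* P) (x : KNegOne (MonoidAlgebra ℤ C)) :
    Km χ (Km φ x) = Km (χ.comp φ) x := KM.Kg_comp φ χ x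

theorem Km_id (x : KNegOne (MonoidAlgebra ℤ C)) : Km (MonoidHom.id C) x = x := KM.Kg_id x

/-- The product with coefficients `K_{-1}`. -/
def pG (n : ℕ) (φ : C →* G) (j : P →* G) (H : ∀ z c, Commute (j z) (φ c)) :
    KNegOne (MonoidAlgebra ℤ C) →+ (HQ (n + 1) P →ₗ[ℚ] KB n (MonoidAlgebra ℤ G)) :=
  prodG t_PRI t_BD n φ j H

theorem pG_comp (n : ℕ) (φ : C →* G) (j : P →* G) (H : ∀ z c, Commute (j z) (φ c)) (f : Q →* P)
    (j' : Q →* G) (H' : ∀ z c, Commute (j' z) (φ c)) (hj : ∀ z, j' z = j (f z))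
    (x : KNegOne (MonoidAlgebra ℤ C)) (c : HQ (n + 1) Q) :
    pG n φ j' H' x c = pG n φ j H x (HQ.map (n + 1) f c) :=
  prodG_comp t_PRI t_BD n φ j H f j' H' hj x c

theorem pG_map (n : ℕ) (φ : C →* G) (j : P →* G) (H : ∀ z c, Commute (j z) (φ c)) (α : C' →* C)
    (φ' : C' →* G) (H' : ∀ z c, Commute (j z) (φ' c)) (hφ : φ' = φ.comp α)
    (x : KNegOne (MonoidAlgebra ℤ C')) (c : HQ (n + 1) P) :
    pG n φ' j H' x c = pG n φ j H (Km α x) c :=
  prodG_map t_PRI t_BD n φ j H α φ' H' hφ x c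

theorem pG_conj (n : ℕ) (φ φ' : C →* G) (j j' : P →* G) (H : ∀ z c, Commute (j z) (φ c))
    (H' : ∀ z c, Commute (j' z) (φ' c)) (x : G) (hφ : ∀ c, φ' c = x * φ c * x⁻¹)
    (hj : ∀ z, j' z = x * j z * x⁻¹) (y : KNegOne (MonoidAlgebra ℤ C)) (c : HQ (n + 1) P) :
    pG n φ' j' H' y c = pG n φ j H y c :=
  prodG_conj t_PRI t_BD n φ φ' j j' H H' x hφ hj y c

/-- The value on the class of an idempotent matrix. -/
theorem pG_of (n : ℕ) (φ : C →* G) (j : P →* G) (H : ∀ z c, Commute (j z) (φ c))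
    (e : IdemMat (LaurentPolynomial (MonoidAlgebra ℤ C))) (c : HQ (n + 1) P) :
    pG n φ j H (KNegOne.of e) c = KB.mk n (MonoidAlgebra ℤ G) e.n (HQ.map (n + 1)
      (rhoG (mapL (gr φ)) (cu ((MonoidAlgebra.of ℤ G).comp j)) (comm_cu (comm_of H)) e) c) :=
  prodKN_of t_PRI t_BD n (gr φ) ((MonoidAlgebra.of ℤ G).comp j) (comm_of H) e c

end

/-! ## The undetected parts and the interface to FJB -/

/-- The subspace of `Src n G` spanned by the symbols `[p, h, c]` with `h ≠ 1` of finite order and `c`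
undetected. -/
def UN (n : ℕ) (G : Type) [Group G] : Submodule ℚ (Src n G) :=
  Submodule.span ℚ {x | ∃ (p : ℕ) (h : G) (c : HQ (n + 1) (Cen h)),
    IsOfFinOrder h ∧ h ≠ 1 ∧ Und (n + 1) (Cen h) c ∧ x = sym p h c}

/-- The interface to the theorem FJB. -/
structure Box where
  ε : ∀ N : ℕ, ℕ → IdemMat (LaurentPolynomial (MonoidAlgebra ℤ (Cyc N)))
  A : ∀ (G : Type) [Group G] (n : ℕ), Src n G →ₗ[ℚ] KB n (MonoidAlgebra ℤ G)
  B : ∀ (G : Type) [Group G] (m : ℕ), Src1 m G →ₗ[ℚ] KB (m + 1) (MonoidAlgebra ℤ G)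
  hA : ∀ (G : Type) [Group G] (n : ℕ), IsAssembly ε (A G n)
  hB : ∀ (G : Type) [Group G] (m : ℕ), IsA1 (B G m)
  ext0 : ∀ (G : Type) [Group G] (lam : HQ 1 (G × Multiplicative ℤ) →ₗ[ℚ] ℚ)
    (La : Src 0 G →ₗ[ℚ] ℚ), (∀ a ∈ inG 0 G, lam a = 0) → (∀ x ∈ UN 0 G, La x = 0) →
    ∃ Φ : KB 0 (MonoidAlgebra ℤ G) →ₗ[ℚ] ℚ, (∀ a, Φ (tau 0 G a) = lam a) ∧
      ∀ x, Φ (A G 0 x) = La x
  extS : ∀ (G : Type) [Group G] (m : ℕ), (m ≤ 1 ∨ FJB.PBd G) →
    ∀ (lam : HQ (m + 2) (G × Multiplicative ℤ) →ₗ[ℚ] ℚ) (La : Src (m + 1) G →ₗ[ℚ] ℚ)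
    (Lb : Src1 m G →ₗ[ℚ] ℚ), (∀ a ∈ inG (m + 1) G, lam a = 0) →
    (∀ x ∈ UN (m + 1) G, La x = 0) → (∀ y ∈ Und1 m G, Lb y = 0) →
    ∃ Φ : KB (m + 1) (MonoidAlgebra ℤ G) →ₗ[ℚ] ℚ, (∀ a, Φ (tau (m + 1) G a) = lam a) ∧
      (∀ x, Φ (A G (m + 1) x) = La x) ∧ ∀ y, Φ (B G m y) = Lb y

/-- The universal classes of the interface. -/
def kap (β : Box) (N p : ℕ) : KNegOne (MonoidAlgebra ℤ (Cyc N)) := KNegOne.of (β.ε N p)

/-- The map `A` in terms of the product. -/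
theorem Box.A_sym (β : Box) {G : Type} [Group G] (n N p : ℕ) (φ : Cyc N →* G)
    (c : HQ (n + 1) (Cen (φ (gen N)))) (hN : 0 < N) (hp : p.Prime) (hpN : p ∣ N)
    (hφ : Function.Injective φ) :
    β.A G n (sym p (φ (gen N)) c) =
      pG n φ (Cen (φ (gen N))).subtype (commute_cyc φ) (kap β N p) c :=
  (β.hA G n N p φ c hN hp hpN hφ).trans (prodG_rhoC t_PRI t_BD n (β.ε N p) φ c).symm

/-! ## Functionals on the part `t = -1` of the literal source -/

/-- Functionals on the triples `(φ, j, x ⊗ c)`. -/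
def FamA (n : ℕ) (G : Type) [Group G] : Type 1 :=
  ∀ (C P : Type) [Group C] [Group P] (φ : C →* G) (j : P →* G),
    (∀ z c, Commute (j z) (φ c)) → (KNegOne (MonoidAlgebra ℤ C) →+ (HQ (n + 1) P →ₗ[ℚ] ℚ))

/-- The naturality properties. -/
structure IsFA {n : ℕ} {G : Type} [Group G] (E : FamA n G) : Prop where
  comp : ∀ (C P Q : Type) [Group C] [Group P] [Group Q] [Finite C] (φ : C →* G) (j : P →* G)
    (H : ∀ z c, Commute (j z) (φ c)) (f : Q →* P) (j' : Q →* G)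
    (H' : ∀ z c, Commute (j' z) (φ c)), (∀ z, j' z = j (f z)) →
    ∀ (x : KNegOne (MonoidAlgebra ℤ C)) (c : HQ (n + 1) Q),
      E C Q φ j' H' x c = E C P φ j H x (HQ.map (n + 1) f c)
  map : ∀ (C C' P : Type) [Group C] [Group C'] [Group P] [Finite C] [Finite C'] (φ : C →* G)
    (j : P →* G) (H : ∀ z c, Commute (j z) (φ c)) (α : C' →* C) (φ' : C' →* G)
    (H' : ∀ z c, Commute (j z) (φ' c)), φ' = φ.comp α →
    ∀ (x : KNegOne (MonoidAlgebra ℤ C')) (c : HQ (n + 1) P),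
      E C' P φ' j H' x c = E C P φ j H (Km α x) c
  conj : ∀ (C P : Type) [Group C] [Group P] [Finite C] (φ φ' : C →* G) (j j' : P →* G)
    (H : ∀ z c, Commute (j z) (φ c)) (H' : ∀ z c, Commute (j' z) (φ' c)) (g : G),
    (∀ c, φ' c = g * φ c * g⁻¹) → (∀ z, j' z = g * j z * g⁻¹) →
    ∀ (x : KNegOne (MonoidAlgebra ℤ C)) (c : HQ (n + 1) P),
      E C P φ' j' H' x c = E C P φ j H x c

/-- The functional vanishes on the undetected classes. -/
def DetA {n : ℕ} {G : Type} [Group G] (E : FamA n G) : Prop :=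
  ∀ (N : ℕ), 1 < N → ∀ (φ : Cyc N →* G), Function.Injective φ →
    ∀ (x : KNegOne (MonoidAlgebra ℤ (Cyc N))) (c : HQ (n + 1) (Cen (φ (gen N)))),
      Und (n + 1) (Cen (φ (gen N))) c →
      E (Cyc N) (Cen (φ (gen N))) φ (Cen (φ (gen N))).subtype (commute_cyc φ) x c = 0

/-- The restriction to a group which is mapped to `G`. -/
def resA {n : ℕ} {G Γ : Type} [Group G] [Group Γ] (E : FamA n G) (ι : Γ →* G) : FamA n Γ :=
  fun C P _ _ φ j H => E C P (ι.comp φ) (ι.comp j) (fun z c => (H z c).map ι)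

/-- The family of a functional on `K_n(ℤ[G]) ⊗ ℚ`. -/
def famA {n : ℕ} {G : Type} [Group G] (Φ : KB n (MonoidAlgebra ℤ G) →ₗ[ℚ] ℚ) : FamA n G :=
  fun C P _ _ φ j H =>
    { toFun := fun x => Φ ∘ₗ pG n φ j H x
      map_zero' := by rw [map_zero, LinearMap.comp_zero]
      map_add' := fun x y => by rw [map_add, LinearMap.comp_add] }

theorem famA_apply {n : ℕ} {G : Type} [Group G] (Φ : KB n (MonoidAlgebra ℤ G) →ₗ[ℚ] ℚ)
    (C P : Type) [Group C] [Group P] (φ : C →* G) (j : P →* G) (H : ∀ z c, Commute (j z) (φ c))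
    (x : KNegOne (MonoidAlgebra ℤ C)) (c : HQ (n + 1) P) :
    famA Φ C P φ j H x c = Φ (pG n φ j H x c) := rfl

theorem isFA_famA {n : ℕ} {G : Type} [Group G] (Φ : KB n (MonoidAlgebra ℤ G) →ₗ[ℚ] ℚ) :
    IsFA (famA Φ) where
  comp C P Q _ _ _ _ φ j H f j' H' hj x c := congrArg Φ (pG_comp n φ j H f j' H' hj x c)
  map C C' P _ _ _ _ _ φ j H α φ' H' hφ x c := congrArg Φ (pG_map n φ j H α φ' H' hφ x c)
  conj C P _ _ _ φ φ' j j' H H' g hφ hj x c :=
    congrArg Φ (pG_conj n φ φ' j j' H H' g hφ hj x c)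

theorem isFA_resA {n : ℕ} {G Γ : Type} [Group G] [Group Γ] {E : FamA n G} (hE : IsFA E)
    (ι : Γ →* G) : IsFA (resA E ι) where
  comp C P Q _ _ _ _ φ j H f j' H' hj x c :=
    hE.comp C P Q (ι.comp φ) (ι.comp j) _ f (ι.comp j') _ (fun z => congrArg ι (hj z)) x c
  map C C' P _ _ _ _ _ φ j H α φ' H' hφ x c :=
    hE.map C C' P (ι.comp φ) (ι.comp j) _ α (ι.comp φ') _ (by rw [hφ]; rfl) x c
  conj C P _ _ _ φ φ' j j' H H' g hφ hj x c :=
    hE.conj C P (ι.comp φ) (ι.comp φ') (ι.comp j) (ι.comp j') _ _ (ι g)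
      (fun c => by
        change ι (φ' c) = ι g * ι (φ c) * (ι g)⁻¹
        rw [hφ, map_mul, map_mul, map_inv])
      (fun z => by
        change ι (j' z) = ι g * ι (j z) * (ι g)⁻¹
        rw [hj, map_mul, map_mul, map_inv]) x c

/-! ## The degree functional and the case of `C × ℤ` -/

section Deg

variable {P Q : Type} [Group P] [Group Q]

/-- The functional on the chains. -/
def dg0 (χ : P →* Multiplicative ℤ) : IC ℚ 1 P →ₗ[ℚ] ℚ :=
  Finsupp.linearCombination ℚ (fun g : Fin 1 → P => ((Multiplicative.toAdd (χ (g 0)) : ℤ) : ℚ))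

theorem dg0_single (χ : P →* Multiplicative ℤ) (g : Fin 1 → P) (q : ℚ) :
    dg0 χ (Finsupp.single g q) = q * ((Multiplicative.toAdd (χ (g 0)) : ℤ) : ℚ) := by
  unfold dg0
  rw [Finsupp.linearCombination_single, smul_eq_mul]

theorem dg0_dI (χ : P →* Multiplicative ℤ) (y : IC ℚ 2 P) : dg0 χ (dI ℚ 1 P y) = 0 := by
  induction y using Finsupp.induction_linear with
  | zero => rw [map_zero, map_zero]
  | add a b ha hb => rw [map_add, map_add, ha, hb, add_zero]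
  | single g q =>
    rw [dI_single, Fin.sum_univ_two, map_add, map_add, map_smul, map_smul, dg0_single, dg0_single,
      dg0_single]
    have h1 : (Fin.contractNth (0 : Fin 2) (· * ·) g : Fin 1 → P) 0 = g 0 * g 1 := by
      simp [Fin.contractNth]
    have h2 : (Fin.contractNth (1 : Fin 2) (· * ·) g : Fin 1 → P) 0 = g 0 := by
      simp [Fin.contractNth]
    rw [h1, h2, map_mul, toAdd_mul]
    have h3 : (Fin.succ (0 : Fin 1) : Fin 2) = 1 := rfl
    rw [h3]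
    push_cast
    simp only [smul_eq_mul, Fin.val_zero, Fin.val_one]
    ring

/-- The functional on `H_1(P; ℚ)` given by a homomorphism `P → ℤ`. -/
def dg (χ : P →* Multiplicative ℤ) : HQ 1 P →ₗ[ℚ] ℚ := Hk.lift (dg0 χ) (dg0_dI χ)

theorem dg_cl (χ : P →* Multiplicative ℤ) (z : ZC ℚ 1 P) :
    dg χ (cl ℚ 1 P z) = dg0 χ (ch ℚ 1 P z) := Hk.lift_cl _ _ z

theorem dg_map (χ : P →* Multiplicative ℤ) (f : Q →* P) (c : HQ 1 Q) :
    dg χ (HQ.map 1 f c) = dg (χ.comp f) c := by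
  obtain ⟨z, rfl⟩ := exists_cl (k := ℚ) c
  obtain ⟨y, h1, h2⟩ := Hk.map_cl (k := ℚ) f z
  rw [HQ_map_eq, h1, dg_cl, dg_cl, h2]
  generalize ch ℚ 1 Q z = w
  induction w using Finsupp.induction_linear with
  | zero => rw [map_zero, map_zero, map_zero]
  | add a b ha hb => rw [map_add, map_add, map_add, ha, hb]
  | single g q => rw [IC.map_single, dg0_single, dg0_single]; rfl

/-- The functional vanishes on the undetected classes. -/
theorem dg_und (χ : P →* Multiplicative ℤ) (c : HQ 1 P) (hc : Und 1 P c) : dg χ c = 0 := by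
  refine hc (dg χ) ?_
  intro z hz
  have h1 : dg χ (hcl 1 P z) = dg0 χ (hch 1 P z) := dg_cl χ z
  rw [h1]
  unfold dg0
  rw [Finsupp.linearCombination_apply]
  choose k hk using hz
  refine ⟨∑ g ∈ (hch 1 P z).support, k g * Multiplicative.toAdd (χ (g 0)), ?_⟩
  unfold Finsupp.sum
  push_cast
  refine Finset.sum_congr rfl fun g _ => ?_
  rw [smul_eq_mul, hk]

theorem dg_c1 (χ : P →* Multiplicative ℤ) (g : P) :
    dg χ (FJB.WHX.c1 g) = ((Multiplicative.toAdd (χ g) : ℤ) : ℚ) := by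
  obtain ⟨z, h1, h2⟩ := FJB.WHX.c1_eq g
  rw [h2, dg_cl, h1, AS1.insL_single, Fin.sum_univ_one, dg0_single]
  simp

end Deg

/-- The generator of `ℤ`. -/
abbrev tZ : Multiplicative ℤ := Multiplicative.ofAdd 1

/-- The class of the generator. -/
def cZ : HQ 1 (Multiplicative ℤ) := FJB.WHX.c1 tZ

theorem commZ (C : Type) [Group C] (z : Multiplicative ℤ) (c : C) :
    Commute (MonoidHom.inr C (Multiplicative ℤ) z) (MonoidHom.inl C (Multiplicative ℤ) c) := by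
  apply Prod.ext
  · exact (one_mul c).trans (mul_one c).symm
  · exact (mul_one z).trans (one_mul z).symm

/-- The product `K_{-1}(ℤ[C]) → K_0(ℤ[C × ℤ]) ⊗ ℚ` with the class of the generator of `ℤ`. -/
def lz (C : Type) [Group C] :
    KNegOne (MonoidAlgebra ℤ C) →+ KB 0 (MonoidAlgebra ℤ (C × Multiplicative ℤ)) where
  toFun x := pG 0 (MonoidHom.inl C (Multiplicative ℤ)) (MonoidHom.inr C (Multiplicative ℤ))
    (commZ C) x cZ
  map_zero' := by rw [map_zero, LinearMap.zero_apply]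
  map_add' x y := by rw [map_add, LinearMap.add_apply]

/-! ## Functionals on the part `t = 1` of the literal source -/

section Q

variable {S : Type} [Ring S] {P : Type} [Group P]

/-- A homomorphism from a group to the units of a ring, as a homomorphism to the diagonal matrices. -/
def glr (r : ℕ) (u : P →* S) : P →* GLn S r where
  toFun z := ⟨Matrix.diagonal fun _ => u z, Matrix.diagonal fun _ => u z⁻¹,
    by
      rw [Matrix.diagonal_mul_diagonal, ← Matrix.diagonal_one]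
      congr 1
      funext _
      rw [← map_mul, mul_inv_cancel, map_one],
    by
      rw [Matrix.diagonal_mul_diagonal, ← Matrix.diagonal_one]
      congr 1
      funext _
      rw [← map_mul, inv_mul_cancel, map_one]⟩
  map_one' := by
    apply Units.ext
    change (Matrix.diagonal fun _ => u 1) = 1
    rw [map_one, Matrix.diagonal_one]
  map_mul' y z := by
    apply Units.ext
    change (Matrix.diagonal fun _ => u (y * z)) =
      (Matrix.diagonal fun _ => u y) * (Matrix.diagonal fun _ => u z)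
    rw [Matrix.diagonal_mul_diagonal, map_mul]

end Q

section Q1

variable {C G P : Type} [Group C] [Group G] [Group P]

/-- The element `g` of `G` as a scalar matrix over `ℤ[G][t,t⁻¹]`. -/
abbrev scG (G : Type) [Group G] (r : ℕ) : G →* GLn (LaurentPolynomial (MonoidAlgebra ℤ G)) r :=
  glr r elt

/-- The chain `x × [X] × [t]`. -/
def chQ (m : ℕ) (φ : C →* G) (j : P →* G) (r : ℕ) (X : GLn (MonoidAlgebra ℤ C) r)
    (x : IC ℚ m P) : IC ℚ (m + 2) (GLn (LaurentPolynomial (MonoidAlgebra ℤ G)) r) :=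
  insL (m + 1) (FJB.WHX.tI (MonoidAlgebra ℤ G) r)
    (insL m (glm ((cst (MonoidAlgebra ℤ G)).comp (gr φ)) r X)
      (IC.map ℚ m (fun z => scG G r (j z)) x))

/-- `Q` is the product with the class of `X`. -/
def IsQ (m : ℕ) (φ : C →* G) (j : P →* G) (r : ℕ) (X : GLn (MonoidAlgebra ℤ C) r)
    (Q : HQ m P →ₗ[ℚ] KB (m + 1) (MonoidAlgebra ℤ G)) : Prop :=
  ∀ z : ZC ℚ m P, ∃ z' : ZC ℚ (m + 2) (GLn (LaurentPolynomial (MonoidAlgebra ℤ G)) r),
    ch ℚ (m + 2) _ z' = chQ m φ j r X (ch ℚ m P z) ∧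
    Q (cl ℚ m P z) = KB.mk (m + 1) (MonoidAlgebra ℤ G) r (cl ℚ (m + 2) _ z')

theorem IsQ.uniq {m : ℕ} {φ : C →* G} {j : P →* G} {r : ℕ} {X : GLn (MonoidAlgebra ℤ C) r}
    {Q Q' : HQ m P →ₗ[ℚ] KB (m + 1) (MonoidAlgebra ℤ G)} (h : IsQ m φ j r X Q)
    (h' : IsQ m φ j r X Q') : Q = Q' := by
  apply LinearMap.ext
  intro c
  obtain ⟨z, rfl⟩ := exists_cl (k := ℚ) c
  obtain ⟨z1, h1, h2⟩ := h z
  obtain ⟨z2, h3, h4⟩ := h' z
  rw [h2, h4, cl_congr (h1.trans h3.symm)]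

end Q1

/-- Functionals on the triples `(φ, j, X ⊗ c)`. -/
def FamB (m : ℕ) (G : Type) [Group G] : Type 1 :=
  ∀ (C P : Type) [Group C] [Group P] (φ : C →* G) (j : P →* G),
    (∀ z c, Commute (j z) (φ c)) → ∀ r : ℕ, GLn (MonoidAlgebra ℤ C) r → (HQ m P →ₗ[ℚ] ℚ)

/-- Additivity and naturality. -/
structure IsFB {m : ℕ} {G : Type} [Group G] (D : FamB m G) : Prop where
  mul : ∀ (C P : Type) [Group C] [Group P] [Finite C] (φ : C →* G) (j : P →* G)
    (H : ∀ z c, Commute (j z) (φ c)) (r : ℕ) (X Y : GLn (MonoidAlgebra ℤ C) r),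
    D C P φ j H r (X * Y) = D C P φ j H r X + D C P φ j H r Y
  blk : ∀ (C P : Type) [Group C] [Group P] [Finite C] (φ : C →* G) (j : P →* G)
    (H : ∀ z c, Commute (j z) (φ c)) (a b : ℕ) (X : GLn (MonoidAlgebra ℤ C) a)
    (Y : GLn (MonoidAlgebra ℤ C) b),
    D C P φ j H (a + b) (bsumHom (MonoidAlgebra ℤ C) a b (X, Y)) =
      D C P φ j H a X + D C P φ j H b Y
  comp : ∀ (C P Q : Type) [Group C] [Group P] [Group Q] [Finite C] (φ : C →* G) (j : P →* G)
    (H : ∀ z c, Commute (j z) (φ c)) (f : Q →* P) (j' : Q →* G)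
    (H' : ∀ z c, Commute (j' z) (φ c)), (∀ z, j' z = j (f z)) →
    ∀ (r : ℕ) (X : GLn (MonoidAlgebra ℤ C) r) (c : HQ m Q),
      D C Q φ j' H' r X c = D C P φ j H r X (HQ.map m f c)
  map : ∀ (C C' P : Type) [Group C] [Group C'] [Group P] [Finite C] [Finite C'] (φ : C →* G)
    (j : P →* G) (H : ∀ z c, Commute (j z) (φ c)) (α : C' →* C) (φ' : C' →* G)
    (H' : ∀ z c, Commute (j z) (φ' c)), φ' = φ.comp α →
    ∀ (r : ℕ) (X : GLn (MonoidAlgebra ℤ C') r) (c : HQ m P),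
      D C' P φ' j H' r X c = D C P φ j H r (glm (gr α) r X) c
  conj : ∀ (C P : Type) [Group C] [Group P] [Finite C] (φ φ' : C →* G) (j j' : P →* G)
    (H : ∀ z c, Commute (j z) (φ c)) (H' : ∀ z c, Commute (j' z) (φ' c)) (g : G),
    (∀ c, φ' c = g * φ c * g⁻¹) → (∀ z, j' z = g * j z * g⁻¹) →
    ∀ (r : ℕ) (X : GLn (MonoidAlgebra ℤ C) r) (c : HQ m P),
      D C P φ' j' H' r X c = D C P φ j H r X c

/-- The functional vanishes on the undetected classes. -/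
def DetB {m : ℕ} {G : Type} [Group G] (D : FamB m G) : Prop :=
  ∀ (N : ℕ), 1 < N → ∀ (φ : Cyc N →* G), Function.Injective φ →
    ∀ (r : ℕ) (X : GLn (MonoidAlgebra ℤ (Cyc N)) r) (c : HQ m (Cen (φ (gen N)))),
      Und m (Cen (φ (gen N))) c →
      D (Cyc N) (Cen (φ (gen N))) φ (Cen (φ (gen N))).subtype (commute_cyc φ) r X c = 0

/-- The restriction to a group which is mapped to `G`. -/
def resB {m : ℕ} {G Γ : Type} [Group G] [Group Γ] (D : FamB m G) (ι : Γ →* G) : FamB m Γ :=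
  fun C P _ _ φ j H r X => D C P (ι.comp φ) (ι.comp j) (fun z c => (H z c).map ι) r X

theorem isFB_resB {m : ℕ} {G Γ : Type} [Group G] [Group Γ] {D : FamB m G} (hD : IsFB D)
    (ι : Γ →* G) : IsFB (resB D ι) where
  mul C P _ _ _ φ j H r X Y := hD.mul C P (ι.comp φ) (ι.comp j) _ r X Y
  blk C P _ _ _ φ j H a b X Y := hD.blk C P (ι.comp φ) (ι.comp j) _ a b X Y
  comp C P Q _ _ _ _ φ j H f j' H' hj r X c :=
    hD.comp C P Q (ι.comp φ) (ι.comp j) _ f (ι.comp j') _ (fun z => congrArg ι (hj z)) r X c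
  map C C' P _ _ _ _ _ φ j H α φ' H' hφ r X c :=
    hD.map C C' P (ι.comp φ) (ι.comp j) _ α (ι.comp φ') _ (by rw [hφ]; rfl) r X c
  conj C P _ _ _ φ φ' j j' H H' g hφ hj r X c :=
    hD.conj C P (ι.comp φ) (ι.comp φ') (ι.comp j) (ι.comp j') _ _ (ι g)
      (fun c => by
        change ι (φ' c) = ι g * ι (φ c) * (ι g)⁻¹
        rw [hφ, map_mul, map_mul, map_inv])
      (fun z => by
        change ι (j' z) = ι g * ι (j z) * (ι g)⁻¹
        rw [hj, map_mul, map_mul, map_inv]) r X c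

/-! ## Solutions -/

/-- `Φ` has the prescribed values on the parts `t = 0` and `t = -1`. -/
def SolN {n : ℕ} {G : Type} [Group G] (lam : HQ (n + 1) (G × Multiplicative ℤ) →ₗ[ℚ] ℚ)
    (E : FamA n G) (Φ : KB n (MonoidAlgebra ℤ G) →ₗ[ℚ] ℚ) : Prop :=
  (∀ a, Φ (tau n G a) = lam a) ∧
  ∀ (C P : Type) [Group C] [Group P] [Finite C] (φ : C →* G) (j : P →* G)
    (H : ∀ z c, Commute (j z) (φ c)), Function.Injective φ →
    ∀ (x : KNegOne (MonoidAlgebra ℤ C)) (c : HQ (n + 1) P),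
      Φ (pG n φ j H x c) = E C P φ j H x c

/-- `Φ` has the prescribed values on the part `t = 1`. -/
def SolO {m : ℕ} {G : Type} [Group G] (D : FamB m G)
    (Φ : KB (m + 1) (MonoidAlgebra ℤ G) →ₗ[ℚ] ℚ) : Prop :=
  ∀ (C P : Type) [Group C] [Group P] [Finite C] (φ : C →* G) (j : P →* G)
    (H : ∀ z c, Commute (j z) (φ c)), Function.Injective φ →
    ∀ (r : ℕ) (X : GLn (MonoidAlgebra ℤ C) r) (Q : HQ m P →ₗ[ℚ] KB (m + 1) (MonoidAlgebra ℤ G)),
      IsQ m φ j r X Q → ∀ c, Φ (Q c) = D C P φ j H r X c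

/-! ## Change of rings -/

/-- `M` is the map `K_n(R) ⊗ ℚ → K_n(S) ⊗ ℚ` induced by `f`. -/
def IsKm {R S : Type} [Ring R] [Ring S] (n : ℕ) (f : R →+* S) (M : KB n R →ₗ[ℚ] KB n S) : Prop :=
  ∀ (r : ℕ) (c : HQ (n + 1) (GLn (LaurentPolynomial R) r)),
    M (KB.mk n R r c) = KB.mk n S r (HQ.map (n + 1) (glm (mapL f) r) c)

end Pool.Agent.FJL
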