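import Pool.Agent.AUK.FJB.P_KUN
import Pool.Agent.AUK.FJL.St4

/-!
# The final theorem from the modules
-/

set_option autoImplicit false
set_option linter.unusedSectionVars false

open Matrix Pool.Agent.WhK Pool.Agent.Lib25 CategoryTheory Pool.Agent.FJA

noncomputable section

namespace Pool.Agent.FJL

theorem resL_inG {n : ℕ} {G Γ : Type} [Group G] [Group Γ]
    {lam : HQ (n + 1) (G × Multiplicative ℤ) →ₗ[ℚ] ℚ}
    (h : ∀ c, lam (Hk.map ℚ (n + 1) (MonoidHom.inl G (Multiplicative ℤ)) c) = 0) (ι : Γ →* G) :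
    ∀ a ∈ inG n Γ, resL lam ι a = 0 := by
  rintro _ ⟨c, rfl⟩
  change lam (HQ.map (n + 1) (MonoidHom.prodMap ι (MonoidHom.id (Multiplicative ℤ)))
    (HQ.map (n + 1) (MonoidHom.inl Γ (Multiplicative ℤ)) c)) = 0
  rw [← HQ.map_comp]
  have h1 : (MonoidHom.prodMap ι (MonoidHom.id (Multiplicative ℤ))).comp
      (MonoidHom.inl Γ (Multiplicative ℤ)) = (MonoidHom.inl G (Multiplicative ℤ)).comp ι := by
    ext x <;> simp
  rw [h1, HQ.map_comp]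
  exact h _

theorem t_MAIN (hBOX : S_BOX) (hDT0 : S_DT0) (hTCZ : S_TCZ) (hINV : S_INV) (hGEN : S_GEN)
    (hSOL : S_SOL) (hUNN : S_UNN) (hUNO : S_UNO) (hAFA : S_AFA) (hBFB : S_BFB) (hLDA : S_LDA)
    (hFKN : S_FKN) (hEX0 : S_EX0) (hEXA : S_EXA) (hEXB : S_EXB) : Dual.Main0 ∧ Dual.MainS := by
  obtain ⟨β⟩ := hBOX
  have h1 := hTCZ β (hDT0 β)
  have hIV := hINV β h1.2
  have hGN := hGEN β h1.1
  obtain ⟨hS0, hSS⟩ := hSOL β hIV hGN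
  refine ⟨?_, ?_⟩
  · intro G _ f A hA hdet
    obtain ⟨E, hE, hEA⟩ := hAFA 0 G A hA
    obtain ⟨lam, hl1, hl2⟩ := FJB.t_KUN (show HQ 0 G →ₗ[ℚ] ℚ from f)
    obtain ⟨Φ, hΦ, -⟩ := hUNN G 0 lam E hE (fun _ => ∅) ∅ (fun _ _ _ _ _ y hy => hy.elim)
      (fun y hy => hy.elim) (fun K hK => by
        obtain ⟨Φ, hΦ⟩ := hS0 K (resL lam K.subtype) (resA E K.subtype) (isFA_resA hE _)
          (hLDA.1 0 G A E hEA hdet K hK) (resL_inG hl1 K.subtype)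
        exact ⟨Φ, hΦ, fun y hy => hy.elim⟩)
    exact ⟨FF Φ, hFKN 0 G Φ, hEX0 0 G f lam hl2 Φ hΦ.1, hEXA 0 G A E hEA lam Φ hΦ⟩
  · intro G _ m hm f A B hA hB hdA hdB
    obtain ⟨E, hE, hEA⟩ := hAFA (m + 1) G A hA
    obtain ⟨D, hD, hDB⟩ := hBFB m G B hB
    obtain ⟨lam, hl1, hl2⟩ := FJB.t_KUN (show HQ (m + 1) G →ₗ[ℚ] ℚ from f)
    obtain ⟨Φ, hΦ, hΦ'⟩ := hUNO G m lam E D hE hD (fun K hK =>
      hSS K m (hm.imp id fun h => h K hK) (resL lam K.subtype) (resA E K.subtype)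
        (resB D K.subtype) (isFA_resA hE _) (hLDA.1 (m + 1) G A E hEA hdA K hK) (isFB_resB hD _)
        (hLDA.2 m G B D hDB hdB K hK) (resL_inG hl1 K.subtype))
    exact ⟨FF Φ, hFKN (m + 1) G Φ, hEX0 (m + 1) G f lam hl2 Φ hΦ.1,
      hEXA (m + 1) G A E hEA lam Φ hΦ, hEXB m G B D hDB Φ hΦ'⟩

end Pool.Agent.FJL
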