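import Pool.Agent.AUK.FJL.P_EXA
import Pool.Agent.AUK.FJL.P_EXB
import Pool.Agent.AUK.FJL.P_KNL
import Pool.Agent.AUK.FJL.P_QBL
import Pool.Agent.AUK.FJL.P_QMU
import Pool.Agent.AUK.FJL.P_QNT

/-!
# RST: restriction of functionals to the literal source

Every linear functional on `K_n(ℤ[G]) ⊗ ℚ` restricts to a functional on the source: the assembly map is well
defined on the literal source.
-/

set_option autoImplicit false
set_option linter.unusedSectionVars false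

open Matrix Pool.Agent.WhK Pool.Agent.Lib25 CategoryTheory Pool.Agent.FJA

noncomputable section

namespace Pool.Agent.FJL

/-- Restriction in degree `n`, the parts `t = 0` and `t = -1`. -/
def S_RS0 : Prop := ∀ (n : ℕ) (G : Type) [Group G]
  (F : ∀ r : ℕ, OD.Coh (n + 1) (OD.GLr (OD.LG G) r)), OD.IsKn F →
  ∃ (f : OD.Coh n G) (A : ∀ (H : Subgroup G) (r : ℕ),
    Matrix (Fin r) (Fin r) (OD.LG H) → OD.Coh (n + 1) (Dual.CG H)),
    Dual.IsA A ∧ Dual.Ext0 f (F 1) ∧ Dual.ExtA A F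

/-- Restriction in degree `m + 1`, the part `t = 1`. -/
def S_RS1 : Prop := ∀ (m : ℕ) (G : Type) [Group G]
  (F : ∀ r : ℕ, OD.Coh (m + 2) (OD.GLr (OD.LG G) r)), OD.IsKn F →
  ∃ B : ∀ (H : Subgroup G) (r : ℕ), OD.GLr (MonoidAlgebra ℤ H) r →
    OD.Coh m (Dual.CG H), Dual.IsB B ∧ Dual.ExtB B F

namespace RST

variable {n : ℕ} {G : Type} [Group G]

theorem ext_ev {m : ℕ} {Γ : Type} [Group Γ] {f g : OD.Coh m Γ} (h : ∀ c, f.ev c = g.ev c) :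
    f = g := LinearMap.ext h

theorem ev_pull {m : ℕ} {Γ Δ : Type} [Group Γ] [Group Δ] (u : Γ →* Δ) (f : OD.Coh m Δ)
    (c : HQ m Γ) : (f.pull u).ev c = f.ev (HQ.map m u c) := rfl

/-! ## The functional on `KB` -/

theorem hom_ext {R : Type} [Ring R] {a b : ℕ}
    {s : OD.GLr R a × OD.GLr R b →* OD.GLr R (a + b)}
    (h : ∀ X, OD.Blk X.1 X.2 (s X)) : s = bsumHom R a b :=
  MonoidHom.ext fun X => Units.ext (h X)

theorem exists_Phi {F : ∀ r : ℕ, OD.Coh (n + 1) (OD.GLr (OD.LG G) r)}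
    (hF : OD.IsKn F) :
    ∃ Φ : KB n (MonoidAlgebra ℤ G) →ₗ[ℚ] ℚ, ∀ r, FF Φ r = F r := by
  let R := MonoidAlgebra ℤ G
  let F' : ∀ r : ℕ, HQ (n + 1) (GLn (LaurentPolynomial R) r) →ₗ[ℚ] ℚ := F
  let Φ0 : HGL (n + 1) (LaurentPolynomial R) →ₗ[ℚ] ℚ := DirectSum.toModule ℚ ℕ ℚ F'
  have h0 : ∀ (r : ℕ) (c : HQ (n + 1) (GLn (LaurentPolynomial R) r)),
      Φ0 (HGL.of (n + 1) (LaurentPolynomial R) r c) = (F r).ev c := fun r c =>
    DirectSum.toModule_lof (M := fun r => HQ (n + 1) (GLn (LaurentPolynomial R) r)) (φ := F') ℚ r c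
  have hle0 : blockRel (n + 1) (LaurentPolynomial R) ≤ LinearMap.ker Φ0 := by
    unfold blockRel
    rw [Submodule.span_le]
    rintro _ ⟨a, b, c, rfl⟩
    rw [SetLike.mem_coe, LinearMap.mem_ker, map_sub, map_sub, h0, h0, h0, sub_sub, sub_eq_zero]
    obtain ⟨s, h1, h2⟩ := hF.1 a b
    rw [hom_ext h1] at h2
    have h3 := congrArg (fun g : OD.Coh (n + 1) (OD.GLr (OD.LG G) a ×
      OD.GLr (OD.LG G) b) => g.ev c) h2
    exact h3
  let Φ1 : KQ (n + 1) (LaurentPolynomial R) →ₗ[ℚ] ℚ :=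
    (blockRel (n + 1) (LaurentPolynomial R)).liftQ Φ0 hle0
  have h1 : ∀ (r : ℕ) (c : HQ (n + 1) (GLn (LaurentPolynomial R) r)),
      Φ1 (KQ.mk (n + 1) (LaurentPolynomial R) r c) = (F r).ev c := h0
  have him : ∀ f : Polynomial R →+* LaurentPolynomial R,
      (∀ x, f (Polynomial.C x) = LaurentPolynomial.C x) →
      (f Polynomial.X = LaurentPolynomial.T 1 ∨ f Polynomial.X = LaurentPolynomial.T (-1)) →
      KQ.im (n + 1) f ≤ LinearMap.ker Φ1 := by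
    intro f hf1 hf2
    unfold KQ.im
    rw [Submodule.span_le]
    rintro _ ⟨r, c, rfl⟩
    rw [SetLike.mem_coe, LinearMap.mem_ker, h1]
    have h3 := congrArg (fun g : OD.Coh (n + 1) (OD.GLr (Polynomial R) r) => g.ev c)
      (hF.2 f hf1 hf2 r)
    exact h3
  have hle1 : KQ.im (n + 1) (posIncl R) ⊔ KQ.im (n + 1) (negIncl R) ≤ LinearMap.ker Φ1 :=
    sup_le (him _ KNL.pos_C (Or.inl KNL.pos_X)) (him _ KNL.neg_C (Or.inr KNL.neg_X))
  refine ⟨(KQ.im (n + 1) (posIncl R) ⊔ KQ.im (n + 1) (negIncl R)).liftQ Φ1 hle1, fun r => ?_⟩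
  exact ext_ev fun c => h1 r c

/-! ## The part `t = -1` -/

open scoped Classical in
/-- The restriction to the part `t = -1`. -/
def rA (Φ : KB n (MonoidAlgebra ℤ G) →ₗ[ℚ] ℚ) (H : Subgroup G) (r : ℕ)
    (e : Matrix (Fin r) (Fin r) (OD.LG H)) : OD.Coh (n + 1) (Dual.CG H) :=
  if he : e * e = e then
    (show HQ (n + 1) (Dual.CG H) →ₗ[ℚ] ℚ from
      Φ ∘ₗ pG n H.subtype (Dual.CG H).subtype (commute_CG H) (KNegOne.of ⟨r, e, he⟩))
  else (show HQ (n + 1) (Dual.CG H) →ₗ[ℚ] ℚ from 0)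

theorem rA_ev (Φ : KB n (MonoidAlgebra ℤ G) →ₗ[ℚ] ℚ) (H : Subgroup G) (r : ℕ)
    (e : Matrix (Fin r) (Fin r) (OD.LG H)) (he : e * e = e) (c : HQ (n + 1) (Dual.CG H)) :
    (rA Φ H r e).ev c =
      Φ (pG n H.subtype (Dual.CG H).subtype (commute_CG H) (KNegOne.of ⟨r, e, he⟩) c) := by
  unfold rA
  rw [dif_pos he]
  rfl

theorem rA_add (Φ : KB n (MonoidAlgebra ℤ G) →ₗ[ℚ] ℚ) (H : Subgroup G)
    (x y z : IdemMat (LaurentPolynomial (MonoidAlgebra ℤ H)))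
    (h : KNegOne.of z = KNegOne.of x + KNegOne.of y) :
    rA Φ H z.n z.mat = rA Φ H x.n x.mat + rA Φ H y.n y.mat := by
  refine ext_ev fun c => ?_
  have h1 : (rA Φ H x.n x.mat + rA Φ H y.n y.mat).ev c =
      (rA Φ H x.n x.mat).ev c + (rA Φ H y.n y.mat).ev c := rfl
  rw [h1, rA_ev Φ H _ _ z.idem, rA_ev Φ H _ _ x.idem, rA_ev Φ H _ _ y.idem]
  have h2 : (⟨z.n, z.mat, z.idem⟩ : IdemMat (LaurentPolynomial (MonoidAlgebra ℤ H))) = z := rfl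
  have h3 : (⟨x.n, x.mat, x.idem⟩ : IdemMat (LaurentPolynomial (MonoidAlgebra ℤ H))) = x := rfl
  have h4 : (⟨y.n, y.mat, y.idem⟩ : IdemMat (LaurentPolynomial (MonoidAlgebra ℤ H))) = y := rfl
  rw [h2, h3, h4, h, map_add, LinearMap.add_apply, map_add]

theorem map_zero_of {R : Type} [Ring R] (j : Polynomial R →+* LaurentPolynomial R)
    (hC : ∀ x, j (Polynomial.C x) = LaurentPolynomial.C x)
    (hX : j Polynomial.X = LaurentPolynomial.T 1 ∨ j Polynomial.X = LaurentPolynomial.T (-1))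
    (e : IdemMat (Polynomial R)) : KNegOne.of (e.map j) = 0 := by
  have h1 : KNegOne.of (e.map j) = KNegOne.mk (K0.map j (K0.of e)) := by
    rw [K0.map_of]
    rfl
  rw [h1]
  refine (QuotientAddGroup.eq_zero_iff _).2 ?_
  unfold extImage
  rcases hX with hX | hX
  · have h2 : j = posIncl R :=
      Polynomial.ringHom_ext (fun a => (hC a).trans (KNL.pos_C a).symm) (hX.trans KNL.pos_X.symm)
    rw [h2]
    exact AddSubgroup.mem_sup_left ⟨K0.of e, rfl⟩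
  · have h2 : j = negIncl R :=
      Polynomial.ringHom_ext (fun a => (hC a).trans (KNL.neg_C a).symm) (hX.trans KNL.neg_X.symm)
    rw [h2]
    exact AddSubgroup.mem_sup_right ⟨K0.of e, rfl⟩

theorem isKm1_rA (Φ : KB n (MonoidAlgebra ℤ G) →ₗ[ℚ] ℚ) (H : Subgroup G) :
    Dual.IsKm1 (rA Φ H) := by
  refine ⟨fun r s x y h1 h2 => ?_, fun r s e f he hf => ?_, fun j hC hX r e he => ?_⟩
  · refine ext_ev fun c => ?_
    rw [rA_ev Φ H r (x * y) h1, rA_ev Φ H s (y * x) h2]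
    have h3 : KNegOne.of (⟨r, x * y, h1⟩ : IdemMat (LaurentPolynomial (MonoidAlgebra ℤ H))) =
        KNegOne.of ⟨s, y * x, h2⟩ := KNegOne.of_congr ⟨x, y, rfl, rfl⟩
    rw [h3]
  · exact rA_add Φ H ⟨r, e, he⟩ ⟨s, f, hf⟩ (IdemMat.add ⟨r, e, he⟩ ⟨s, f, hf⟩)
      (KNegOne.of_add ⟨r, e, he⟩ ⟨s, f, hf⟩)
  · refine ext_ev fun c => ?_
    have h1 := map_zero_of j hC hX ⟨r, e, he⟩
    refine (rA_ev Φ H r (e.map j) ((⟨r, e, he⟩ : IdemMat _).map j).idem c).trans ?_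
    have h2 : KNegOne.of (⟨r, e.map j, ((⟨r, e, he⟩ : IdemMat _).map j).idem⟩ :
        IdemMat (LaurentPolynomial (MonoidAlgebra ℤ H))) = 0 := h1
    rw [h2, map_zero, LinearMap.zero_apply, map_zero]
    rfl

theorem isA_rA (Φ : KB n (MonoidAlgebra ℤ G) →ₗ[ℚ] ℚ) : Dual.IsA (rA Φ) := by
  refine ⟨fun H _ => isKm1_rA Φ H, fun H H' g φ u hH hH' hgu r e he => ?_⟩
  obtain ⟨hg, hu⟩ := hgu
  refine ext_ev fun c => ?_
  let ε : IdemMat (LaurentPolynomial (MonoidAlgebra ℤ H)) := ⟨r, e, he⟩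
  have h0 : KNegOne.of (ε.map (mapL (gr φ))) = Km φ (KNegOne.of ε) := (KNegOne.map_of (gr φ) ε).symm
  refine (rA_ev Φ H' r (e.map (Dual.lm φ)) (ε.map (mapL (gr φ))).idem c).trans ?_
  have h1 : KNegOne.of (⟨r, e.map (Dual.lm φ), (ε.map (mapL (gr φ))).idem⟩ :
      IdemMat (LaurentPolynomial (MonoidAlgebra ℤ H'))) = Km φ (KNegOne.of ε) := h0
  rw [h1, ev_pull, rA_ev Φ H r e he]
  have hcomm : ∀ (z : Dual.CG H') (c : H), Commute ((Dual.CG H').subtype z)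
      ((H'.subtype.comp φ) c) := fun z c => commute_CG H' z (φ c)
  have hcomm2 : ∀ (z : Dual.CG H') (c : H), Commute (((Dual.CG H).subtype.comp u) z)
      (H.subtype c) := fun z c => commute_CG H (u z) c
  rw [← pG_map n H'.subtype (Dual.CG H').subtype (commute_CG H') φ (H'.subtype.comp φ) hcomm rfl,
    pG_conj n H.subtype (H'.subtype.comp φ) ((Dual.CG H).subtype.comp u) (Dual.CG H').subtype
      hcomm2 hcomm g (fun c => hg c) (fun z => ?_),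
    pG_comp n H.subtype (Dual.CG H).subtype (commute_CG H) u ((Dual.CG H).subtype.comp u) hcomm2
      (fun z => rfl)]
  change (z : G) = g * (u z : G) * g⁻¹
  rw [hu z]
  group

theorem extA_rA (Φ : KB n (MonoidAlgebra ℤ G) →ₗ[ℚ] ℚ) : Dual.ExtA (rA Φ) (FF Φ) := by
  intro H r e hH he
  let ε : IdemMat (LaurentPolynomial (MonoidAlgebra ℤ H)) := ⟨r, e, he⟩
  let s : Dual.CG H →* GLn (LaurentPolynomial (MonoidAlgebra ℤ G)) r :=
    rhoG (mapL (gr H.subtype)) (cu ((MonoidAlgebra.of ℤ G).comp (Dual.CG H).subtype))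
      (comm_cu (comm_of (commute_CG H))) ε
  refine ⟨s, fun z => ?_, ?_⟩
  · have h1 : (s z).val = rhoMat (e.map (mapL (gr H.subtype)))
        (cu ((MonoidAlgebra.of ℤ G).comp (Dual.CG H).subtype) z) := rhoG_val _ _ _ ε z
    refine Eq.trans h1 ?_
    unfold rhoMat
    congr 1
    ext i j
    have h2 : (Dual.gr G r (z : G)).mat =
        Matrix.diagonal fun _ => LaurentPolynomial.C (MonoidAlgebra.of ℤ G (z : G)) := rfl
    rw [h2, Matrix.diagonal_mul, Matrix.smul_apply, smul_eq_mul]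
    rfl
  · refine ext_ev fun c => ?_
    rw [rA_ev Φ H r e he]
    have h1 := congrArg Φ (pG_of n H.subtype (Dual.CG H).subtype (commute_CG H) ε c)
    exact h1.symm

/-! ## The part `t = 1` -/

/-- The restriction to the part `t = 1`. -/
def rB {m : ℕ} (Φ : KB (m + 1) (MonoidAlgebra ℤ G) →ₗ[ℚ] ℚ) (H : Subgroup G) (r : ℕ)
    (X : OD.GLr (MonoidAlgebra ℤ H) r) : OD.Coh m (Dual.CG H) :=
  (show HQ m (Dual.CG H) →ₗ[ℚ] ℚ from Φ ∘ₗ
    (t_QEX H (Dual.CG H) G H.subtype (Dual.CG H).subtype (commute_CG H) m r X).choose)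

theorem rB_ev {m : ℕ} (Φ : KB (m + 1) (MonoidAlgebra ℤ G) →ₗ[ℚ] ℚ) (H : Subgroup G) (r : ℕ)
    (X : OD.GLr (MonoidAlgebra ℤ H) r) :
    ∃ Q : HQ m (Dual.CG H) →ₗ[ℚ] KB (m + 1) (MonoidAlgebra ℤ G),
      IsQ m H.subtype (Dual.CG H).subtype r X Q ∧ ∀ c, (rB Φ H r X).ev c = Φ (Q c) :=
  ⟨_, (t_QEX H (Dual.CG H) G H.subtype (Dual.CG H).subtype (commute_CG H) m r X).choose_spec,
    fun _ => rfl⟩

theorem isB_rB {m : ℕ} (Φ : KB (m + 1) (MonoidAlgebra ℤ G) →ₗ[ℚ] ℚ) : Dual.IsB (rB Φ) := by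
  refine ⟨fun H _ => ⟨fun r X Y => ?_, fun a b X Y Z hZ => ?_⟩,
    fun H H' g φ u hH hH' hgu r X => ?_⟩
  · obtain ⟨Q1, h1, h1'⟩ := rB_ev Φ H r X
    obtain ⟨Q2, h2, h2'⟩ := rB_ev Φ H r Y
    obtain ⟨Q3, h3, h3'⟩ := rB_ev Φ H r (X * Y)
    refine ext_ev fun c => ?_
    have h4 : (rB Φ H r X + rB Φ H r Y).ev c = (rB Φ H r X).ev c + (rB Φ H r Y).ev c := rfl
    rw [h4, h1', h2', h3', t_QMU H (Dual.CG H) G H.subtype (Dual.CG H).subtype (commute_CG H) m r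
      X Y Q1 Q2 Q3 h1 h2 h3, LinearMap.add_apply, map_add]
  · have hZ' : Z = bsumHom (MonoidAlgebra ℤ H) a b (X, Y) := Units.ext hZ
    subst hZ'
    obtain ⟨Q1, h1, h1'⟩ := rB_ev Φ H a X
    obtain ⟨Q2, h2, h2'⟩ := rB_ev Φ H b Y
    obtain ⟨Q3, h3, h3'⟩ := rB_ev Φ H (a + b) (bsumHom (MonoidAlgebra ℤ H) a b (X, Y))
    refine ext_ev fun c => ?_
    have h4 : (rB Φ H a X + rB Φ H b Y).ev c = (rB Φ H a X).ev c + (rB Φ H b Y).ev c := rfl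
    rw [h4, h1', h2', h3', t_QBL H (Dual.CG H) G H.subtype (Dual.CG H).subtype (commute_CG H) m a b
      X Y Q1 Q2 Q3 h1 h2 h3, LinearMap.add_apply, map_add]
  · obtain ⟨hg, hu⟩ := hgu
    obtain ⟨Q, h1, h1'⟩ := rB_ev Φ H r X
    obtain ⟨Q', h2, h2'⟩ := rB_ev Φ H' r
      (OD.GLr.map (MonoidAlgebra.mapDomainRingHom ℤ φ) r X)
    refine ext_ev fun c => ?_
    rw [ev_pull, h1', h2']
    have h3 : IsQ m (H'.subtype.comp φ) (Dual.CG H').subtype r X Q' :=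
      ((t_QNT H' (Dual.CG H') G H'.subtype (Dual.CG H').subtype m r).2.1 H φ X Q').2 h2
    obtain ⟨Q'', h4⟩ := t_QEX H (Dual.CG H') G H.subtype ((Dual.CG H).subtype.comp u)
      (fun z c => commute_CG H (u z) c) m r X
    have h5 : Q' = Q'' := (t_QNT H (Dual.CG H') G H.subtype ((Dual.CG H).subtype.comp u) m r).2.2.1
      (H'.subtype.comp φ) (Dual.CG H').subtype g X Q'' Q' (fun c => hg c) (fun z => by
        change (z : G) = g * (u z : G) * g⁻¹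
        rw [hu z]
        group) h4 h3
    have h6 := (t_QNT H (Dual.CG H) G H.subtype (Dual.CG H).subtype m r).1 (Dual.CG H') u
      ((Dual.CG H).subtype.comp u) X Q Q'' (fun z => rfl) h1 h4 c
    rw [h5, h6]

theorem extB_rB {m : ℕ} (Φ : KB (m + 1) (MonoidAlgebra ℤ G) →ₗ[ℚ] ℚ) :
    Dual.ExtB (rB Φ) (FF Φ) := by
  intro H r X x c hH hc
  obtain ⟨z, rfl, rfl⟩ := hc
  obtain ⟨Q, hQ, hQ'⟩ := rB_ev Φ H r X
  obtain ⟨z', h1, h2⟩ := hQ z
  refine ⟨cl ℚ (m + 2) _ z', ⟨z', ?_, rfl⟩, ?_⟩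
  · refine h1.trans ?_
    unfold chQ
    rw [EXB.tI_tr, EXB.glm_eq]
    have h3 : (fun z => scG G r ((Dual.CG H).subtype z)) =
        fun z : Dual.CG H => (Dual.gr G r (z : G) : GLn (LaurentPolynomial (MonoidAlgebra ℤ G)) r) :=
      funext fun z => EXB.scG_gr G r _
    rw [h3]
    rfl
  · change Φ (KB.mk (m + 1) _ r (cl ℚ (m + 2) _ z')) = _
    rw [← h2]
    exact (hQ' _).symm

/-! ## The part `t = 0` -/

theorem ext0 (Φ : KB n (MonoidAlgebra ℤ G) →ₗ[ℚ] ℚ) :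
    ∃ f : OD.Coh n G, Dual.Ext0 f (FF Φ 1) := by
  have hcomm : ∀ g : G, (FJB.WHX.tI (MonoidAlgebra ℤ G) 1) * scG G 1 g =
      scG G 1 g * FJB.WHX.tI (MonoidAlgebra ℤ G) 1 := fun g => FJB.WHX.tI_comm 1 _
  obtain ⟨X, hX⟩ := FJB.WHX.exists_isCr n (scG G 1) (FJB.WHX.tI (MonoidAlgebra ℤ G) 1) hcomm
  refine ⟨(show Hk ℚ n G →ₗ[ℚ] ℚ from (Φ ∘ₗ KB.mk n (MonoidAlgebra ℤ G) 1) ∘ₗ X), ?_⟩
  rintro x c ⟨z, rfl, rfl⟩
  obtain ⟨z', h1, h2⟩ := hX z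
  refine ⟨cl ℚ (n + 1) _ z', ⟨z', ?_, rfl⟩, ?_⟩
  · refine Eq.trans h1 ?_
    rw [EXB.tI_tr]
    have h3 : (scG G 1 : G → GLn (LaurentPolynomial (MonoidAlgebra ℤ G)) 1) =
        fun g : G => (Dual.gr G 1 g : GLn (LaurentPolynomial (MonoidAlgebra ℤ G)) 1) :=
      funext fun g => EXB.scG_gr G 1 g
    rw [h3]
    rfl
  · change Φ (KB.mk n (MonoidAlgebra ℤ G) 1 (cl ℚ (n + 1) _ z')) =
      Φ (KB.mk n (MonoidAlgebra ℤ G) 1 (X (cl ℚ n G z)))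
    rw [h2]

end RST

open RST in
theorem t_RS0 : S_RS0 := by
  intro n G _ F hF
  obtain ⟨Φ, hΦ⟩ := exists_Phi hF
  obtain rfl : FF Φ = F := funext hΦ
  obtain ⟨f, hf⟩ := ext0 Φ
  exact ⟨f, rA Φ, isA_rA Φ, hf, extA_rA Φ⟩

open RST in
theorem t_RS1 : S_RS1 := by
  intro m G _ F hF
  obtain ⟨Φ, hΦ⟩ := exists_Phi hF
  obtain rfl : FF Φ = F := funext hΦ
  exact ⟨rB Φ, isB_rB Φ, extB_rB Φ⟩

end Pool.Agent.FJL
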