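import Pool.Agent.AUK.FJL.All
import Pool.Agent.FJL.HDefs
import Pool.Agent.AUK.FJL.P_RST

/-!
# The final theorem in the form of the hand-in
-/

set_option autoImplicit false
set_option linter.unusedSectionVars false

open Pool.Agent.WhK Pool.Agent.Lib25 CategoryTheory Pool.Agent.FJA

noncomputable section

namespace Pool.Agent.FJL

namespace Lit

variable {G : Type} [Group G]

theorem isKn_of {n : ℕ} {F : ∀ r : ℕ, Coh (n + 1) (GLr (LG G) r)}
    (h : OD.IsKn (R := MonoidAlgebra ℤ G)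
      (show ∀ r : ℕ, OD.Coh (n + 1) (OD.GLr (LaurentPolynomial (MonoidAlgebra ℤ G)) r) from F)) :
    IsKn F := by
  refine ⟨fun a b => ?_, ?_⟩
  · obtain ⟨s, h1, h2⟩ := h.1 a b
    exact ⟨s, h1, h2⟩
  · rintro k (rfl | rfl)
    · exact ⟨posIncl (MonoidAlgebra ℤ G), RingHom.ext fun x => KNL.pos_C x, KNL.pos_X,
        fun r => h.2 _ KNL.pos_C (Or.inl KNL.pos_X) r⟩
    · exact ⟨negIncl (MonoidAlgebra ℤ G), RingHom.ext fun x => KNL.neg_C x, KNL.neg_X,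
        fun r => h.2 _ KNL.neg_C (Or.inr KNL.neg_X) r⟩

theorem poly_ext {R S : Type} [Ring R] [Ring S] {f g : Polynomial R →+* S}
    (h1 : ∀ x, f (Polynomial.C x) = g (Polynomial.C x)) (h2 : f Polynomial.X = g Polynomial.X) :
    f = g :=
  Polynomial.ringHom_ext h1 h2

theorem isKn_to {n : ℕ} {F : ∀ r : ℕ, Coh (n + 1) (GLr (LG G) r)} (h : IsKn F) :
    OD.IsKn (R := MonoidAlgebra ℤ G)
      (show ∀ r : ℕ, OD.Coh (n + 1) (OD.GLr (LaurentPolynomial (MonoidAlgebra ℤ G)) r) from F) := by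
  refine ⟨fun a b => ?_, fun j hC hX r => ?_⟩
  · obtain ⟨s, h1, h2⟩ := h.1 a b
    exact ⟨s, h1, h2⟩
  · have key : ∀ k : ℤ, (k = 1 ∨ k = -1) → j Polynomial.X = LaurentPolynomial.T k →
        (show OD.Coh (n + 1) (OD.GLr (LaurentPolynomial (MonoidAlgebra ℤ G)) r) from F r).pull
          (OD.GLr.map j r) = 0 := by
      intro k hk hj
      obtain ⟨j', h1, h2, h3⟩ := h.2 k hk
      have h4 : j = j' := poly_ext (fun x => (hC x).trans (RingHom.congr_fun h1 x).symm)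
        (hj.trans h2.symm)
      rw [h4]
      exact h3 r
    rcases hX with hX | hX
    · exact key 1 (Or.inl rfl) hX
    · exact key (-1) (Or.inr rfl) hX

theorem isKm1_to {H W : Type} [Group H] [AddCommGroup W]
    {A : ∀ r : ℕ, Matrix (Fin r) (Fin r) (LG H) → W} (h : IsKm1 A) :
    Dual.IsKm1 (R := MonoidAlgebra ℤ H)
      (show ∀ r : ℕ, Matrix (Fin r) (Fin r) (LaurentPolynomial (MonoidAlgebra ℤ H)) → W from A) := by
  refine ⟨h.1, h.2.1, fun j hC hX r e he => ?_⟩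
  have key : ∀ k : ℤ, (k = 1 ∨ k = -1) → j Polynomial.X = LaurentPolynomial.T k →
      A r (e.map j) = 0 := by
    intro k hk hj
    obtain ⟨j', h1, h2, h3⟩ := h.2.2 k hk
    have h4 : j = j' := poly_ext (fun x => (hC x).trans (RingHom.congr_fun h1 x).symm)
      (hj.trans h2.symm)
    rw [h4]
    exact h3 r e he
  rcases hX with hX | hX
  · exact key 1 (Or.inl rfl) hX
  · exact key (-1) (Or.inr rfl) hX

theorem isKm1_of {H W : Type} [Group H] [AddCommGroup W]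
    {A : ∀ r : ℕ, Matrix (Fin r) (Fin r) (LG H) → W}
    (h : Dual.IsKm1 (R := MonoidAlgebra ℤ H)
      (show ∀ r : ℕ, Matrix (Fin r) (Fin r) (LaurentPolynomial (MonoidAlgebra ℤ H)) → W from A)) :
    IsKm1 A := by
  refine ⟨h.1, h.2.1, ?_⟩
  rintro k (rfl | rfl)
  · exact ⟨posIncl (MonoidAlgebra ℤ H), RingHom.ext fun x => KNL.pos_C x, KNL.pos_X,
      fun r e he => h.2.2 _ KNL.pos_C (Or.inl KNL.pos_X) r e he⟩
  · exact ⟨negIncl (MonoidAlgebra ℤ H), RingHom.ext fun x => KNL.neg_C x, KNL.neg_X,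
      fun r e he => h.2.2 _ KNL.neg_C (Or.inr KNL.neg_X) r e he⟩

/-! ## The source -/

theorem isA_to {n : ℕ} (s : SrcFun n G) :
    Dual.IsA (n := n + 1) (show ∀ (H : Subgroup G) (r : ℕ), Matrix (Fin r) (Fin r) (OD.LG H) →
      OD.Coh (n + 1) (Dual.CG H) from s.A) :=
  ⟨fun H hH => isKm1_to (s.A_hom H hH), fun H H' g φ u hH hH' hgu r e he =>
    s.A_conj H H' g φ u hH hH' hgu r e he⟩

theorem isB_to {m : ℕ} (s : SrcFun (m + 1) G) :
    Dual.IsB (m := m) (show ∀ (H : Subgroup G) (r : ℕ), OD.GLr (MonoidAlgebra ℤ H) r →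
      OD.Coh m (Dual.CG H) from s.B) :=
  ⟨fun H hH => s.B_hom H hH, fun H H' g φ u hH hH' hgu r X =>
    s.B_conj H H' g φ u hH hH' hgu r X⟩

/-! ## The assembly map -/

theorem gr_eq (r : ℕ) (g : G) :
    (gr r g : GLr (LG G) r) = (Dual.gr G r g : OD.GLr (OD.LG G) r) := by
  apply Units.ext
  exact Matrix.diagonal_map (map_zero (LaurentPolynomial.C : MonoidAlgebra ℤ G →+* _))

theorem map_eq {H : Type} [Group H] (φ : H →* G) (r : ℕ) (X : GLr (MonoidAlgebra ℤ H) r) :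
    (GLr.map (cc.comp (zg φ)) r X : GLr (LG G) r) =
      (OD.GLr.map (Dual.lm φ) r (OD.GLr.map LaurentPolynomial.C r X) : OD.GLr (OD.LG G) r) := by
  apply Units.ext
  refine Matrix.ext fun i j => ?_
  change LaurentPolynomial.C (FJA.gr φ (X.val i j)) =
    mapL (FJA.gr φ) (AddMonoidAlgebra.single 0 (X.val i j))
  rw [mapL_single]
  rfl

theorem extZ_of {n : ℕ} {f : Coh n G} {F : Coh (n + 1) (GLr (LG G) 1)}
    (h : Dual.Ext0 (show OD.Coh n G from f) (show OD.Coh (n + 1) (OD.GLr (OD.LG G) 1) from F)) :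
    ExtZ f F := by
  refine ⟨Dual.tr G 1, rfl, fun x c hc => ?_⟩
  obtain ⟨c', h1, h2⟩ := h x c hc
  refine ⟨c', ?_, h2⟩
  have h3 : (fun (a : Fin n → G) (i : Fin n) => gr 1 (a i)) =
      fun (a : Fin n → G) (i : Fin n) => (Dual.gr G 1 (a i) : GLr (LG G) 1) :=
    funext fun a => funext fun i => gr_eq 1 (a i)
  rw [h3]
  exact h1

theorem extA_of {n : ℕ}
    {A : ∀ (H : Subgroup G) (r : ℕ), Matrix (Fin r) (Fin r) (LG H) → Coh n (CG H)}
    {F : ∀ r : ℕ, Coh n (GLr (LG G) r)}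
    (h : Dual.ExtA (n := n) (show ∀ (H : Subgroup G) (r : ℕ), Matrix (Fin r) (Fin r) (OD.LG H) →
      OD.Coh n (Dual.CG H) from A) (show ∀ r : ℕ, OD.Coh n (OD.GLr (OD.LG G) r) from F)) :
    ExtA A F := by
  intro H r e hH he
  obtain ⟨s, h1, h2⟩ := h H r e hH he
  refine ⟨s, fun z => ?_, h2⟩
  rw [gr_eq]
  exact h1 z

theorem extB_of {m : ℕ}
    {B : ∀ (H : Subgroup G) (r : ℕ), GLr (MonoidAlgebra ℤ H) r → Coh (m + 1 - 1) (CG H)}
    {F : ∀ r : ℕ, Coh (m + 1 + 1) (GLr (LG G) r)}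
    (h : Dual.ExtB (m := m) (show ∀ (H : Subgroup G) (r : ℕ), OD.GLr (MonoidAlgebra ℤ H) r →
      OD.Coh m (Dual.CG H) from B) (show ∀ r : ℕ, OD.Coh (m + 2) (OD.GLr (OD.LG G) r) from F)) :
    ExtB (m + 1) B F := by
  intro H r X hH
  refine ⟨Dual.tr G r, rfl, fun x c hc => ?_⟩
  obtain ⟨c', h1, h2⟩ := h H r X x c hH hc
  refine ⟨c', ?_, h2⟩
  have h3 : (fun (a : Fin m → CG H) (i : Fin m) => gr r (a i : G)) =
      fun (a : Fin m → CG H) (i : Fin m) => (Dual.gr G r (a i : G) : GLr (LG G) r) :=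
    funext fun a => funext fun i => gr_eq r (a i : G)
  rw [h3, map_eq]
  exact h1

/-! ## The theorem -/

theorem whInj (G : Type) [Group G] : WhInj G := FJB.s_dual.1 G

theorem restrict {n : ℕ} (F : ∀ r : ℕ, Coh (n + 1) (GLr (LG G) r)) (hF : IsKn F) :
    ∃ s : SrcFun n G, Ext s F := by
  obtain ⟨f, A, hA, h0, hEA⟩ := t_RS0 n G F (isKn_to hF)
  have hA1 : ∀ H : Subgroup G, Finite H → IsKm1 (W := Coh (n + 1) (CG H)) (A H) :=
    fun H hH => isKm1_of (hA.1 H hH)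
  cases n with
  | zero =>
    refine ⟨⟨f, A, fun _ _ _ => 0, hA1, hA.2, fun H _ => ⟨fun _ _ _ => (add_zero 0).symm,
      fun _ _ _ _ _ _ => (add_zero 0).symm⟩, fun H K g φ u _ _ _ r X => ?_⟩, extZ_of h0,
      extA_of hEA, trivial⟩
    exact (LinearMap.zero_comp _).symm
  | succ m =>
    obtain ⟨B, hB, hEB⟩ := t_RS1 m G F (isKn_to hF)
    exact ⟨⟨f, A, B, hA1, hA.2, hB.1, hB.2⟩, extZ_of h0, extA_of hEA, extB_of hEB⟩

theorem extend {n : ℕ} (hn : n ≤ 2 ∨ LPBd G) (s : SrcFun n G) (hs : s.IsDet) :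
    ∃ F : ∀ r : ℕ, Coh (n + 1) (GLr (LG G) r), IsKn F ∧ Ext s F := by
  cases n with
  | zero =>
    obtain ⟨F, h1, h2, h3⟩ := all_MAIN.1 G s.f s.A (isA_to s) fun H r e hH he =>
      (hs H hH.1 hH.2.1 hH.2.2).1 r e he
    exact ⟨F, isKn_of h1, extZ_of h2, extA_of h3, trivial⟩
  | succ m =>
    obtain ⟨F, h1, h2, h3, h4⟩ := all_MAIN.2 G m (hn.imp (fun h => by omega) id) s.f s.A s.B
      (isA_to s) (isB_to s) (fun H r e hH he => (hs H hH.1 hH.2.1 hH.2.2).1 r e he)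
      fun H r X hH => (hs H hH.1 hH.2.1 hH.2.2).2 r X
    exact ⟨F, isKn_of h1, extZ_of h2, extA_of h3, extB_of h4⟩

end Lit

open Lit in
theorem lit_main : Lit.Main :=
  ⟨whInj, fun _ _ _ => ⟨restrict, extend⟩⟩

end Pool.Agent.FJL
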