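import Pool.Agent.AUK.FJL.P_UHG

/-!
# UHF: every homology class comes from a finitely generated subgroup
-/

set_option autoImplicit false

open Matrix Pool.Agent.WhK Pool.Agent.Lib25 CategoryTheory Pool.Agent.FJA

noncomputable section

namespace Pool.Agent.FJL

theorem t_UHF : S_UHF := by
  intro m P _ c
  obtain ⟨z, rfl⟩ := exists_cl (k := ℚ) c
  refine ⟨Subgroup.closure (UHG.ent m (ch ℚ m P z) : Set P), ⟨_, rfl⟩, ?_⟩
  obtain ⟨w, hw⟩ := UHG.lift m
    (Subgroup.closure (UHG.ent m (ch ℚ m P z) : Set P)).subtype (ch ℚ m P z)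
    fun x hx => ⟨⟨x, Subgroup.subset_closure (Finset.mem_coe.2 hx)⟩, rfl⟩
  obtain ⟨x, hx⟩ := UHG.exists_cyc m _ (Subgroup.subtype_injective _) w z hw
  refine ⟨cl ℚ m _ x, ?_⟩
  obtain ⟨y, h1, h2⟩ := Hk.map_cl (k := ℚ)
    (Subgroup.closure (UHG.ent m (ch ℚ m P z) : Set P)).subtype x
  rw [HQ_map_eq, h1]
  apply cl_congr
  rw [h2, hx, hw]

end Pool.Agent.FJL
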