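import Pool.Agent.AUK.FJL.St3

/-!
# UHG: homology of directed unions
-/

set_option autoImplicit false

open Matrix Pool.Agent.WhK Pool.Agent.Lib25 CategoryTheory Pool.Agent.FJA

noncomputable section

namespace Pool.Agent.FJL

namespace UHG

theorem map_inj {P Q : Type} (m : ℕ) (f : P → Q) (hf : Function.Injective f) :
    Function.Injective (IC.map ℚ m f) :=
  Finsupp.mapDomain_injective (fun _ _ h => funext fun i => hf (congrFun h i))

theorem contractNth_comp {P Q : Type} [Group P] [Group Q] (m : ℕ) (f : P →* Q) (j : Fin (m + 1))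
    (g : Fin (m + 1) → P) :
    (j.contractNth (· * ·) (f ∘ g) : Fin m → Q) = f ∘ (j.contractNth (· * ·) g) := by
  funext i
  simp only [Fin.contractNth, Function.comp]
  split_ifs
  · rfl
  · rw [map_mul]
  · rfl

theorem dI_map {P Q : Type} [Group P] [Group Q] (m : ℕ) (f : P →* Q) (z : IC ℚ (m + 1) P) :
    dI ℚ m Q (IC.map ℚ (m + 1) f z) = IC.map ℚ m f (dI ℚ m P z) := by
  induction z using Finsupp.induction_linear with
  | zero => simp only [map_zero]
  | add a b ha hb => simp only [map_add, ha, hb]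
  | single g q =>
    rw [IC.map_single, dI_single, dI_single, map_add, IC.map_single, map_sum]
    congr 1
    refine Finset.sum_congr rfl fun j _ => ?_
    rw [map_smul, IC.map_single, contractNth_comp]

/-- The entries of the tuples in the support of a chain. -/
def ent {P : Type} (m : ℕ) (z : IC ℚ m P) : Finset P := by
  classical exact z.support.biUnion fun g => Finset.univ.image g

theorem mem_ent {P : Type} (m : ℕ) (z : IC ℚ m P) (g : Fin m → P) (hg : g ∈ z.support)
    (i : Fin m) : g i ∈ ent m z := by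
  classical
  unfold ent
  exact Finset.mem_biUnion.2 ⟨g, hg, Finset.mem_image.2 ⟨i, Finset.mem_univ _, rfl⟩⟩

/-- A chain with entries in the range of a map can be lifted. -/
theorem lift {P Q : Type} [Group P] [Group Q] (m : ℕ) (f : P → Q) (z : IC ℚ m Q)
    (hz : ∀ x ∈ ent m z, ∃ y, f y = x) : ∃ w : IC ℚ m P, IC.map ℚ m f w = z := by
  have h1 : ∀ g : z.support, ∃ g' : Fin m → P, f ∘ g' = g.1 := by
    intro g
    choose g' hg' using fun i => hz (g.1 i) (mem_ent m z g.1 g.2 i)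
    exact ⟨g', funext hg'⟩
  choose g' hg' using h1
  refine ⟨∑ g ∈ z.support.attach, Finsupp.single (g' g) (z g.1), ?_⟩
  rw [map_sum]
  have h2 : ∀ g ∈ z.support.attach, IC.map ℚ m f (Finsupp.single (g' g) (z g.1)) =
      Finsupp.single g.1 (z g.1) := by
    intro g _
    rw [IC.map_single, hg']
  rw [Finset.sum_congr rfl h2, Finset.sum_attach z.support fun g => Finsupp.single g (z g)]
  exact z.sum_single

/-- A chain which becomes a cycle under an injective homomorphism is a cycle. -/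
theorem exists_cyc {P Q : Type} [Group P] [Group Q] (m : ℕ) (f : P →* Q)
    (hf : Function.Injective f) (w : IC ℚ m P) (z : ZC ℚ m Q)
    (hw : IC.map ℚ m f w = ch ℚ m Q z) : ∃ x, ch ℚ m P x = w := by
  cases m with
  | zero => exact UCZ.exists_ch_zero P w
  | succ m =>
    refine exists_ch w (map_inj m f hf ?_)
    rw [← dI_map, hw, d_ch, map_zero]

end UHG

theorem t_UHG : S_UHG := by
  intro m I Γi _ Γ _ ρ hρ hS
  refine ⟨fun c => ?_, fun Γ0 _ ρ0 t ht c hc => ?_⟩
  · obtain ⟨z, rfl⟩ := exists_cl (k := ℚ) c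
    obtain ⟨i, hi⟩ := hS (UHG.ent m (ch ℚ m Γ z))
    obtain ⟨w, hw⟩ := UHG.lift m (ρ i) (ch ℚ m Γ z) hi
    obtain ⟨x, hx⟩ := UHG.exists_cyc m (ρ i) (hρ i) w z hw
    refine ⟨i, cl ℚ m (Γi i) x, ?_⟩
    obtain ⟨y, h1, h2⟩ := Hk.map_cl (k := ℚ) (ρ i) x
    rw [HQ_map_eq, h1]
    apply cl_congr
    rw [h2, hx, hw]
  · obtain ⟨z, rfl⟩ := exists_cl (k := ℚ) c
    obtain ⟨y, h1, h2⟩ := Hk.map_cl (k := ℚ) ρ0 z
    rw [HQ_map_eq, h1, cl_eq_zero_iff] at hc
    obtain ⟨w, hw⟩ := hc
    obtain ⟨i, hi⟩ := hS (UHG.ent (m + 1) w)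
    obtain ⟨w', hw'⟩ := UHG.lift (m + 1) (ρ i) w hi
    refine ⟨i, ?_⟩
    obtain ⟨x, h3, h4⟩ := Hk.map_cl (k := ℚ) (t i) z
    rw [HQ_map_eq, h3, cl_eq_zero_iff]
    refine ⟨w', UHG.map_inj m (ρ i) (hρ i) ?_⟩
    rw [← UHG.dI_map, hw', ← hw, h2, h4, IC.map_map]
    congr 2
    funext a
    exact ht i a

end Pool.Agent.FJL
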