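import Pool.Agent.AUK.FJL.Defs

/-!
# FJL, block 2 (the part `t = 1`): statements with proofs

File names: `Pool/Agent/FJL/P_X.lean`, theorem `t_X : S_X` (hypotheses as in the doc strings), namespace
`Pool.Agent.FJL`; imports `Pool.Agent.FJL.St2`.  `insL`, `IC.map`, `ZC`, `ch`, `cl`, `Hk.map_cl`: FJA/Chain.lean,
FJA/P_AS1.lean (`AS1.map_insL`); `FJB.WHX.exists_isCr`, `IsCr.nat`, `tI`, `kc_block`, `glm_bsum`, `bsum_tI`,
`KB_block`, `B_kc`: FJB/P_WHX.lean (two copies of `cst` exist, `FJA.cst` and `FJB.WHX.cst`, equal by `rfl`).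
-/

set_option autoImplicit false
set_option linter.unusedSectionVars false

open Matrix Pool.Agent.WhK Pool.Agent.Lib25 CategoryTheory Pool.Agent.FJA

noncomputable section

namespace Pool.Agent.FJL

/-- FJL_QEX (90 lines; no hypotheses).  Existence of the product.

PROOF.  `f z = scG G r (j z)`, `g = glm ((cst _).comp (gr φ)) r X` and `g * f z = f z * g`: `f z` is the diagonal
matrix of `elt (j z)`, which commutes with `gr φ a` for `a : ℤ[C]` (`comm_of H`, under `cst`), entrywise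
(`Matrix.mul_diagonal`, `Matrix.diagonal_mul`).  `FJB.WHX.exists_isCr m f g` gives `X1`; `exists_isCr (m + 1)
(MonoidHom.id _) (tI _ r)` (`tI_comm`) gives `X2`.  `Q = KB.mk (m + 1) _ r ∘ₗ X2 ∘ₗ X1`; for `z` take
`z1` from `X1` and `z'` from `X2` for `z1`; `IC.map ℚ (m + 1) (MonoidHom.id _) = id` (`IC.map_id`). -/
def S_QEX : Prop := ∀ (C P G : Type) [Group C] [Group P] [Group G] (φ : C →* G) (j : P →* G),
  (∀ z c, Commute (j z) (φ c)) → ∀ (m r : ℕ) (X : GLn (MonoidAlgebra ℤ C) r),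
  ∃ Q : HQ m P →ₗ[ℚ] KB (m + 1) (MonoidAlgebra ℤ G), IsQ m φ j r X Q

/-- FJL_QMU (110 lines; no hypotheses; compare the case `mul` of P_AS1.lean).  Additivity in `X`.

PROOF.  Let `c = cl z`; `z1, z2, z3` the cycles of `IsQ` for `X`, `Y`, `X * Y`.  With `f, g, g'` as in QEX for `X`,
`Y`, `t_CRA t_TPR (t_CRS t_PRI t_BD) t_BD` gives `y` with
`insL g w + insL g' w - insL (g * g') w = dI y`, `w = IC.map f (ch z)`.  Apply the linear map
`insL (m + 1) t` (`X2` of `exists_isCr` for `tI`, on classes): the cycles `a, b, d` with chains `insL g w`,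
`insL g' w`, `insL (g g') w` (from `exists_isCr m f ..`) satisfy `cl d = cl a + cl b` (`cl_eq_zero_iff` for
`a + b - d`), so `X2 (cl d) = X2 (cl a) + X2 (cl b)`, and `X2 (cl a) = cl z1` etc. by `cl_congr`. -/
def S_QMU : Prop := ∀ (C P G : Type) [Group C] [Group P] [Group G] (φ : C →* G) (j : P →* G),
  (∀ z c, Commute (j z) (φ c)) → ∀ (m r : ℕ) (X Y : GLn (MonoidAlgebra ℤ C) r)
  (Q1 Q2 Q3 : HQ m P →ₗ[ℚ] KB (m + 1) (MonoidAlgebra ℤ G)), IsQ m φ j r X Q1 →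
  IsQ m φ j r Y Q2 → IsQ m φ j r (X * Y) Q3 → Q3 = Q1 + Q2

/-- FJL_QBL (120 lines; no hypotheses; compare `kc_block` in FJB/P_WHX.lean).  Additivity on block sums.

PROOF.  Let `S = ℤ[G][t,t⁻¹]` and `GG = GLn S a × GLn S b`.  `f z = (scG G a (j z), scG G b (j z))`,
`g = (glm _ a X, glm _ b Y)`; `exists_isCr m f g` gives `W1 : HQ m P → HQ (m + 1) GG`, and
`exists_isCr (m + 1) (MonoidHom.id GG) (tI a, tI b)` gives `W2 : HQ (m + 1) GG → HQ (m + 2) GG`.
`IsCr.nat` for `bsumHom S a b`, `MonoidHom.fst`, `MonoidHom.snd` (twice): the images of `W2 (W1 c)` under the three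
maps are `X2 (X1 c)` for `(a + b, bsumHom (X, Y))`, `(a, X)`, `(b, Y)`, because
`bsumHom (scG G a g, scG G b g) = scG G (a + b) g` (like `bsum_tI`), `bsumHom (glm X, glm Y) = glm (bsumHom (X, Y))`
(`glm_bsum`), `bsum_tI`.  Then `KB_block`.  (`Q1`, `Q2`, `Q3` are `KB.mk ∘ X2 ∘ X1` by `IsQ.uniq` and the
construction in QEX, or compare cycles.) -/
def S_QBL : Prop := ∀ (C P G : Type) [Group C] [Group P] [Group G] (φ : C →* G) (j : P →* G),
  (∀ z c, Commute (j z) (φ c)) → ∀ (m a b : ℕ) (X : GLn (MonoidAlgebra ℤ C) a)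
  (Y : GLn (MonoidAlgebra ℤ C) b) (Q1 Q2 Q3 : HQ m P →ₗ[ℚ] KB (m + 1) (MonoidAlgebra ℤ G)),
  IsQ m φ j a X Q1 → IsQ m φ j b Y Q2 →
  IsQ m φ j (a + b) (bsumHom (MonoidAlgebra ℤ C) a b (X, Y)) Q3 → Q3 = Q1 + Q2

/-- FJL_QNT (150 lines; no hypotheses).  Naturality.

PROOF.  (comp) `z` a cycle with `cl z = c`, `Hk.map_cl f z` gives `y`, `ch y = IC.map f (ch z)`; the two chains
`chQ .. j' (ch z)` and `chQ .. j (ch y)` are equal (`IC.map_map`), `cl_congr`.  (map) `gr (φ.comp α) = (gr φ).comp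
(gr α)` (`gr_comp`), so `glm ((cst _).comp (gr (φ.comp α))) r X = glm ((cst _).comp (gr φ)) r (glm (gr α) r X)` and
the chains are equal.  (conj) `D = scG G r g`: `chQ φ' j' X x = IC.map (MulAut.conj D) (chQ φ j X x)`
(`AS1.map_insL` twice, `IC.map_map`; `tI` is central; the matrix of `X` under `φ'` is the conjugate:
`gr φ' a = single g 1 * gr φ a * single g⁻¹ 1`, see `prodG_conj` in FJA/Asm.lean), and
`Hk.map_conj t_PRI t_BD` (degree `m + 2 > 0`), `Hk.map_cl`, `cl_congr`.  (nat) `M (KB.mk r (cl z')) =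
KB.mk r (HQ.map (glm (mapL (gr ι)) r) (cl z'))`, and `IC.map (glm (mapL (gr ι)) r)` of `chQ φ j X x` is
`chQ (ι φ) (ι j) X x` (`AS1.map_insL` twice; `tI` goes to `tI`, `scG G r g` to `scG G' r (ι g)`, constants to
constants `mapL (gr ι) (cst a) = cst (gr ι a)`). -/
def S_QNT : Prop := ∀ (C P G : Type) [Group C] [Group P] [Group G] (φ : C →* G) (j : P →* G)
  (m r : ℕ),
  (∀ (P' : Type) [Group P'] (f : P' →* P) (j' : P' →* G) (X : GLn (MonoidAlgebra ℤ C) r)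
    (Q : HQ m P →ₗ[ℚ] KB (m + 1) (MonoidAlgebra ℤ G))
    (Q' : HQ m P' →ₗ[ℚ] KB (m + 1) (MonoidAlgebra ℤ G)), (∀ z, j' z = j (f z)) →
    IsQ m φ j r X Q → IsQ m φ j' r X Q' → ∀ c, Q' c = Q (HQ.map m f c)) ∧
  (∀ (C' : Type) [Group C'] (α : C' →* C) (X : GLn (MonoidAlgebra ℤ C') r)
    (Q : HQ m P →ₗ[ℚ] KB (m + 1) (MonoidAlgebra ℤ G)),
    IsQ m (φ.comp α) j r X Q ↔ IsQ m φ j r (glm (gr α) r X) Q) ∧
  (∀ (φ' : C →* G) (j' : P →* G) (g : G) (X : GLn (MonoidAlgebra ℤ C) r)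
    (Q Q' : HQ m P →ₗ[ℚ] KB (m + 1) (MonoidAlgebra ℤ G)), (∀ c, φ' c = g * φ c * g⁻¹) →
    (∀ z, j' z = g * j z * g⁻¹) → IsQ m φ j r X Q → IsQ m φ' j' r X Q' → Q' = Q) ∧
  ∀ (G' : Type) [Group G'] (ι : G →* G') (X : GLn (MonoidAlgebra ℤ C) r)
    (Q : HQ m P →ₗ[ℚ] KB (m + 1) (MonoidAlgebra ℤ G))
    (M : KB (m + 1) (MonoidAlgebra ℤ G) →ₗ[ℚ] KB (m + 1) (MonoidAlgebra ℤ G')),
    IsKm (m + 1) (gr ι) M → IsQ m φ j r X Q → IsQ m (ι.comp φ) (ι.comp j) r X (M ∘ₗ Q)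

/-- FJL_QUN (70 lines; no hypotheses).  Units of `ℤ[⟨h⟩]`.

PROOF.  `c = cl z`.  `IsA1 B` gives `z'` with `ch z' = chU u (ch z)`, `u = Units.map (gr sub) v` (`Adm1 h u`: `h` of
finite order, `u ∈ UnS h` by definition), and `IsQ` gives `z''` with `ch z'' = chQ .. (ch z)`.  The two chains are
equal (`AS1.chU_eq`): `tI _ 1 = tL G` (`FJB.WHX.tI_tL`), `scG G 1 g = uL G (gU G g)` (equality of `1 × 1` diagonal
matrices, `rfl` after `Units.ext`), `glm ((cst _).comp (gr sub)) 1 (unit1 v) = uL G u` (compare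
`FJB.WHX.unit1_tL`).  `cl_congr`. -/
def S_QUN : Prop := ∀ (G : Type) [Group G] (m : ℕ)
  (B : Src1 m G →ₗ[ℚ] KB (m + 1) (MonoidAlgebra ℤ G)), IsA1 B → ∀ (h : G), IsOfFinOrder h →
  ∀ (v : (MonoidAlgebra ℤ (Subgroup.zpowers h))ˣ)
  (Q : HQ m (Cen h) →ₗ[ℚ] KB (m + 1) (MonoidAlgebra ℤ G)),
  IsQ m (Subgroup.zpowers h).subtype (Cen h).subtype 1 (FJB.unit1 v) Q → ∀ c,
  Q c = B (sym1 h c (Units.map (gr (Subgroup.zpowers h).subtype :
    MonoidAlgebra ℤ (Subgroup.zpowers h) →* MonoidAlgebra ℤ G) v))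

/-- `Lb` is the functional on the source with symbols attached to the family `D`. -/
def IsLb {m : ℕ} {G : Type} [Group G] (D : FamB m G) (Lb : Src1 m G →ₗ[ℚ] ℚ) : Prop :=
  ∀ (h : G) (v : (MonoidAlgebra ℤ (Subgroup.zpowers h))ˣ)
    (H : ∀ z c, Commute ((Cen h).subtype z) ((Subgroup.zpowers h).subtype c)) (c : HQ m (Cen h)),
    IsOfFinOrder h →
    Lb (sym1 h c (Units.map (gr (Subgroup.zpowers h).subtype :
      MonoidAlgebra ℤ (Subgroup.zpowers h) →* MonoidAlgebra ℤ G) v)) =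
      D (Subgroup.zpowers h) (Cen h) (Subgroup.zpowers h).subtype (Cen h).subtype H 1
        (FJB.unit1 v) c

/-- FJL_LMB (220 lines; no hypotheses; compare `exists_phi` in FJB/P_WHX.lean and `t_AS1` in FJA/P_AS1.lean).
The functional on `Src1 m G`.

PROOF.  For `h : G` of finite order and `u ∈ UnS h` choose `v` with `Units.map (gr sub) v = u` (unique:
`mapDomain` of an injective map is injective) and put `V h u = D (zpowers h) (Cen h) sub sub H 1 (unit1 v)`,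
otherwise `V h u = 0` (`H` exists: elements of `Cen h` commute with `⟨h⟩`, `AS1.cen_zpow`).  The linear
combination `(h, c, u) ↦ V h u c` vanishes on `Rel1 m G`:
* invalid, add, smul: clear.  mul: `unit1 (v * v') = unit1 v * unit1 v'`, `IsFB.mul`.
* conj: `Adm1 h u ↔ Adm1 (x h x⁻¹) (x u x⁻¹)` (`AS1.adm1_conj_iff`).  Let `α : zpowers h →* zpowers (x h x⁻¹)`,
  `a ↦ x a x⁻¹`, `κ = cHom x _`.  The unit of `x u x⁻¹` is `Units.map (gr α) v` (uniqueness) and
  `unit1 (Units.map (gr α) v) = glm (gr α) 1 (unit1 v)`.  So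
  `V h' u' (κ_* c) = D (zpowers h') (Cen h') sub sub (glm (gr α) 1 (unit1 v)) (κ_* c)
   = D (zpowers h') (Cen h) sub (sub ∘ κ) (glm (gr α) 1 (unit1 v)) c` (`IsFB.comp` backwards)
   `= D (zpowers h) (Cen h) (sub ∘ α) (sub ∘ κ) (unit1 v) c` (`IsFB.map` backwards)
   `= D (zpowers h) (Cen h) sub sub (unit1 v) c` (`IsFB.conj` with `g = x`) `= V h u c`.
* res: `h' ∈ zpowers h`, `u ∈ UnS h'`, `v'` its unit over `ℤ[⟨h'⟩]`, `α : zpowers h' →* zpowers h` the inclusion;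
  `u ∈ UnS h` with unit `Units.map (gr α) v'`; `κ = cHom 1 _ : Cen h →* Cen h'`.  As before with `comp` and `map`
  only.
`Und1 m G`: span induction; `y = sym1 h c u`, `h ≠ 1` of finite order, `c` undetected.  If `Adm1 h u`, let
`N = orderOf h > 1` and `α : Cyc N →* zpowers h` the isomorphism with `gen N ↦ h` (`exists_cyc` for the group
`zpowers h`; bijective), `v = Units.map (gr α) v0`; then `V h u c = D (zpowers h) .. (glm (gr α) 1 (unit1 v0)) c =
D (Cyc N) (Cen h) (sub ∘ α) sub (unit1 v0) c = 0` by `DetB` (`(sub ∘ α) (gen N) = h`; `subst` or generalize `h`). -/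
def S_LMB : Prop := ∀ (m : ℕ) (G : Type) [Group G] (D : FamB m G), IsFB D → DetB D →
  ∃ Lb : Src1 m G →ₗ[ℚ] ℚ, IsLb D Lb ∧ ∀ y ∈ Und1 m G, Lb y = 0

/-- FJL_ART (120 lines; no hypotheses).  Artin induction: a functional on `K_1(ℤ[C])`, `C` finite, which vanishes
on the units of the group rings of the cyclic subgroups is zero.

PROOF.  `F` factors through an additive map `l : K1 (ℤ[C]) →+ ℚ`, `l (K1.mk r X) = F r X`: `K1` is the quotient of
the free abelian group on the pairs by `relMul`, `relStab` (Lib_helper44/Wh/KDefs.lean); `relMul` by `hF.1`;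
`relStab`: `stabGL R m n X` is the block sum of `X` and `1` (`n = m + k`; `subst`, compare the matrices
`stabMat` and `bsum X 1` entrywise, `finSumFinEquiv`), `F k 1 = 0` (from `hF.1 k 1 1`).  For a cyclic subgroup
`C0` and `u`: `K1.ofUnit (Units.map (zmap C0.subtype) u) = K1.mk 1 (unit1 (Units.map (gr C0.subtype) u))` (the
scalar matrix is the diagonal matrix), so `l = 0` on `cycUnits C`.  `artin_K1` (needs `Fintype C`:
`Fintype.ofFinite`): every `x` has a positive multiple in `cycUnits C`, so `l x = 0`. -/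
def S_ART : Prop := ∀ (C : Type) [Group C] [Finite C] (F : ∀ r : ℕ, GLn (MonoidAlgebra ℤ C) r → ℚ),
  FJB.IsK1 F →
  (∀ C0 : Subgroup C, IsCyclic C0 → ∀ v : (MonoidAlgebra ℤ C0)ˣ,
    F 1 (FJB.unit1 (Units.map (gr C0.subtype : MonoidAlgebra ℤ C0 →* MonoidAlgebra ℤ C) v)) = 0) →
  ∀ (r : ℕ) (X : GLn (MonoidAlgebra ℤ C) r), F r X = 0

/-- FJL_FVB (170 lines; hypotheses `S_QEX`, `S_QMU`, `S_QBL`, `S_QNT`, `S_QUN`, `S_ART`).  The values of `Φ` on the
part `t = 1`.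

PROOF.  Fix `C, P, φ, j, H, c` and choose for all `r, X` the product `q r X` (`S_QEX`).  `F r X = Φ (q r X c) -
D C P φ j H r X c` is `IsK1` (`S_QMU`, `S_QBL`, `IsFB.mul`, `IsFB.blk`).  By `S_ART` it is enough to consider
`X = unit1 (image of v)`, `v` a unit of `ℤ[C0]`, `C0 ≤ C` cyclic.  Let `a` be a generator of `C0`,
`h = φ a : G` (finite order), `φ0 = φ.comp C0.subtype : C0 →* G`, injective with range `zpowers h`; let
`γ : C0 →* zpowers h` be the isomorphism with `sub ∘ γ = φ0` and `v' = Units.map (gr γ) v`.  Let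
`f : P →* Cen h`, `(f z : G) = j z`.  Let `Qh` be the product for `(sub : zpowers h → G, (Cen h).subtype, 1, unit1 v')`.
`S_QNT` (map) for `C0.subtype` and for `γ`: the product `q 1 X` for `(φ, j)` is the product for `(φ0, j, unit1 v)` and
for `(sub, j, unit1 v')` (`IsQ.uniq`; `glm (gr _) 1 (unit1 v) = unit1 (Units.map (gr _) v)`), and by (comp)
`q 1 X c = Qh (HQ.map m f c) = B (sym1 h (HQ.map m f c) (image of v'))` (`S_QUN`).  So
`Φ (q 1 X c) = Lb (..) = D (zpowers h) (Cen h) sub sub 1 (unit1 v') (HQ.map m f c)` (`IsLb`), and the same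
transformations of `D` (`IsFB.comp`, `IsFB.map` twice) give `D C P φ j H 1 X c`.  (An arbitrary `Q` with
`IsQ m φ j r X Q` is `q r X`: `IsQ.uniq`.) -/
def S_FVB : Prop := ∀ (m : ℕ) (G : Type) [Group G] (D : FamB m G), IsFB D →
  ∀ (B : Src1 m G →ₗ[ℚ] KB (m + 1) (MonoidAlgebra ℤ G)), IsA1 B →
  ∀ (Φ : KB (m + 1) (MonoidAlgebra ℤ G) →ₗ[ℚ] ℚ) (Lb : Src1 m G →ₗ[ℚ] ℚ), IsLb D Lb →
  (∀ y, Φ (B y) = Lb y) → SolO D Φ

end Pool.Agent.FJL
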